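import Pool.Agent.Lib.MP_3550b5_nt.TP.Ver.Defs

/-!
From irreducible polynomials to all polynomials.

Plan. `dX P = sup of the degrees of the coefficients` is the degree of `Polynomial.Bivariate.swap P`,
so it is additive on products; so is the degree in `Y`; the bound is superadditive; induction on
the factorization (`UniqueFactorizationMonoid`, or `WfDvdMonoid.induction_on_irreducible`).
-/

namespace Pool.Agent.Lib.MP_3550b5_nt.Vr

open PowerSeries

private theorem coeff_swap {k : Type*} [Field k] (P : Polynomial (Polynomial k)) (i j : ℕ) :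
    ((Polynomial.Bivariate.swap P).coeff i).coeff j = (P.coeff j).coeff i := by
  induction P using Polynomial.induction_on' with
  | add p q hp hq =>
    rw [map_add, Polynomial.coeff_add, Polynomial.coeff_add, hp, hq, Polynomial.coeff_add,
      Polynomial.coeff_add]
  | monomial n f =>
    induction f using Polynomial.induction_on' with
    | add p q hp hq =>
      rw [map_add, map_add, Polynomial.coeff_add, Polynomial.coeff_add, hp, hq,
        Polynomial.coeff_add, Polynomial.coeff_add]
    | monomial m r =>
      rw [Polynomial.Bivariate.swap_monomial_monomial, Polynomial.coeff_monomial,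
        Polynomial.coeff_monomial]
      by_cases h1 : m = i <;> by_cases h2 : n = j <;>
        simp [h1, h2, Polynomial.coeff_monomial]

/-- The degree in `X`. -/
private noncomputable def dX {k : Type*} [Field k] (P : Polynomial (Polynomial k)) : ℕ :=
  (Polynomial.Bivariate.swap P).natDegree

private theorem natDegree_le_dX {k : Type*} [Field k] (P : Polynomial (Polynomial k)) (j : ℕ) :
    (P.coeff j).natDegree ≤ dX P := by
  rw [Polynomial.natDegree_le_iff_coeff_eq_zero]
  intro N hN
  rw [← coeff_swap, Polynomial.coeff_eq_zero_of_natDegree_lt hN, Polynomial.coeff_zero]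

private theorem dX_le {k : Type*} [Field k] {P : Polynomial (Polynomial k)} {I : ℕ}
    (h : ∀ j, (P.coeff j).natDegree ≤ I) : dX P ≤ I := by
  rw [dX, Polynomial.natDegree_le_iff_coeff_eq_zero]
  intro N hN
  ext j
  rw [coeff_swap, Polynomial.coeff_eq_zero_of_natDegree_lt (lt_of_le_of_lt (h j) hN),
    Polynomial.coeff_zero]

private theorem swap_ne {k : Type*} [Field k] {P : Polynomial (Polynomial k)} (hP : P ≠ 0) :
    Polynomial.Bivariate.swap P ≠ 0 :=
  (map_ne_zero_iff _ (Polynomial.Bivariate.swap (R := k)).injective).mpr hP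

private theorem dX_mul {k : Type*} [Field k] {P Q : Polynomial (Polynomial k)} (hP : P ≠ 0)
    (hQ : Q ≠ 0) : dX (P * Q) = dX P + dX Q := by
  rw [dX, map_mul, Polynomial.natDegree_mul (swap_ne hP) (swap_ne hQ), dX, dX]

private theorem evY_mul {k : Type*} [Field k] (f : k⟦X⟧) (P Q : Polynomial (Polynomial k)) :
    evY f (P * Q) = evY f P * evY f Q := by
  rw [evY, evY, evY, Polynomial.eval₂_mul]

private theorem order_coe_le {k : Type*} [Field k] {q : Polynomial k} (hq : q ≠ 0) :
    (q : k⟦X⟧).order ≤ (q.natDegree : ℕ∞) := by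
  apply order_le
  rw [Polynomial.coeff_coe]
  exact Polynomial.leadingCoeff_ne_zero.mpr hq

private theorem order_main {k : Type*} [Field k] {f : k⟦X⟧} {D : ℕ}
    (hirr : ∀ (I J : ℕ) (P : Polynomial (Polynomial k)), Irreducible P → 1 ≤ P.natDegree →
      P.natDegree ≤ J → (∀ j, (P.coeff j).natDegree ≤ I) → ∀ m, X ^ m ∣ evY f P →
        m ≤ D * (J * (I + J)))
    (P : Polynomial (Polynomial k)) :
    P ≠ 0 → (evY f P).order ≤
      ((D * (P.natDegree * (dX P + P.natDegree)) + dX P : ℕ) : ℕ∞) := by
  have hC : ∀ q : Polynomial k, q ≠ 0 → (evY f (Polynomial.C q)).order ≤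
      ((D * ((Polynomial.C q).natDegree * (dX (Polynomial.C q) + (Polynomial.C q).natDegree)) +
        dX (Polynomial.C q) : ℕ) : ℕ∞) := by
    intro q hq
    rw [evY, Polynomial.eval₂_C, Polynomial.coeToPowerSeries.ringHom_apply]
    refine (order_coe_le hq).trans (Nat.cast_le.mpr ?_)
    have h := natDegree_le_dX (Polynomial.C q) 0
    rw [Polynomial.coeff_C_zero] at h
    exact h.trans (Nat.le_add_left _ _)
  induction P using WfDvdMonoid.induction_on_irreducible with
  | zero => exact fun h => absurd rfl h
  | unit u hu =>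
    intro h0
    obtain ⟨q, hq, rfl⟩ := Polynomial.isUnit_iff.mp hu
    exact hC q hq.ne_zero
  | mul a i ha hi ih =>
    intro h0
    have hi0 := hi.ne_zero
    have ih := ih ha
    have key : (evY f i).order ≤
        ((D * (i.natDegree * (dX i + i.natDegree)) + dX i : ℕ) : ℕ∞) := by
      rcases Nat.eq_zero_or_pos i.natDegree with h1 | h1
      · rw [Polynomial.eq_C_of_natDegree_eq_zero h1] at hi0 ⊢
        exact hC _ (fun h => hi0 (by rw [h, map_zero]))
      · have h2 := hirr (dX i) i.natDegree i hi h1 le_rfl (natDegree_le_dX i)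
        have h3 : evY f i ≠ 0 := by
          intro h3
          have h4 := h2 (D * (i.natDegree * (dX i + i.natDegree)) + 1) (by rw [h3]; exact dvd_zero _)
          omega
        have h4 := h2 (evY f i).order.toNat X_pow_order_dvd
        have h5 : ((evY f i).order.toNat : ℕ∞) = (evY f i).order :=
          ENat.natCast_toNat (order_eq_top.not.mpr h3)
        rw [← h5]
        exact Nat.cast_le.mpr (h4.trans (Nat.le_add_right _ _))
    rw [evY_mul, order_mul]
    refine (add_le_add key ih).trans ?_
    rw [← Nat.cast_add]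
    refine Nat.cast_le.mpr ?_
    rw [Polynomial.natDegree_mul hi0 ha, dX_mul hi0 ha]
    have h6 : i.natDegree * (dX i + i.natDegree) + a.natDegree * (dX a + a.natDegree) ≤
        (i.natDegree + a.natDegree) * (dX i + dX a + (i.natDegree + a.natDegree)) := by
      nlinarith [Nat.zero_le (i.natDegree * (dX a + a.natDegree)),
        Nat.zero_le (a.natDegree * (dX i + i.natDegree))]
    have h7 := Nat.mul_le_mul_left D h6
    rw [mul_add] at h7
    omega

theorem order_all {k : Type*} [Field k] {f : k⟦X⟧} {D : ℕ}
    (hirr : ∀ (I J : ℕ) (P : Polynomial (Polynomial k)), Irreducible P → 1 ≤ P.natDegree →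
      P.natDegree ≤ J → (∀ j, (P.coeff j).natDegree ≤ I) → ∀ m, X ^ m ∣ evY f P →
        m ≤ D * (J * (I + J)))
    (I J : ℕ) (P : Polynomial (Polynomial k)) (hP : P ≠ 0) (hJ : P.natDegree ≤ J)
    (hI : ∀ j, (P.coeff j).natDegree ≤ I) :
    ∃ m ≤ D * (J * (I + J)) + I, coeff m (evY f P) ≠ 0 := by
  have h := order_main hirr P hP
  have hX := dX_le hI
  have h0 : evY f P ≠ 0 := by
    intro h0
    rw [h0, order_zero] at h
    exact absurd h (not_le.mpr (ENat.natCast_lt_top _))
  have h5 : ((evY f P).order.toNat : ℕ∞) = (evY f P).order :=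
    ENat.natCast_toNat (order_eq_top.not.mpr h0)
  refine ⟨(evY f P).order.toNat, ?_, coeff_order h0⟩
  rw [← h5, Nat.cast_le] at h
  refine h.trans ?_
  gcongr

end Pool.Agent.Lib.MP_3550b5_nt.Vr
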