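import Pool.Agent.Lib.MP_3550b5_nt.TP.Ver.Defs
import Pool.Agent.Lib.MP_3550b5_nt.TP.Log.Ord

/-!
Contact: a common zero of large order of `P(X, f)` and `Q(X, f)`.

Plan. `R = resultant P Q P.natDegree Q.natDegree` is a combination of `P` and `Q`
(`exists_mul_add_mul_eq_C_resultant`), so `X ^ m ∣ R`; it is not zero (Gauss lemma, over the
fraction field, `resultant_eq_zero_iff`), and its degree is at most `J (I + I')`
(`Lg.natDegree_det_le'` on the transpose of the Sylvester matrix).
-/

namespace Pool.Agent.Lib.MP_3550b5_nt.Vr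

open PowerSeries

private lemma evY_eq {k : Type*} [Field k] (f : k⟦X⟧) (P : Polynomial (Polynomial k)) :
    evY f P = Polynomial.eval₂RingHom Polynomial.coeToPowerSeries.ringHom f P := rfl

private lemma res_ne {k : Type*} [Field k] {P Q : Polynomial (Polynomial k)}
    (hP : Irreducible P) (hP1 : 1 ≤ P.natDegree) (hPQ : ¬ P ∣ Q) :
    P.resultant Q P.natDegree Q.natDegree ≠ 0 := by
  have hprim : P.IsPrimitive := hP.isPrimitive (by omega)
  set φ := algebraMap (Polynomial k) (FractionRing (Polynomial k)) with hφ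
  have hinj : Function.Injective φ := IsFractionRing.injective _ _
  have hP' : Irreducible (P.map φ) :=
    hprim.irreducible_iff_irreducible_map_fraction_map.1 hP
  have hPQ' : ¬ P.map φ ∣ Q.map φ := fun h =>
    hPQ (hprim.dvd_of_fraction_map_dvd_fraction_map h)
  have hcop : IsCoprime (P.map φ) (Q.map φ) := (hP'.coprime_iff_not_dvd).2 hPQ'
  have h1 := Polynomial.resultant_ne_zero _ _ hcop
  rw [Polynomial.natDegree_map_eq_of_injective hinj, Polynomial.natDegree_map_eq_of_injective hinj,
    Polynomial.resultant_map_map] at h1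
  intro h
  rw [h, map_zero] at h1
  exact h1 rfl

private lemma res_deg {k : Type*} [Field k] {P Q : Polynomial (Polynomial k)} {I I' : ℕ}
    (hPI : ∀ j, (P.coeff j).natDegree ≤ I) (hQI : ∀ j, (Q.coeff j).natDegree ≤ I') :
    (P.resultant Q P.natDegree Q.natDegree).natDegree ≤
      P.natDegree * I' + Q.natDegree * I := by
  set m := P.natDegree
  set n := Q.natDegree
  have h1 : P.resultant Q m n = (Polynomial.sylvester P Q m n).transpose.det := by
    rw [Matrix.det_transpose]
    rfl
  rw [h1]
  refine le_trans (Lg.natDegree_det_le' _ (fun j => Fin.addCases (fun _ => I') (fun _ => I) j) ?_) ?_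
  · intro i j
    rw [Matrix.transpose_apply]
    induction i using Fin.addCases with
    | left i =>
      rw [Fin.addCases_left]
      simp only [Polynomial.sylvester, Matrix.of_apply, Fin.addCases_left]
      split_ifs
      · exact hQI _
      · simp
    | right i =>
      rw [Fin.addCases_right]
      simp only [Polynomial.sylvester, Matrix.of_apply, Fin.addCases_right]
      split_ifs
      · exact hPI _
      · simp
  · rw [Fin.sum_univ_add]
    simp

theorem contact {k : Type*} [Field k] {f : k⟦X⟧} {P Q : Polynomial (Polynomial k)} {I I' J m : ℕ}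
    (hP : Irreducible P) (hP1 : 1 ≤ P.natDegree) (hPJ : P.natDegree ≤ J) (hQJ : Q.natDegree ≤ J)
    (hPI : ∀ j, (P.coeff j).natDegree ≤ I) (hQI : ∀ j, (Q.coeff j).natDegree ≤ I')
    (hPm : X ^ m ∣ evY f P) (hQm : X ^ m ∣ evY f Q) (hPQ : ¬ P ∣ Q) : m ≤ J * (I + I') := by
  obtain ⟨p, q, -, -, h⟩ := Polynomial.exists_mul_add_mul_eq_C_resultant
    (m := P.natDegree) (n := Q.natDegree) P Q le_rfl le_rfl (Or.inl (by omega))
  have h1 : X ^ m ∣ Lg.ph (P.resultant Q P.natDegree Q.natDegree) := by
    have h2 := congrArg (Polynomial.eval₂RingHom Polynomial.coeToPowerSeries.ringHom f) h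
    rw [map_add, map_mul, map_mul, ← evY_eq, ← evY_eq] at h2
    have h3 : Polynomial.eval₂RingHom Polynomial.coeToPowerSeries.ringHom f
        (Polynomial.C (P.resultant Q P.natDegree Q.natDegree)) =
        Lg.ph (P.resultant Q P.natDegree Q.natDegree) := by
      rw [Polynomial.coe_eval₂RingHom, Polynomial.eval₂_C]
      rfl
    rw [← h3, ← h2]
    exact dvd_add (hPm.mul_right _) (hQm.mul_right _)
  refine (Lg.le_natDegree_of_dvd (res_ne hP hP1 hPQ) h1).trans ((res_deg hPI hQI).trans ?_)
  calc P.natDegree * I' + Q.natDegree * I ≤ J * I' + J * I :=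
        add_le_add (Nat.mul_le_mul_right _ hPJ) (Nat.mul_le_mul_right _ hQJ)
    _ = J * (I + I') := by ring

end Pool.Agent.Lib.MP_3550b5_nt.Vr
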