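import Pool.Agent.Lib.MP_3550b5_nt.TP.Ver.Fro

/-! Rigidity: the equation `N(h) M ^ p = M(h) N ^ p`. -/

namespace Pool.Agent.Lib.MP_3550b5_nt.Vr

open PowerSeries

variable {p : ℕ} [hp : Fact p.Prime]

private theorem order_subst' {h : (ZMod p)⟦X⟧} (h0 : constantCoeff h = 0) (h1 : coeff 1 h ≠ 0)
    (f : (ZMod p)⟦X⟧) : PowerSeries.order (f.subst h : (ZMod p)⟦X⟧) = f.order := by
  have hs : HasSubst h := HasSubst.of_constantCoeff_zero' h0
  have ho : h.order = 1 := by
    have h2 : h.order = ((1 : ℕ) : ℕ∞) := by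
      rw [order_eq_nat]
      refine ⟨h1, fun i hi => ?_⟩
      have : i = 0 := by omega
      rw [this, coeff_zero_eq_constantCoeff_apply, h0]
    rw [h2, Nat.cast_one]
  by_cases hf : f = 0
  · have hz : ((0 : (ZMod p)⟦X⟧).subst h : (ZMod p)⟦X⟧) = 0 := by
      rw [← coe_substAlgHom hs, map_zero]
    rw [hf, hz]
  · have e : f = X ^ f.order.toNat * f.divXPowOrder := X_pow_order_mul_divXPowOrder.symm
    set g := f.divXPowOrder with hg
    have hg0 : constantCoeff g ≠ 0 := by
      rw [hg]
      intro hc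
      exact hf (constantCoeff_divXPowOrder_eq_zero_iff.mp hc)
    have e1 : (f.subst h : (ZMod p)⟦X⟧) = h ^ f.order.toNat * (g.subst h : (ZMod p)⟦X⟧) := by
      conv_lhs => rw [e]
      rw [subst_mul hs, subst_pow hs, subst_X hs]
    have hgs : PowerSeries.order (g.subst h : (ZMod p)⟦X⟧) = 0 := by
      have hc : constantCoeff (g.subst h) = constantCoeff g := by
        have e2 : g = C (constantCoeff g) + (g - C (constantCoeff g)) := by ring
        have e3 : constantCoeff ((g - C (constantCoeff g)).subst h) = 0 :=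
          constantCoeff_subst_eq_zero h0 _ (by simp)
        conv_lhs => rw [e2]
        rw [subst_add hs, map_add, e3, add_zero, subst_C]
        exact constantCoeff_C _
      by_contra hne
      rw [← ne_eq, order_ne_zero_iff_constCoeff_eq_zero, hc] at hne
      exact hg0 hne
    rw [e1, order_mul, order_pow, ho, hgs, add_zero, nsmul_eq_mul, mul_one, coe_toNat_order hf]

/-- Substitution of a series of order `1` preserves the order. -/
theorem order_subst {h : (ZMod p)⟦X⟧} (h0 : constantCoeff h = 0) (h1 : coeff 1 h ≠ 0)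
    (f : (ZMod p)⟦X⟧) : (f.subst h).order = f.order := by
  rw [← order_subst' h0 h1 f]
  exact (order_eq_order (φ := (f.subst h : (ZMod p)⟦X⟧))).symm

/-- The orders agree (`ν + p μ = μ + p ν`); the equation is linear over `ZMod p` in `N`, so it
holds for `N - c M`, where `c` is the quotient of the leading coefficients; so `N = c M`. -/
theorem rigid {h : (ZMod p)⟦X⟧} (h0 : constantCoeff h = 0) (h1 : coeff 1 h ≠ 0)
    {N M : (ZMod p)⟦X⟧} (hM : M ≠ 0) (e : N.subst h * M ^ p = M.subst h * N ^ p) :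
    ∃ c : ZMod p, N = C c * M := by
  have hs : HasSubst h := HasSubst.of_constantCoeff_zero' h0
  have hp2 := hp.out.two_le
  -- equality of orders
  have key : ∀ N' : (ZMod p)⟦X⟧, N' ≠ 0 → N'.subst h * M ^ p = M.subst h * N' ^ p →
      N'.order = M.order := by
    intro N' hN' e'
    have e2 := congrArg order e'
    rw [order_mul, order_mul, order_pow, order_pow, order_subst' h0 h1, order_subst' h0 h1,
      ← coe_toNat_order hM, ← coe_toNat_order hN'] at e2
    rw [← coe_toNat_order hM, ← coe_toNat_order hN']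
    generalize N'.order.toNat = n at *
    generalize M.order.toNat = m at *
    rw [nsmul_eq_mul, nsmul_eq_mul] at e2
    norm_cast at e2
    norm_cast
    obtain ⟨q, hq⟩ : ∃ q, p = q + 2 := ⟨p - 2, by omega⟩
    rw [hq] at e2
    have e3 : (q + 1) * m = (q + 1) * n := by nlinarith
    exact (Nat.eq_of_mul_eq_mul_left (Nat.succ_pos q) e3).symm
  set m := M.order.toNat with hm
  have hMc : coeff m M ≠ 0 := coeff_order hM
  refine ⟨coeff m N / coeff m M, ?_⟩
  set c := coeff m N / coeff m M with hc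
  by_contra hne
  have hN' : N - C c * M ≠ 0 := fun h' => hne (sub_eq_zero.mp h')
  have hcp : (C c : (ZMod p)⟦X⟧) ^ p = C c := by rw [← map_pow, ZMod.pow_card]
  have hsub : (N - C c * M).subst h = N.subst h - C c * M.subst h := by
    rw [subst_sub hs, subst_mul hs, subst_C]
    rfl
  have e' : (N - C c * M).subst h * M ^ p = M.subst h * (N - C c * M) ^ p := by
    have : CharP (ZMod p)⟦X⟧ p :=
      charP_of_injective_ringHom (f := (C : ZMod p →+* (ZMod p)⟦X⟧)) C_injective p
    rw [hsub, sub_pow_char, mul_pow, hcp]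
    linear_combination e
  have ho := key _ hN' e'
  have hz : coeff m (N - C c * M) = 0 := by
    rw [map_sub, coeff_C_mul, hc, div_mul_cancel₀ _ hMc, sub_self]
  have := coeff_order hN'
  rw [ho] at this
  exact this hz

/-- Multiply the relation by `f ^ (p n)`, `n = j - i`; apply `rigid` to `p_j f ^ n` and `p_i`. -/
theorem one_term {f h γ : (ZMod p)⟦X⟧} (h0 : constantCoeff h = 0) (h1 : coeff 1 h ≠ 0)
    (hγ : constantCoeff γ = 1) (FE : f.subst h = γ * f ^ p) (hN : NotRat f)
    {P : Polynomial (Polynomial (ZMod p))} (rel : ∀ i j,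
      Polynomial.aeval h (P.coeff i) * γ ^ i * (P.coeff j : (ZMod p)⟦X⟧) ^ p =
        Polynomial.aeval h (P.coeff j) * γ ^ j * (P.coeff i : (ZMod p)⟦X⟧) ^ p) :
    ∀ i j, i < j → P.coeff i = 0 ∨ P.coeff j = 0 := by
  intro i j hij
  have hs : HasSubst h := HasSubst.of_constantCoeff_zero' h0
  by_contra hcon
  rw [not_or] at hcon
  obtain ⟨hi, hj⟩ := hcon
  have hγ0 : γ ≠ 0 := by
    intro hz
    rw [hz, map_zero] at hγ
    exact zero_ne_one hγ
  obtain ⟨n, hn, rfl⟩ : ∃ n, 1 ≤ n ∧ j = i + n := ⟨j - i, by omega, by omega⟩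
  have r := rel i (i + n)
  have r1 : Polynomial.aeval h (P.coeff i) * (P.coeff (i + n) : (ZMod p)⟦X⟧) ^ p =
      Polynomial.aeval h (P.coeff (i + n)) * γ ^ n * (P.coeff i : (ZMod p)⟦X⟧) ^ p := by
    refine mul_left_cancel₀ (pow_ne_zero i hγ0) ?_
    rw [pow_add] at r
    linear_combination r
  have hMi : (P.coeff i : (ZMod p)⟦X⟧) ≠ 0 := by
    intro hz
    exact hi (Polynomial.coe_eq_zero_iff.mp hz)
  have hsj : (((P.coeff (i + n) : Polynomial (ZMod p)) : (ZMod p)⟦X⟧) * f ^ n).subst h =
      Polynomial.aeval h (P.coeff (i + n)) * (γ * f ^ p) ^ n := by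
    rw [subst_mul hs, subst_pow hs, FE, subst_coe hs]
  obtain ⟨c, hc⟩ := rigid h0 h1 (N := ((P.coeff (i + n) : Polynomial (ZMod p)) : (ZMod p)⟦X⟧) *
    f ^ n) hMi (by
      rw [hsj, subst_coe hs, mul_pow, mul_pow, ← pow_mul, ← pow_mul, mul_comm p n]
      linear_combination (-(f ^ (n * p))) * r1)
  refine hN n hn (P.coeff (i + n)) (Polynomial.C c * P.coeff i) hj ?_
  rw [hc, Polynomial.coe_mul, Polynomial.coe_C]

end Pool.Agent.Lib.MP_3550b5_nt.Vr
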