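import Pool.Agent.Lib.MP_3550b5_nt.TP.Ver.Step
import Pool.Agent.Lib.MP_3550b5_nt.TP.Ver.Rig
import Pool.Agent.Lib.MP_3550b5_nt.TP.Ver.Res
import Pool.Agent.Lib.MP_3550b5_nt.TP.Ver.Gen

/-! The zero estimate in characteristic `p`. -/

namespace Pool.Agent.Lib.MP_3550b5_nt.Vr

open PowerSeries

variable {p : ℕ} [hp : Fact p.Prime]

theorem order_irr {f h γ : (ZMod p)⟦X⟧} (hf : constantCoeff f = 1) (h0 : constantCoeff h = 0)
    (h1 : coeff 1 h ≠ 0) (hh : RatS h) (hγ : RatS γ) (hγ1 : constantCoeff γ = 1)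
    (FE : f.subst h = γ * f ^ p) (hN : NotRat f) :
    ∃ D : ℕ, ∀ (I J : ℕ) (P : Polynomial (Polynomial (ZMod p))), Irreducible P →
      1 ≤ P.natDegree → P.natDegree ≤ J → (∀ j, (P.coeff j).natDegree ≤ I) → ∀ m,
        X ^ m ∣ evY f P → m ≤ D * (J * (I + J)) := by
  obtain ⟨D, hD⟩ := exists_sections h0 hh hγ FE
  refine ⟨p * (D + 2), fun I J P hP hP1 hPJ hPI m hm => ?_⟩
  set J₀ := P.natDegree with hJ₀
  obtain ⟨Q, hQ1, hQ2, hQ3⟩ := hD I J₀ P le_rfl hPI
  set m' := m / p with hm'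
  have hp0 := hp.out.pos
  have hmm : m < p * (m' + 1) := Nat.lt_mul_div_succ m hp0
  by_cases hall : ∀ t < p, ∃ s : Polynomial (ZMod p), Q t = Polynomial.C s * P
  · -- all sections are multiples of `P`
    have h2 := one_term h0 h1 hγ1 FE hN (hQ3 hall)
    have hP0 : P ≠ 0 := hP.ne_zero
    have hlead : P.coeff J₀ ≠ 0 := by
      rw [hJ₀, Polynomial.coeff_natDegree]
      exact Polynomial.leadingCoeff_ne_zero.mpr hP0
    have hlow : ∀ i < J₀, P.coeff i = 0 := fun i hi => (h2 i J₀ hi).resolve_right hlead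
    have hPe : P = Polynomial.C (P.coeff J₀) * Polynomial.X ^ J₀ := by
      ext1 i
      rw [Polynomial.coeff_C_mul, Polynomial.coeff_X_pow]
      rcases lt_trichotomy i J₀ with h3 | h3 | h3
      · rw [hlow i h3, if_neg (by omega), mul_zero]
      · rw [h3, if_pos rfl, mul_one]
      · rw [Polynomial.coeff_eq_zero_of_natDegree_lt h3, if_neg (by omega), mul_zero]
    have hXP : (Polynomial.X : Polynomial (Polynomial (ZMod p))) ∣ P := by
      rw [hPe]
      exact Dvd.dvd.mul_left (dvd_pow_self _ (by omega)) _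
    obtain ⟨R, hR⟩ := hXP
    have hRu : IsUnit R := (hP.isUnit_or_isUnit hR).resolve_left Polynomial.not_isUnit_X
    obtain ⟨r, hr, hRr⟩ := Polynomial.isUnit_iff.mp hRu
    obtain ⟨c, hc, hrc⟩ := Polynomial.isUnit_iff.mp hr
    have hev : evY f P = f * C c := by
      rw [hR, ← hRr, ← hrc, evY, Polynomial.eval₂_mul, Polynomial.eval₂_X, Polynomial.eval₂_C]
      congr 1
      simp
    have hm0 : m = 0 := by
      by_contra hm0
      have h3 : X ∣ evY f P := (dvd_pow_self _ hm0).trans hm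
      rw [X_dvd_iff, hev, map_mul, hf, one_mul, constantCoeff_C] at h3
      exact hc.ne_zero h3
    rw [hm0]
    exact Nat.zero_le _
  · push Not at hall
    obtain ⟨t, ht, hts⟩ := hall
    have hm2 : X ^ (p * m') ∣ evY f P := by
      refine (pow_dvd_pow _ ?_).trans hm
      exact Nat.mul_div_le m p
    have hQm := hQ2 m' hm2 t ht
    have hPm : X ^ m' ∣ evY f P := (pow_dvd_pow _ (Nat.div_le_self m p)).trans hm
    have hPQ : ¬ P ∣ Q t := by
      rintro ⟨R, hR⟩
      rcases eq_or_ne R 0 with h3 | h3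
      · apply hts 0
        rw [hR, h3]
        simp
      · have hdeg : (Q t).natDegree = P.natDegree + R.natDegree := by
          rw [hR]
          exact Polynomial.natDegree_mul hP.ne_zero h3
        have h4 := (hQ1 t).1
        have h5 : R.natDegree = 0 := by omega
        apply hts (R.coeff 0)
        rw [hR, mul_comm]
        congr 1
        exact Polynomial.eq_C_of_natDegree_eq_zero h5
    have hc := contact hP hP1 le_rfl (hQ1 t).1 hPI (hQ1 t).2 hPm hQm hPQ
    rw [← hJ₀] at hc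
    have h6 : m' ≤ J * (I + D * (I + J)) := by
      refine hc.trans ?_
      gcongr
    have h7 : 1 ≤ J * (I + J) := Nat.mul_pos (by omega) (by omega)
    have h8 : m' + 1 ≤ (D + 2) * (J * (I + J)) := by
      have h9 : J * I ≤ J * (I + J) := Nat.mul_le_mul_left _ (Nat.le_add_right _ _)
      calc m' + 1 ≤ J * (I + D * (I + J)) + J * (I + J) := add_le_add h6 h7
        _ = J * I + D * (J * (I + J)) + J * (I + J) := by ring
        _ ≤ J * (I + J) + D * (J * (I + J)) + J * (I + J) := by gcongr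
        _ = (D + 2) * (J * (I + J)) := by ring
    calc m ≤ p * (m' + 1) := hmm.le
      _ ≤ p * ((D + 2) * (J * (I + J))) := Nat.mul_le_mul_left _ h8
      _ = p * (D + 2) * (J * (I + J)) := by ring

theorem order_bound_p {f h γ : (ZMod p)⟦X⟧} (hf : constantCoeff f = 1)
    (h0 : constantCoeff h = 0) (h1 : coeff 1 h ≠ 0) (hh : RatS h) (hγ : RatS γ)
    (hγ1 : constantCoeff γ = 1) (FE : f.subst h = γ * f ^ p) (hN : NotRat f) :
    ∃ D : ℕ, ∀ (I J : ℕ) (P : Polynomial (Polynomial (ZMod p))), P ≠ 0 → P.natDegree ≤ J →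
      (∀ j, (P.coeff j).natDegree ≤ I) → ∃ m ≤ D * (J * (I + J)) + I, coeff m (evY f P) ≠ 0 := by
  obtain ⟨D, hD⟩ := order_irr hf h0 h1 hh hγ hγ1 FE hN
  exact ⟨D, fun I J P hP hJ hI => order_all hD I J P hP hJ hI⟩

end Pool.Agent.Lib.MP_3550b5_nt.Vr
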