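import Pool.Agent.Lib.MP_3550b5_nt.TP.Ver.FE
import Pool.Agent.Lib.MP_3550b5_nt.TP.Ver.ZE
import Pool.Agent.Lib.MP_3550b5_nt.TP.Log.Bound

/-! The bound for separated near zeros, quadratic in the degree. -/

namespace Pool.Agent.Lib.MP_3550b5_nt.Vr

open PowerSeries

variable {p : ℕ} [hp : Fact p.Prime]

lemma toZMod_ne {x : ℤ_[p]} : PadicInt.toZMod x ≠ 0 ↔ ‖x‖ = 1 := by
  have h1 : PadicInt.toZMod x = 0 ↔ (p : ℤ_[p]) ∣ x := by
    rw [← RingHom.mem_ker, PadicInt.ker_toZMod, PadicInt.maximalIdeal_eq_span_p,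
      Ideal.mem_span_singleton]
  rw [Ne, h1, ← PadicInt.norm_lt_one_iff_dvd, not_lt]
  exact ⟨fun h => le_antisymm (PadicInt.norm_le_one x) h, fun h => h.ge⟩

/-- A primitive combination has a unit coefficient of index at most quadratic in the degree. -/
theorem exists_unit_coeff (hp5 : 5 ≤ p) {a b : ℤ} (hord : GoodOrdinary p a b) {c : ℤ_[p]}
    {U : ℤ_[p]⟦X⟧} (hU : IsSigmaU (a : ℤ_[p]) (b : ℤ_[p]) c U) :
    ∃ B₀ : ℕ, ∀ d : ℕ, 1 ≤ d → ∀ γ : Mon d → ℤ_[p], (∃ i, ‖γ i‖ = 1) →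
      ∃ m ≤ B₀ * d ^ 2, ‖coeff m (comb (monF U (X * U) d) γ)‖ = 1 := by
  classical
  obtain ⟨h, g, h0, h1, hh, hg, hg1, FE⟩ := exists_FE hp5 hord hU
  have hN := notRat_map hp5 hord hU
  set Ub : (ZMod p)⟦X⟧ := PowerSeries.map PadicInt.toZMod U with hUb
  have hf : constantCoeff Ub = 1 := by
    rw [hUb, ← coeff_zero_eq_constantCoeff_apply, coeff_map, coeff_zero_eq_constantCoeff_apply,
      hU.1, map_one]
  obtain ⟨D, hD⟩ := order_bound_p hf h0 h1 hh hg hg1 FE hN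
  refine ⟨6 * D + 1, fun d hd γ hγ => ?_⟩
  obtain ⟨i, hi⟩ := hγ
  set e : Mon d → ZMod p := fun μ => PadicInt.toZMod (γ μ) with he
  have hP : Lg.polyK d e ≠ 0 := by
    intro h2
    have h3 := Lg.polyK_coeff d e i
    rw [h2, Polynomial.coeff_zero, Polynomial.coeff_zero] at h3
    exact toZMod_ne.mpr hi h3.symm
  obtain ⟨m, hm, hne⟩ := hD d (2 * d) _ hP (Lg.polyK_natDegree d e)
    (Lg.polyK_coeff_natDegree d e)
  refine ⟨m, ?_, ?_⟩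
  · have h2 : d ≤ d ^ 2 := Nat.le_self_pow (by norm_num) d
    calc m ≤ D * (2 * d * (d + 2 * d)) + d := hm
      _ = 6 * D * d ^ 2 + d := by ring
      _ ≤ 6 * D * d ^ 2 + d ^ 2 := by gcongr
      _ = (6 * D + 1) * d ^ 2 := by ring
  · rw [← toZMod_ne]
    rw [evY, Lg.polyK_eval] at hne
    convert hne using 1
    rw [coeff_comb, map_sum]
    refine Finset.sum_congr rfl fun μ _ => ?_
    rw [map_mul, ← coeff_map]
    congr 2
    rw [monF, map_mul, map_pow, map_pow, map_mul, PowerSeries.map_X]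

/-- Separated near zeros, quadratic in the degree. -/
theorem zeros_near2 (hp5 : 5 ≤ p) {a b : ℤ} (hord : GoodOrdinary p a b) {c : ℤ_[p]}
    {U : ℤ_[p]⟦X⟧} (hU : IsSigmaU (a : ℤ_[p]) (b : ℤ_[p]) c U) :
    ∃ C₀ : ℕ, ∀ d : ℕ, 1 ≤ d → ∀ (γ : Mon d → ℤ_[p]) (κ ρ l : ℕ),
      (∃ i, ¬ (p : ℤ_[p]) ^ (κ + 1) ∣ γ i) →
      κ + ρ * (C₀ * d ^ 2) < l → ∀ T : Finset ℤ_[p],
      (∀ z ∈ T, ‖z‖ < 1 ∧ (p : ℤ_[p]) ^ l ∣ ev (comb (monF U (X * U) d) γ) z) →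
      (∀ z ∈ T, ∀ z' ∈ T, z ≠ z' → z - z' ∣ (p : ℤ_[p]) ^ ρ) → T.card ≤ C₀ * d ^ 2 := by
  obtain ⟨B₀, hB⟩ := exists_unit_coeff hp5 hord hU
  refine ⟨B₀, fun d hd γ κ ρ l hγ hl T hT hsep => ?_⟩
  obtain ⟨k, γ1, hk, hprim, hγe⟩ := exists_primitive hγ
  obtain ⟨m, hm, hunit⟩ := hB d hd γ1 hprim
  have h1 : ρ * m ≤ ρ * (B₀ * d ^ 2) := Nat.mul_le_mul_left _ hm
  refine (near_zeros_le ρ m _ (l - k) hunit (by omega) T (fun z hz => ?_) hsep).trans hm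
  obtain ⟨hz1, hz0⟩ := hT z hz
  refine ⟨hz1, ?_⟩
  have e1 : comb (monF U (X * U) d) γ =
      C ((p : ℤ_[p]) ^ k) * comb (monF U (X * U) d) γ1 := by
    rw [comb, comb, Finset.mul_sum]
    refine Finset.sum_congr rfl fun i _ => ?_
    rw [hγe i, map_mul, mul_assoc]
  rw [e1, ev_mul _ _ hz1, ev_C] at hz0
  exact pow_dvd_of_mul dvd_rfl hz0 (by omega)

end Pool.Agent.Lib.MP_3550b5_nt.Vr
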