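import Pool.Agent.Lib.MP_3550b5_nt.TP.Ver.Alg

/-! VERSCHIEBUNG ZERO ESTIMATE (leader helper67): definitions. -/

namespace Pool.Agent.Lib.MP_3550b5_nt.Vr

open PowerSeries

variable {R : Type*} [CommRing R]

/-- Quotients of polynomials, with a denominator of constant coefficient `1`. -/
def RatS (f : R⟦X⟧) : Prop :=
  ∃ A B : Polynomial R, B.coeff 0 = 1 ∧ (B : R⟦X⟧) * f = (A : R⟦X⟧)

/-- The sequences `M n = 1 / x(n P)` and `T n`, with `T n ^ 2 = G(X) G(M n)`, as power series in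
`X = 1 / x(P)`. -/
structure IsMT (a b : R) (M T : ℕ → R⟦X⟧) : Prop where
  M0 : M 0 = 0
  T0 : T 0 = 0
  hM : ∀ n, QQ (C a) (C b) X (M n) * M (n + 1) = SS (C a) (C b) X (M n) (T n)
  hT : ∀ n, QQ (C a) (C b) X (M n) ^ 2 * T (n + 1) = WW (C a) (C b) X (M n) (T n)

/-- The section of residue `t`: the coefficients of index `p n + t`. -/
noncomputable def sec (p t : ℕ) (f : R⟦X⟧) : R⟦X⟧ :=
  PowerSeries.mk fun n => coeff (p * n + t) f

/-- The value of a bivariate polynomial `P(X, Y)` at `Y = f`. -/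
noncomputable def evY (f : R⟦X⟧) (P : Polynomial (Polynomial R)) : R⟦X⟧ :=
  P.eval₂ Polynomial.coeToPowerSeries.ringHom f

/-- No positive power of `f` is a quotient of polynomials. -/
def NotRat (f : R⟦X⟧) : Prop :=
  ∀ n : ℕ, 1 ≤ n → ∀ A B : Polynomial R, A ≠ 0 → (A : R⟦X⟧) * f ^ n ≠ (B : R⟦X⟧)

end Pool.Agent.Lib.MP_3550b5_nt.Vr
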