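import Pool.Agent.Lib.MP_3550b5_nt.TP.Ver.Rat

/-! Power series over `ZMod p`: `p`-th powers and sections. -/

namespace Pool.Agent.Lib.MP_3550b5_nt.Vr

open PowerSeries

variable {p : ℕ} [hp : Fact p.Prime]

theorem pow_eq_expand (f : (ZMod p)⟦X⟧) : f ^ p = PowerSeries.expand p hp.out.ne_zero f := by
  have h := MvPowerSeries.map_frobenius_expand (R := ZMod p) (σ := Unit) p hp.out.ne_zero
    (f := f)
  rw [ZMod.frobenius_zmod] at h
  rw [← h]
  exact congrFun (congrArg _ MvPowerSeries.map_id) _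

theorem coeff_pow_p (f : (ZMod p)⟦X⟧) (n : ℕ) :
    coeff n (f ^ p) = if p ∣ n then coeff (n / p) f else 0 := by
  rw [pow_eq_expand, coeff_expand]

theorem pow_inj {f g : (ZMod p)⟦X⟧} (h : f ^ p = g ^ p) : f = g := by
  ext n
  have h1 := congrArg (coeff (p * n)) h
  rw [pow_eq_expand, pow_eq_expand, coeff_expand_mul, coeff_expand_mul] at h1
  exact h1

theorem derivative_pow_p (f : (ZMod p)⟦X⟧) : derivative (ZMod p) (f ^ p) = 0 := by
  rw [derivative_pow]
  have h : ((p : ℕ) : (ZMod p)⟦X⟧) = 0 := by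
    have h1 : ((p : ℕ) : (ZMod p)⟦X⟧) = C ((p : ℕ) : ZMod p) := (map_natCast C p).symm
    rw [h1, ZMod.natCast_self, map_zero]
  rw [h, zero_mul, zero_mul]

theorem exists_pow_of_derivative {f : (ZMod p)⟦X⟧} (h : derivative (ZMod p) f = 0) :
    ∃ g : (ZMod p)⟦X⟧, f = g ^ p := by
  refine ⟨sec p 0 f, ?_⟩
  ext n
  rw [coeff_pow_p]
  split_ifs with hn
  · obtain ⟨k, rfl⟩ := hn
    rw [Nat.mul_div_cancel_left _ hp.out.pos, sec, coeff_mk, add_zero]
  · obtain ⟨m, rfl⟩ : ∃ m, n = m + 1 := by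
      refine Nat.exists_eq_succ_of_ne_zero ?_
      rintro rfl
      exact hn (dvd_zero p)
    have h1 := congrArg (coeff m) h
    rw [coeff_derivative, map_zero] at h1
    rcases mul_eq_zero.1 h1 with h2 | h2
    · exact h2
    · exfalso
      apply hn
      rw [← ZMod.natCast_eq_zero_iff]
      push_cast
      exact h2

theorem sec_add (t : ℕ) (f g : (ZMod p)⟦X⟧) : sec p t (f + g) = sec p t f + sec p t g := by
  ext n
  simp [sec]

theorem sec_sum {ι : Type*} (s : Finset ι) (t : ℕ) (f : ι → (ZMod p)⟦X⟧) :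
    sec p t (∑ i ∈ s, f i) = ∑ i ∈ s, sec p t (f i) := by
  ext n
  simp [sec, map_sum]

theorem sec_mul_pow {t : ℕ} (ht : t < p) (f g : (ZMod p)⟦X⟧) :
    sec p t (f * g ^ p) = sec p t f * g := by
  classical
  ext n
  rw [sec, coeff_mk, coeff_mul, coeff_mul]
  have hp0 := hp.out.pos
  symm
  have h1 : ∀ x ∈ Finset.HasAntidiagonal.antidiagonal n, coeff x.1 (sec p t f) * coeff x.2 g =
      coeff (p * x.1 + t) f * coeff (p * x.2) (g ^ p) := by
    intro x _
    rw [sec, coeff_mk, coeff_pow_p, if_pos (dvd_mul_right p x.2), Nat.mul_div_cancel_left _ hp0]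
  rw [Finset.sum_congr rfl h1]
  have h2 : ∑ x ∈ Finset.HasAntidiagonal.antidiagonal n, coeff (p * x.1 + t) f * coeff (p * x.2) (g ^ p) =
      ∑ y ∈ (Finset.HasAntidiagonal.antidiagonal n).image (fun x => (p * x.1 + t, p * x.2)),
        coeff y.1 f * coeff y.2 (g ^ p) := by
    rw [Finset.sum_image]
    rintro ⟨a, b⟩ _ ⟨a', b'⟩ _ hab
    simp only [Prod.mk.injEq, add_left_inj] at hab
    exact Prod.ext (Nat.eq_of_mul_eq_mul_left hp0 hab.1) (Nat.eq_of_mul_eq_mul_left hp0 hab.2)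
  rw [h2]
  apply Finset.sum_subset
  · intro y hy
    obtain ⟨x, hx, rfl⟩ := Finset.mem_image.1 hy
    rw [Finset.HasAntidiagonal.mem_antidiagonal] at hx ⊢
    simp only
    rw [← hx]
    ring
  · rintro ⟨i, j⟩ hy hy'
    rw [Finset.HasAntidiagonal.mem_antidiagonal] at hy
    simp only at hy ⊢
    rw [coeff_pow_p, if_neg, mul_zero]
    rintro ⟨m, rfl⟩
    apply hy'
    have hm : m ≤ n := by
      by_contra hlt
      push Not at hlt
      have : p * (n + 1) ≤ p * m := Nat.mul_le_mul_left p hlt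
      rw [mul_add, mul_one] at this
      omega
    refine Finset.mem_image.2 ⟨(n - m, m), ?_, ?_⟩
    · rw [Finset.HasAntidiagonal.mem_antidiagonal]
      simp only
      omega
    · simp only [Prod.mk.injEq, and_true]
      obtain ⟨k, rfl⟩ := Nat.exists_eq_add_of_le hm
      rw [Nat.add_sub_cancel_left]
      rw [mul_add] at hy
      omega

theorem sum_sec (f : (ZMod p)⟦X⟧) : f = ∑ t ∈ Finset.range p, X ^ t * sec p t f ^ p := by
  classical
  have hp0 := hp.out.pos
  ext n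
  rw [map_sum, Finset.sum_eq_single (n % p)]
  · rw [coeff_X_pow_mul', if_pos (Nat.mod_le n p), coeff_pow_p]
    have h1 : n - n % p = p * (n / p) := by
      have := Nat.div_add_mod n p
      omega
    rw [h1, if_pos (dvd_mul_right _ _), Nat.mul_div_cancel_left _ hp0, sec, coeff_mk,
      Nat.div_add_mod]
  · intro t ht htn
    rw [Finset.mem_range] at ht
    rw [coeff_X_pow_mul']
    split_ifs with h
    · rw [coeff_pow_p, if_neg]
      rintro ⟨k, hk⟩
      apply htn
      have h2 : n = t + p * k := by omega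
      rw [h2, Nat.add_mul_mod_self_left, Nat.mod_eq_of_lt ht]
    · rfl
  · intro h
    exact absurd (Finset.mem_range.2 (Nat.mod_lt n hp0)) h

theorem X_pow_dvd_sec {m t : ℕ} (ht : t < p) {f : (ZMod p)⟦X⟧} (h : X ^ (p * m) ∣ f) :
    X ^ m ∣ sec p t f := by
  rw [X_pow_dvd_iff] at h ⊢
  intro k hk
  rw [sec, coeff_mk]
  refine h _ ?_
  have : p * (k + 1) ≤ p * m := Nat.mul_le_mul_left p hk
  rw [mul_add, mul_one] at this
  omega

theorem exists_poly_sec (t : ℕ) (A : Polynomial (ZMod p)) : ∃ B : Polynomial (ZMod p),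
    (B : (ZMod p)⟦X⟧) = sec p t (A : (ZMod p)⟦X⟧) ∧ B.natDegree ≤ A.natDegree := by
  classical
  have hp0 := hp.out.pos
  have hc : ∀ n, (∑ i ∈ Finset.range (A.natDegree + 1),
      Polynomial.monomial i (A.coeff (p * i + t))).coeff n = A.coeff (p * n + t) := by
    intro n
    rw [Polynomial.finsetSum_coeff]
    simp only [Polynomial.coeff_monomial]
    rw [Finset.sum_ite_eq' (Finset.range (A.natDegree + 1)) n]
    split_ifs with h
    · rfl
    · symm
      apply Polynomial.coeff_eq_zero_of_natDegree_lt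
      rw [Finset.mem_range] at h
      push Not at h
      have h1 : n ≤ p * n := Nat.le_mul_of_pos_left n hp0
      omega
  refine ⟨∑ i ∈ Finset.range (A.natDegree + 1), Polynomial.monomial i (A.coeff (p * i + t)),
    ?_, ?_⟩
  · ext n
    rw [Polynomial.coeff_coe, hc, sec, coeff_mk, Polynomial.coeff_coe]
  · refine Polynomial.natDegree_le_iff_coeff_eq_zero.2 fun n hn => ?_
    rw [hc]
    apply Polynomial.coeff_eq_zero_of_natDegree_lt
    have h1 : n ≤ p * n := Nat.le_mul_of_pos_left n hp0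
    omega

private theorem sec_zero_pow (g : (ZMod p)⟦X⟧) : sec p 0 (g ^ p) = g := by
  ext n
  rw [sec, coeff_mk, add_zero, pow_eq_expand, coeff_expand_mul]

/-- A `p`-th power of a series which is a polynomial is the `p`-th power of a polynomial. -/
private theorem poly_of_pow {g : (ZMod p)⟦X⟧} {P : Polynomial (ZMod p)}
    (h : g ^ p = (P : (ZMod p)⟦X⟧)) : ∃ Q : Polynomial (ZMod p), (Q : (ZMod p)⟦X⟧) = g := by
  obtain ⟨Q, hQ, -⟩ := exists_poly_sec 0 P
  refine ⟨Q, ?_⟩
  rw [hQ, ← h, sec_zero_pow]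

/-- A rational `p`-th power is the `p`-th power of a rational series: `(B f) ^ p = A B ^ (p - 1)` is
a polynomial with derivative `0`. -/
theorem ratS_of_pow {f : (ZMod p)⟦X⟧} (h : RatS (f ^ p)) : RatS f := by
  obtain ⟨A, B, hB, hAB⟩ := h
  have h1 : ((B : (ZMod p)⟦X⟧) * f) ^ p = ((B ^ (p - 1) * A : Polynomial (ZMod p)) :
      (ZMod p)⟦X⟧) := by
    rw [Polynomial.coe_mul, Polynomial.coe_pow, ← hAB, mul_pow, ← mul_assoc, ← pow_succ,
      Nat.sub_add_cancel hp.out.one_le]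
  obtain ⟨Q, hQ⟩ := poly_of_pow h1
  exact ⟨Q, B, hB, hQ.symm⟩

theorem rat_of_pow {f : (ZMod p)⟦X⟧} {A B : Polynomial (ZMod p)} (hA : A ≠ 0)
    (h : (A : (ZMod p)⟦X⟧) * f ^ p = B) : ∃ A' B' : Polynomial (ZMod p), A' ≠ 0 ∧
      (A' : (ZMod p)⟦X⟧) * f = B' := by
  have h1 : ((A : (ZMod p)⟦X⟧) * f) ^ p = ((A ^ (p - 1) * B : Polynomial (ZMod p)) :
      (ZMod p)⟦X⟧) := by
    rw [Polynomial.coe_mul, Polynomial.coe_pow, ← h, mul_pow, ← mul_assoc, ← pow_succ,
      Nat.sub_add_cancel hp.out.one_le]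
  obtain ⟨Q, hQ⟩ := poly_of_pow h1
  exact ⟨A, Q, hA, hQ.symm⟩

theorem subst_pow_p {U h : (ZMod p)⟦X⟧} (h0 : constantCoeff h = 0) :
    U.subst (h ^ p) = U.subst h ^ p := by
  have hs : HasSubst h := HasSubst.of_constantCoeff_zero' h0
  have h1 : (U ^ p).subst h = U.subst h ^ p := by
    rw [← coe_substAlgHom hs, map_pow]
  rw [← h1, pow_eq_expand U, expand_apply, subst_comp_subst_apply (HasSubst.X_pow hp.out.ne_zero) hs]
  congr 1
  rw [← coe_substAlgHom hs, map_pow, substAlgHom_X]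

end Pool.Agent.Lib.MP_3550b5_nt.Vr
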