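import Pool.Agent.Lib.MP_3550b5_nt.TP.Ver.SeqD
import Pool.Agent.Lib.MP_3550b5_nt.TP.Ver.Fro
import Pool.Agent.Lib.MP_3550b5_nt.Hasse

/-!
The multiplication by `p` modulo `p` is `h ^ p = h(X ^ p)` with `h` etale, for nonzero Hasse
invariant.
-/

namespace Pool.Agent.Lib.MP_3550b5_nt.Vr

open PowerSeries

variable {p : ℕ} [hp : Fact p.Prime]

/-- a power series which is `0` modulo `p` is divisible by `p` -/
private theorem etb_div {F : ℤ_[p]⟦X⟧} (h : PowerSeries.map PadicInt.toZMod F = 0) :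
    ∃ F₁ : ℤ_[p]⟦X⟧, F = C (p : ℤ_[p]) * F₁ := by
  have h1 : ∀ n, ∃ c : ℤ_[p], coeff n F = p * c := by
    intro n
    have h2 := congrArg (coeff n) h
    rw [coeff_map, map_zero] at h2
    have h3 : coeff n F ∈ RingHom.ker (PadicInt.toZMod (p := p)) := h2
    rw [PadicInt.ker_toZMod, PadicInt.maximalIdeal_eq_span_p, Ideal.mem_span_singleton] at h3
    exact h3
  choose c hc using h1
  refine ⟨PowerSeries.mk c, ?_⟩
  ext n
  rw [coeff_C_mul, coeff_mk, hc]

private theorem etb_map_p : PowerSeries.map PadicInt.toZMod (C (p : ℤ_[p])) = 0 := by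
  rw [map_C, map_natCast, ZMod.natCast_self, map_zero]

private theorem etb_map_gg (a b : ℤ_[p]) (f : ℤ_[p]⟦X⟧) :
    PowerSeries.map PadicInt.toZMod (gg (C a) (C b) f) =
      gg (C (PadicInt.toZMod a)) (C (PadicInt.toZMod b)) (PowerSeries.map PadicInt.toZMod f) := by
  simp only [gg, map_add, map_mul, map_pow, map_C]

private theorem etb_map_gd (a b : ℤ_[p]) (f : ℤ_[p]⟦X⟧) :
    PowerSeries.map PadicInt.toZMod (gd (C a) (C b) f) =
      gd (C (PadicInt.toZMod a)) (C (PadicInt.toZMod b)) (PowerSeries.map PadicInt.toZMod f) := by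
  simp only [gd, map_add, map_mul, map_pow, map_C, map_one, map_ofNat]

private theorem etb_map_der (f : ℤ_[p]⟦X⟧) :
    PowerSeries.map PadicInt.toZMod (derivative ℤ_[p] f) =
      derivative (ZMod p) (PowerSeries.map PadicInt.toZMod f) := by
  ext n
  rw [coeff_map, coeff_derivative, coeff_derivative, coeff_map, map_mul, map_add, map_natCast,
    map_one]

private theorem etb_G_ne (a b : ZMod p) : gg (C a) (C b) (X : (ZMod p)⟦X⟧) ≠ 0 := by
  intro h
  have h1 := congrArg (coeff 1) h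
  rw [gg, show (X : (ZMod p)⟦X⟧) + C a * X ^ 3 + C b * X ^ 4 =
    (1 + C a * X ^ 2 + C b * X ^ 3) * X by ring,
    show (1 : ℕ) = 0 + 1 from rfl, coeff_succ_mul_X] at h1
  simp at h1

/-- the coefficient of index `2 q` of `G ^ q` is the Hasse invariant -/
private theorem etb_coeff (a b : ZMod p) (q : ℕ) :
    coeff (2 * q) (gg (C a) (C b) (X : (ZMod p)⟦X⟧) ^ q) = (hasseRev a b q).coeff q := by
  have e : gg (C a) (C b) (X : (ZMod p)⟦X⟧) ^ q =
      ((hasseRev a b q : Polynomial (ZMod p)) : (ZMod p)⟦X⟧) * X ^ q := by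
    rw [hasseRev, Polynomial.coe_pow, ← mul_pow]
    congr 1
    rw [Polynomial.coe_add, Polynomial.coe_add, Polynomial.coe_mul, Polynomial.coe_mul,
      Polynomial.coe_pow, Polynomial.coe_pow, Polynomial.coe_C, Polynomial.coe_C,
      Polynomial.coe_X, Polynomial.coe_one, gg]
    ring
  rw [e, two_mul, coeff_mul_X_pow, Polynomial.coeff_coe]

/-- If `M_p = 0` modulo `p`, then `T_p = 0` modulo `p`, `M_p = p ^ 2 N`, `T_p = p T₁` with
`G N' = T₁`, and modulo `p`: `G N' ^ 2 = N`, `N ≠ 0` (coefficient `1`), so `2 G N'' + G' N' = 1`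
and `(2 N' G ^ (q + 1))' = G ^ q`; so the coefficient `p - 1` of `G ^ q` vanishes. -/
theorem map_M_ne {q : ℕ} (hpq : p = 2 * q + 1) (hq : 1 ≤ q) {a b : ℤ_[p]}
    {M T : ℕ → ℤ_[p]⟦X⟧} (hMT : IsMT a b M T)
    (hH : (hasseRev (PadicInt.toZMod a) (PadicInt.toZMod b) q).coeff q ≠ 0) :
    PowerSeries.map PadicInt.toZMod (M p) ≠ 0 := by
  intro h0
  have _ := hq
  have hp0 : (C (p : ℤ_[p]) : ℤ_[p]⟦X⟧) ≠ 0 := by
    intro h
    have h1 := congrArg constantCoeff h
    rw [constantCoeff_C, map_zero] at h1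
    exact hp.out.ne_zero (Nat.cast_eq_zero.1 h1)
  have hpC : ((p : ℕ) : ℤ_[p]⟦X⟧) = C (p : ℤ_[p]) := (map_natCast C p).symm
  -- `M = p M₁`
  obtain ⟨M₁, hM₁⟩ := etb_div h0
  -- `T = p T₁`
  have hsq := hMT.sq p
  have hT0 : PowerSeries.map PadicInt.toZMod (T p) = 0 := by
    have h1 := congrArg (PowerSeries.map (PadicInt.toZMod (p := p))) hsq
    rw [map_pow, map_mul, etb_map_gg, etb_map_gg, h0] at h1
    have h2 : gg (C (PadicInt.toZMod a)) (C (PadicInt.toZMod b)) (0 : (ZMod p)⟦X⟧) = 0 := by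
      simp [gg]
    rw [h2, mul_zero] at h1
    exact pow_eq_zero_iff two_ne_zero |>.1 h1
  obtain ⟨T₁, hT₁⟩ := etb_div hT0
  -- `M₁ = p N`
  have h3 : C (p : ℤ_[p]) * T₁ ^ 2 = gg (C a) (C b) X * (M₁ * (1 + C a * M p ^ 2 +
      C b * M p ^ 3)) := by
    apply mul_left_cancel₀ hp0
    have h4 : gg (C a) (C b) (M p) = M p * (1 + C a * M p ^ 2 + C b * M p ^ 3) := by
      rw [gg]
      ring
    rw [h4] at hsq
    rw [hT₁] at hsq
    linear_combination hsq + gg (C a) (C b) X * (1 + C a * M p ^ 2 + C b * M p ^ 3) * hM₁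
  have hM0 : PowerSeries.map PadicInt.toZMod M₁ = 0 := by
    have h1 := congrArg (PowerSeries.map (PadicInt.toZMod (p := p))) h3
    simp only [map_mul, map_add, map_pow, map_one, h0, etb_map_p, etb_map_gg, map_X] at h1
    rw [zero_mul, zero_pow two_ne_zero, zero_pow three_ne_zero, mul_zero, mul_zero, add_zero,
      add_zero, mul_one] at h1
    exact (mul_eq_zero.1 h1.symm).resolve_left (etb_G_ne _ _)
  obtain ⟨N, hN⟩ := etb_div hM0
  have hMN : M p = C ((p : ℤ_[p]) ^ 2) * N := by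
    rw [hM₁, hN, map_pow]
    ring
  -- the differential equation of `N`
  have hp20 : (C ((p : ℤ_[p]) ^ 2) : ℤ_[p]⟦X⟧) ≠ 0 := by
    rw [map_pow]
    exact pow_ne_zero 2 hp0
  have hd := hMT.ddM p
  have hder : ∀ f : ℤ_[p]⟦X⟧, derivative ℤ_[p] (C ((p : ℤ_[p]) ^ 2) * f) =
      C ((p : ℤ_[p]) ^ 2) * derivative ℤ_[p] f := by
    intro f
    rw [Derivation.leibniz]
    simp
  have hdN : 2 * gg (C a) (C b) X * derivative ℤ_[p] (derivative ℤ_[p] N) +
      gd (C a) (C b) X * derivative ℤ_[p] N = gd (C a) (C b) (M p) := by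
    apply mul_left_cancel₀ hp20
    have h5 : derivative ℤ_[p] (M p) = C ((p : ℤ_[p]) ^ 2) * derivative ℤ_[p] N := by
      rw [hMN, hder]
    rw [h5, hder, hpC, ← map_pow] at hd
    linear_combination hd
  have h6 := congrArg (PowerSeries.map (PadicInt.toZMod (p := p))) hdN
  simp only [map_mul, map_add, map_ofNat, etb_map_gg, etb_map_gd, map_X, etb_map_der, h0] at h6
  have h7 : gd (C (PadicInt.toZMod a)) (C (PadicInt.toZMod b)) (0 : (ZMod p)⟦X⟧) = 1 := by
    simp [gd]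
  rw [h7] at h6
  set G : (ZMod p)⟦X⟧ := gg (C (PadicInt.toZMod a)) (C (PadicInt.toZMod b)) X with hG
  set G' : (ZMod p)⟦X⟧ := gd (C (PadicInt.toZMod a)) (C (PadicInt.toZMod b)) X with hG'
  set N' : (ZMod p)⟦X⟧ := derivative (ZMod p) (PowerSeries.map PadicInt.toZMod N) with hN'
  have hGG' : derivative (ZMod p) G = G' := by
    rw [hG, hG', gg, gd]
    simp only [map_add, Derivation.leibniz, Derivation.leibniz_pow, derivative_C, derivative_X,
      smul_eq_mul, nsmul_eq_mul, Nat.cast_ofNat]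
    norm_num
    ring
  have h8 : derivative (ZMod p) (2 * N' * G ^ (q + 1)) = G ^ q := by
    have h2 : derivative (ZMod p) (2 : (ZMod p)⟦X⟧) = 0 := by
      simpa using (derivative (ZMod p)).map_natCast 2
    have hpz : (2 : (ZMod p)⟦X⟧) * q + 1 = 0 := by
      have h9 : ((p : ℕ) : (ZMod p)⟦X⟧) = 0 := by
        rw [← map_natCast (C (R := ZMod p)), ZMod.natCast_self, map_zero]
      have h10 : ((2 * q + 1 : ℕ) : (ZMod p)⟦X⟧) = 0 := by
        rw [← hpq]
        exact h9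
      push_cast at h10
      exact h10
    rw [Derivation.leibniz, Derivation.leibniz, Derivation.leibniz_pow, h2, hGG']
    simp only [smul_eq_mul, nsmul_eq_mul, mul_zero, add_zero, Nat.add_sub_cancel]
    push_cast
    linear_combination G ^ q * h6 + (N' * G ^ q * G') * hpz
  have h9 := congrArg (coeff (2 * q)) h8
  rw [etb_coeff, coeff_derivative] at h9
  apply hH
  rw [← h9]
  have h10 : ((2 * q : ℕ) : ZMod p) + 1 = 0 := by
    have h11 : ((p : ℕ) : ZMod p) = 0 := ZMod.natCast_self p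
    have h12 : ((2 * q + 1 : ℕ) : ZMod p) = 0 := by rw [← hpq]; exact h11
    push_cast at h12 ⊢
    exact h12
  rw [h10, mul_zero]

end Pool.Agent.Lib.MP_3550b5_nt.Vr
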