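import Pool.Agent.Lib.MP_3550b5_nt.TP.Ver.EtyA
import Pool.Agent.Lib.MP_3550b5_nt.TP.Ver.EtyB

/-!
The multiplication by `p` modulo `p` is `h ^ p = h(X ^ p)` with `h` etale, for nonzero Hasse
invariant.
-/

namespace Pool.Agent.Lib.MP_3550b5_nt.Vr

open PowerSeries

variable {p : ℕ} [hp : Fact p.Prime]

/-- From `G h' ^ 2 = A ^ 2 G(h)`: if `h ≠ 0` has order `e`, then `e = 1`. -/
theorem exists_h {q : ℕ} (hpq : p = 2 * q + 1) (hq : 1 ≤ q) {a b : ℤ_[p]}
    {M T : ℕ → ℤ_[p]⟦X⟧} (hMT : IsMT a b M T)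
    (hH : (hasseRev (PadicInt.toZMod a) (PadicInt.toZMod b) q).coeff q ≠ 0) :
    ∃ h : (ZMod p)⟦X⟧, PowerSeries.map PadicInt.toZMod (M p) = h ^ p ∧ constantCoeff h = 0 ∧
      coeff 1 h ≠ 0 := by
  obtain ⟨h, θ, hM, h0, hθ, hd⟩ := exists_h_theta hpq hq hMT
  refine ⟨h, hM, h0, fun h1 => ?_⟩
  have hne : h ≠ 0 := by
    intro h2
    apply map_M_ne hpq hq hMT hH
    rw [hM, h2, zero_pow hp.out.ne_zero]
  set a' : ZMod p := PadicInt.toZMod a
  set b' : ZMod p := PadicInt.toZMod b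
  set A := (hasseRev a' b' q).coeff q with hA
  have hGne : gg (C a') (C b') (X : (ZMod p)⟦X⟧) ≠ 0 := by
    intro h2
    have h3 := congrArg (coeff 1) h2
    simp [gg, coeff_X_pow, coeff_C_mul] at h3
  have key : gg (C a') (C b') (X : (ZMod p)⟦X⟧) * derivative (ZMod p) h ^ 2 =
      C A ^ 2 * gg (C a') (C b') h := by
    apply mul_left_cancel₀ hGne
    calc gg (C a') (C b') X * (gg (C a') (C b') X * derivative (ZMod p) h ^ 2) =
          (gg (C a') (C b') X * derivative (ZMod p) h) ^ 2 := by ring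
      _ = C A ^ 2 * θ ^ 2 := by rw [hd]; ring
      _ = _ := by rw [hθ]; ring
  -- the order of `h`
  obtain ⟨e, he⟩ : ∃ e : ℕ, h.order = e := by
    have := order_finite_iff_ne_zero.mpr hne
    exact ⟨h.order.toNat, (ENat.natCast_toNat (ne_of_lt (order_finite_iff_ne_zero.mpr hne))).symm⟩
  have hlt : ∀ i < e, coeff i h = 0 := fun i hi =>
    coeff_of_lt_order i (by rw [he]; exact_mod_cast hi)
  have hce : coeff e h ≠ 0 := by
    have h2 := coeff_order hne
    rw [show h.order.toNat = e by rw [he]; rfl] at h2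
    exact h2
  have he2 : 2 ≤ e := by
    by_contra hcon
    interval_cases e
    · apply hce
      rw [coeff_zero_eq_constantCoeff]
      exact h0
    · exact hce h1
  obtain ⟨w, hw⟩ := X_pow_dvd_iff.mpr hlt
  have hw0 : constantCoeff w ≠ 0 := by
    intro h2
    apply hce
    rw [hw, mul_comm, show e = 0 + e by omega, coeff_mul_X_pow', if_pos (by omega)]
    simpa using h2
  obtain ⟨d, hd'⟩ : X ^ (e - 1) ∣ derivative (ZMod p) h := by
    rw [X_pow_dvd_iff]
    intro i hi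
    rw [coeff_derivative, hlt _ (by omega), zero_mul]
  have hL : X ^ (e + 1) ∣ C A ^ 2 * gg (C a') (C b') h := by
    rw [← key, hd']
    have h2 : gg (C a') (C b') (X : (ZMod p)⟦X⟧) * (X ^ (e - 1) * d) ^ 2 =
        X ^ (1 + 2 * (e - 1)) * ((1 + C a' * X ^ 2 + C b' * X ^ 3) * d ^ 2) := by
      simp only [gg]
      ring
    rw [h2]
    exact Dvd.dvd.mul_right (pow_dvd_pow _ (by omega)) _
  have hR : C A ^ 2 * gg (C a') (C b') h =
      X ^ e * (C A ^ 2 * w * (1 + C a' * h ^ 2 + C b' * h ^ 3)) := by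
    have h2 : gg (C a') (C b') h = h * (1 + C a' * h ^ 2 + C b' * h ^ 3) := by
      simp only [gg]
      ring
    rw [h2]
    conv_lhs => rw [show h * (1 + C a' * h ^ 2 + C b' * h ^ 3) =
      (X ^ e * w) * (1 + C a' * h ^ 2 + C b' * h ^ 3) by rw [← hw]]
    ring
  rw [hR, pow_succ] at hL
  have h3 := (mul_dvd_mul_iff_left (pow_ne_zero e (X_ne_zero (R := ZMod p)))).mp hL
  rw [X_dvd_iff] at h3
  simp only [map_mul, map_pow, map_add, map_one, constantCoeff_C, h0] at h3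
  have h4 : A ^ 2 * constantCoeff w = 0 := by
    simpa using h3
  rcases mul_eq_zero.mp h4 with h5 | h5
  · exact hH (pow_eq_zero_iff (two_ne_zero)|>.mp h5)
  · exact hw0 h5

end Pool.Agent.Lib.MP_3550b5_nt.Vr
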