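import Pool.Agent.Lib.MP_3550b5_nt.TP.Ver.Defs

/-! Simple poles of logarithmic derivatives; separability of `X + a X^3 + b X^4`. -/

namespace Pool.Agent.Lib.MP_3550b5_nt.Vr

open PowerSeries

variable {p : ℕ} [hp : Fact p.Prime]

/-- The logarithmic derivative of a polynomial has simple poles and vanishes at infinity. -/
theorem log_der {H : Polynomial (ZMod p)} (hH : H ≠ 0) : ∃ N Q : Polynomial (ZMod p),
    Squarefree Q ∧ IsCoprime N Q ∧ N.degree < Q.degree ∧ N * H = Q * Polynomial.derivative H := by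
  obtain ⟨D, hD⟩ : ∃ D, D = EuclideanDomain.gcd H (Polynomial.derivative H) := ⟨_, rfl⟩
  obtain ⟨A, hA⟩ : D ∣ H := by
    rw [hD]
    exact EuclideanDomain.gcd_dvd_left _ _
  obtain ⟨B, hB⟩ : D ∣ Polynomial.derivative H := by
    rw [hD]
    exact EuclideanDomain.gcd_dvd_right _ _
  have hD0 : D ≠ 0 := by
    rintro rfl
    exact hH (by rw [hA, zero_mul])
  have hA0 : A ≠ 0 := by
    rintro rfl
    exact hH (by rw [hA, mul_zero])
  have hbez : D = H * EuclideanDomain.gcdA H (Polynomial.derivative H) +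
      Polynomial.derivative H * EuclideanDomain.gcdB H (Polynomial.derivative H) := by
    rw [hD]
    exact EuclideanDomain.gcd_eq_gcd_ab _ _
  refine ⟨B, A, ?_, ?_, ?_, ?_⟩
  · rw [squarefree_iff_irreducible_sq_not_dvd_of_ne_zero hA0]
    intro π hπ hdvd
    have hpr : Prime π := hπ.prime
    have hfin : FiniteMultiplicity π H := FiniteMultiplicity.of_prime_left hpr hH
    obtain ⟨K, hK, hKn⟩ := hfin.exists_eq_pow_mul_and_not_dvd
    obtain ⟨e, he⟩ : ∃ e, e = multiplicity π H := ⟨_, rfl⟩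
    rw [← he] at hK
    have hpH : π ∣ H := by
      rw [hA]
      exact Dvd.dvd.mul_left ((dvd_mul_right π π).trans hdvd) D
    have he1 : 1 ≤ e := by
      by_contra h0
      have h1 : e = 0 := by omega
      rw [h1, pow_zero, one_mul] at hK
      rw [hK] at hpH
      exact hKn hpH
    have h2 : π ^ (e - 1) ∣ H := by
      rw [hK]
      exact Dvd.dvd.mul_right (pow_dvd_pow π (by omega)) K
    have h3 : π ^ (e - 1) ∣ Polynomial.derivative H :=
      Polynomial.pow_sub_one_dvd_derivative_of_pow_dvd ⟨K, hK⟩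
    have h4 : π ^ (e - 1) ∣ D := by
      rw [hD]
      exact EuclideanDomain.dvd_gcd h2 h3
    have h5 : π ^ (e - 1) * (π * π) ∣ H := by
      rw [hA]
      exact mul_dvd_mul h4 hdvd
    have h6 : π ^ (e - 1) * (π * π) = π ^ e * π := by
      have h7 : π ^ e = π ^ (e - 1) * π := by
        rw [← pow_succ]
        congr 1
        omega
      rw [h7]
      ring
    rw [h6, hK] at h5
    exact hKn ((mul_dvd_mul_iff_left (pow_ne_zero e hpr.ne_zero)).1 h5)
  · refine ⟨EuclideanDomain.gcdB H (Polynomial.derivative H),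
      EuclideanDomain.gcdA H (Polynomial.derivative H), ?_⟩
    apply mul_left_cancel₀ hD0
    rw [mul_one]
    conv_rhs => rw [hbez]
    conv_rhs => rw [hA, ← hA, hB, ← hB]
    linear_combination (-EuclideanDomain.gcdA H (Polynomial.derivative H)) * hA -
      EuclideanDomain.gcdB H (Polynomial.derivative H) * hB
  · by_cases h0 : Polynomial.derivative H = 0
    · have h1 : B = 0 := by
        rw [h0] at hB
        exact (mul_eq_zero.1 hB.symm).resolve_left hD0
      rw [h1, Polynomial.degree_zero]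
      exact bot_lt_iff_ne_bot.2 (fun h => hA0 (Polynomial.degree_eq_bot.1 h))
    · have h1 : (Polynomial.derivative H).degree < H.degree :=
        Polynomial.degree_derivative_lt hH
      have h2 : (D * B).degree < (D * A).degree := by
        rw [← hB, ← hA]
        exact h1
      rw [Polynomial.degree_mul, Polynomial.degree_mul] at h2
      exact lt_of_add_lt_add_left h2
  · rw [hB]
    conv_lhs => rw [hA]
    ring

/-- `X + a X^3 + b X^4` is separable. Hint: with `F = 1 + a X^2 + b X^3` and `3 + a X^2 = 3 F - X F'`,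
`(3 + 4 a X^2) (3 + a X^2)^2 - 27 (1 + a X^2 - b X^3) F = (4 a^3 + 27 b^2) X^6`. -/
theorem sep_G (hp2 : (2 : ZMod p) ≠ 0) {a b : ZMod p} (hΔ : 4 * a ^ 3 + 27 * b ^ 2 ≠ 0) :
    IsCoprime (Polynomial.X + Polynomial.C a * Polynomial.X ^ 3 + Polynomial.C b * Polynomial.X ^ 4)
      (1 + 3 * Polynomial.C a * Polynomial.X ^ 2 + 4 * Polynomial.C b * Polynomial.X ^ 3) := by
  obtain ⟨A, hA⟩ : ∃ A : Polynomial (ZMod p), A = Polynomial.C a := ⟨_, rfl⟩
  obtain ⟨B, hB⟩ : ∃ B : Polynomial (ZMod p), B = Polynomial.C b := ⟨_, rfl⟩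
  obtain ⟨Z, hZ⟩ : ∃ Z : Polynomial (ZMod p), Z = Polynomial.X := ⟨_, rfl⟩
  obtain ⟨E, hE⟩ : ∃ E : Polynomial (ZMod p), E = Polynomial.C ((4 * a ^ 3 + 27 * b ^ 2)⁻¹) :=
    ⟨_, rfl⟩
  have hEA : E * (4 * A ^ 3 + 27 * B ^ 2) = 1 := by
    have h1 : (4 * A ^ 3 + 27 * B ^ 2 : Polynomial (ZMod p)) =
        Polynomial.C (4 * a ^ 3 + 27 * b ^ 2) := by
      rw [hA, hB]
      simp only [map_add, map_mul, map_pow, map_ofNat]
    rw [h1, hE, ← Polynomial.C_mul, inv_mul_cancel₀ hΔ, Polynomial.C_1]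
  rw [← hA, ← hB, ← hZ]
  have h1 : Z + A * Z ^ 3 + B * Z ^ 4 = Z * (1 + A * Z ^ 2 + B * Z ^ 3) := by ring
  rw [h1]
  have h2 : IsCoprime Z (1 + 3 * A * Z ^ 2 + 4 * B * Z ^ 3) :=
    ⟨-(3 * A * Z + 4 * B * Z ^ 2), 1, by ring⟩
  have h3 : IsCoprime (1 + A * Z ^ 2 + B * Z ^ 3) Z := ⟨1, -(A * Z + B * Z ^ 2), by ring⟩
  obtain ⟨u, v, huv⟩ := h3.pow_right (n := 6)
  refine IsCoprime.mul_left h2 ⟨u + v * E * ((3 + 4 * A * Z ^ 2) *
    (16 * (1 + A * Z ^ 2 + B * Z ^ 3) - 8 * (1 + 3 * A * Z ^ 2 + 4 * B * Z ^ 3)) -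
    27 * (1 + A * Z ^ 2 - B * Z ^ 3)), v * E * (3 + 4 * A * Z ^ 2) *
    (1 + 3 * A * Z ^ 2 + 4 * B * Z ^ 3), ?_⟩
  linear_combination huv + v * Z ^ 6 * hEA

end Pool.Agent.Lib.MP_3550b5_nt.Vr
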