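import Pool.Agent.Lib.MP_3550b5_nt.TP.Ver.Fro
import Pool.Agent.Lib.MP_3550b5_nt.TP.Ver.NRa

/-!
`U` is not algebraic of Kummer type over the rational functions, in characteristic `p`.

Plan. Suppose `A U ^ n = B`. Strip `p` from `n` by `rat_of_pow` (well-founded induction), so
`(n : ZMod p) ≠ 0`. Multiply by `A ^ (p - 1)`: `A ^ p U ^ n = H` with `H = B A ^ (p - 1)` a
polynomial, `H ≠ 0`; since `(A ^ p)' = 0` and `U' = v U` one gets `n v H = H'`. By `log_der` there
is a squarefree `Q`, coprime to `N`, `deg N < deg Q`, with `N H = Q H'`; so `Q n v = N`. The equation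
of `v`, times `n Q ^ 2`, is `2 G (N' Q - N Q') + G' N Q = - n L Q ^ 2`; hence `Q ∣ 2 G N Q'`, so
`Q ∣ G` (`Q` is separable), `G = Q G₁` with `Q`, `G₁` coprime (`G` is separable), and then
`Q ∣ 2 G₁ N Q'`, so `Q` is a unit, `N = 0`, `v = 0`, `L = 0`, against `4 a ^ 3 + 27 b ^ 2 ≠ 0`.
-/

namespace Pool.Agent.Lib.MP_3550b5_nt.Vr

open PowerSeries

variable {p : ℕ} [hp : Fact p.Prime]

private theorem nr_key {n : ℕ} (hn : ((n : ℕ) : ZMod p) ≠ 0) (hp2 : (2 : ZMod p) ≠ 0)
    {a b c : ZMod p} (hΔ : 4 * a ^ 3 + 27 * b ^ 2 ≠ 0)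
    {v : (ZMod p)⟦X⟧} (hode : 2 * (X * (1 + C a * X ^ 2 + C b * X ^ 3)) * derivative (ZMod p) v +
      (1 + 3 * C a * X ^ 2 + 4 * C b * X ^ 3) * v + (C c + C a * X + 2 * C b * X ^ 2) = 0)
    {H : Polynomial (ZMod p)} (hH : H ≠ 0)
    (hH' : ((Polynomial.derivative H : Polynomial (ZMod p)) : (ZMod p)⟦X⟧) =
      C ((n : ℕ) : ZMod p) * v * (H : (ZMod p)⟦X⟧)) : False := by
  obtain ⟨N, Q, hsq, hcop, hdeg, hNQ⟩ := log_der hH
  obtain ⟨e, he⟩ : ∃ e : ZMod p, e = ((n : ℕ) : ZMod p) := ⟨_, rfl⟩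
  rw [← he] at hn hH'
  have hQ0 : Q ≠ 0 := by
    rintro rfl
    simp at hdeg
  have hHc : (H : (ZMod p)⟦X⟧) ≠ 0 := fun h => hH (Polynomial.coe_eq_zero_iff.1 h)
  -- `Q n v = N`
  have h1 : (N : (ZMod p)⟦X⟧) = (Q : (ZMod p)⟦X⟧) * (C e * v) := by
    apply mul_right_cancel₀ hHc
    have h2 := congrArg (fun P : Polynomial (ZMod p) => (P : (ZMod p)⟦X⟧)) hNQ
    simp only [Polynomial.coe_mul] at h2
    rw [h2, hH']
    ring
  have h2 : ((Polynomial.derivative N : Polynomial (ZMod p)) : (ZMod p)⟦X⟧) =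
      (Q : (ZMod p)⟦X⟧) * (C e * derivative (ZMod p) v) +
      ((Polynomial.derivative Q : Polynomial (ZMod p)) : (ZMod p)⟦X⟧) * (C e * v) := by
    have h3 := congrArg (derivative (ZMod p)) h1
    rw [Derivation.leibniz, Derivation.leibniz, derivative_C, derivative_coe, derivative_coe] at h3
    simp only [smul_eq_mul] at h3
    linear_combination h3
  obtain ⟨G, hG⟩ : ∃ G : Polynomial (ZMod p), G = Polynomial.X +
    Polynomial.C a * Polynomial.X ^ 3 + Polynomial.C b * Polynomial.X ^ 4 := ⟨_, rfl⟩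
  obtain ⟨G', hG'⟩ : ∃ G' : Polynomial (ZMod p), G' = 1 + 3 * Polynomial.C a *
    Polynomial.X ^ 2 + 4 * Polynomial.C b * Polynomial.X ^ 3 := ⟨_, rfl⟩
  obtain ⟨L, hL⟩ : ∃ L : Polynomial (ZMod p), L = Polynomial.C c + Polynomial.C a *
    Polynomial.X + 2 * Polynomial.C b * Polynomial.X ^ 2 := ⟨_, rfl⟩
  have cop := sep_G hp2 hΔ
  rw [← hG, ← hG'] at cop
  have hdG : Polynomial.derivative G = G' := by
    rw [hG, hG']
    simp only [Polynomial.derivative_add, Polynomial.derivative_X, Polynomial.derivative_C_mul,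
      Polynomial.derivative_X_pow]
    push_cast
    simp only [map_ofNat]
    ring
  have cG : (G : (ZMod p)⟦X⟧) = X * (1 + C a * X ^ 2 + C b * X ^ 3) := by
    rw [hG]
    push_cast
    ring
  have c3 : ((3 : Polynomial (ZMod p)) : (ZMod p)⟦X⟧) = 3 :=
    map_ofNat (Polynomial.coeToPowerSeries.ringHom (R := ZMod p)) 3
  have c4 : ((4 : Polynomial (ZMod p)) : (ZMod p)⟦X⟧) = 4 :=
    map_ofNat (Polynomial.coeToPowerSeries.ringHom (R := ZMod p)) 4
  have c2 : ((2 : Polynomial (ZMod p)) : (ZMod p)⟦X⟧) = 2 :=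
    map_ofNat (Polynomial.coeToPowerSeries.ringHom (R := ZMod p)) 2
  have cG' : (G' : (ZMod p)⟦X⟧) = 1 + 3 * C a * X ^ 2 + 4 * C b * X ^ 3 := by
    rw [hG']
    push_cast
    rw [c3, c4]
  have cL : (L : (ZMod p)⟦X⟧) = C c + C a * X + 2 * C b * X ^ 2 := by
    rw [hL]
    push_cast
    rw [c2]
  rw [← cG, ← cG', ← cL] at hode
  -- the equation of `N`, `Q`
  have h3 : 2 * G * (Q * Polynomial.derivative N - N * Polynomial.derivative Q) + G' * (Q * N) +
      Polynomial.C e * L * Q ^ 2 = 0 := by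
    apply Polynomial.coe_injective
    push_cast
    rw [c2, h2, h1]
    linear_combination (C e : (ZMod p)⟦X⟧) * (Q : (ZMod p)⟦X⟧) ^ 2 * hode
  have hsep : IsCoprime Q (Polynomial.derivative Q) :=
    PerfectField.separable_iff_squarefree.2 hsq
  have e2 : (2 : Polynomial (ZMod p)) = Polynomial.C 2 := (map_ofNat Polynomial.C 2).symm
  have hu2 : IsCoprime Q (2 : Polynomial (ZMod p)) := by
    refine ⟨0, Polynomial.C 2⁻¹, ?_⟩
    rw [e2, ← Polynomial.C_mul, inv_mul_cancel₀ hp2, Polynomial.C_1]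
    ring
  have h4 : Q ∣ G * (2 * N * Polynomial.derivative Q) :=
    ⟨2 * G * Polynomial.derivative N + G' * N + Polynomial.C e * L * Q, by
      linear_combination -h3⟩
  have hc1 : IsCoprime Q (2 * N * Polynomial.derivative Q) := by
    exact IsCoprime.mul_right (IsCoprime.mul_right hu2 hcop.symm) hsep
  obtain ⟨G1, hG1⟩ : Q ∣ G := hc1.dvd_of_dvd_mul_right h4
  have hdG1 : G' = Polynomial.derivative Q * G1 + Q * Polynomial.derivative G1 := by
    rw [← hdG, hG1, Polynomial.derivative_mul]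
  have hc2 : IsCoprime Q G1 := by
    obtain ⟨u, w, huw⟩ := cop
    refine ⟨u * G1 + w * Polynomial.derivative G1, w * Polynomial.derivative Q, ?_⟩
    rw [hG1, hdG1] at huw
    linear_combination huw
  have h5 : 2 * G1 * (Q * Polynomial.derivative N - N * Polynomial.derivative Q) + G' * N +
      Polynomial.C e * L * Q = 0 := by
    apply mul_left_cancel₀ hQ0
    rw [mul_zero]
    linear_combination h3 - 2 * (Q * Polynomial.derivative N - N * Polynomial.derivative Q) * hG1
  have h6 : Q ∣ G1 * (Polynomial.derivative Q * N) := by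
    refine ⟨2 * G1 * Polynomial.derivative N + Polynomial.derivative G1 * N +
      Polynomial.C e * L, ?_⟩
    linear_combination -h5 + N * hdG1
  have hQu : IsUnit Q := by
    have hc3 : IsCoprime Q (G1 * (Polynomial.derivative Q * N)) :=
      IsCoprime.mul_right hc2 (IsCoprime.mul_right hsep hcop.symm)
    exact hc3.isUnit_of_dvd' dvd_rfl h6
  have hN : N = 0 := by
    rw [Polynomial.degree_eq_zero_of_isUnit hQu] at hdeg
    exact Polynomial.degree_eq_bot.1 (Nat.WithBot.lt_zero_iff.1 hdeg)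
  rw [hN] at h3
  have h7 : L = 0 := by
    have h8 : Polynomial.C e * L * Q ^ 2 = 0 := by
      rw [Polynomial.derivative_zero] at h3
      linear_combination h3
    rcases mul_eq_zero.1 h8 with h9 | h9
    · rcases mul_eq_zero.1 h9 with h10 | h10
      · exact absurd (Polynomial.C_eq_zero.1 h10) hn
      · exact h10
    · exact absurd (pow_eq_zero_iff (two_ne_zero)|>.1 h9) hQ0
  have ha : a = 0 := by
    have h8 := congrArg (fun P : Polynomial (ZMod p) => P.coeff 1) h7
    rw [hL] at h8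
    simp only [e2, mul_assoc, Polynomial.coeff_add, Polynomial.coeff_C_mul,
      Polynomial.coeff_X_one, Polynomial.coeff_X_pow, Polynomial.coeff_C, Polynomial.coeff_zero] at h8
    simpa using h8
  have hb : b = 0 := by
    have h8 := congrArg (fun P : Polynomial (ZMod p) => P.coeff 2) h7
    rw [hL] at h8
    simp only [e2, mul_assoc, Polynomial.coeff_add, Polynomial.coeff_C_mul,
      Polynomial.coeff_X, Polynomial.coeff_X_pow, Polynomial.coeff_C, Polynomial.coeff_zero] at h8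
    simpa [hp2] using h8
  apply hΔ
  rw [ha, hb]
  ring

theorem not_rat (hp2 : (2 : ZMod p) ≠ 0) {a b c : ZMod p} (hΔ : 4 * a ^ 3 + 27 * b ^ 2 ≠ 0)
    {v U : (ZMod p)⟦X⟧} (hU : Lg.IsVU a b c v U) : NotRat U := by
  intro n
  induction n using Nat.strong_induction_on with
  | _ n ih =>
    intro hn A B hA h
    by_cases hpn : p ∣ n
    · obtain ⟨m, rfl⟩ := hpn
      have hm : 1 ≤ m := by
        rcases Nat.eq_zero_or_pos m with h0 | h0
        · rw [h0, mul_zero] at hn
          omega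
        · exact h0
      rw [mul_comm p m, pow_mul] at h
      obtain ⟨A', B', hA', h'⟩ := rat_of_pow hA h
      refine ih m ?_ hm A' B' hA' h'
      have := hp.out.two_le
      nlinarith
    · have hn0 : ((n : ℕ) : ZMod p) ≠ 0 := fun h0 => hpn ((ZMod.natCast_eq_zero_iff n p).1 h0)
      have hU0 : U ≠ 0 := by
        rintro rfl
        have := hU.one
        rw [map_zero] at this
        exact zero_ne_one this
      have hp1 := hp.out.one_le
      have hAc : (A : (ZMod p)⟦X⟧) ≠ 0 := fun h0 => hA (Polynomial.coe_eq_zero_iff.1 h0)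
      have hH : (((B * A ^ (p - 1) : Polynomial (ZMod p))) : (ZMod p)⟦X⟧) =
          (A : (ZMod p)⟦X⟧) ^ p * U ^ n := by
        rw [Polynomial.coe_mul, Polynomial.coe_pow, ← h]
        have e1 : (A : (ZMod p)⟦X⟧) ^ p = (A : (ZMod p)⟦X⟧) ^ (p - 1) * (A : (ZMod p)⟦X⟧) := by
          rw [← pow_succ, Nat.sub_add_cancel hp1]
        rw [e1]
        ring
      have hHne : B * A ^ (p - 1) ≠ 0 := by
        intro h0
        rw [h0, Polynomial.coe_zero] at hH
        exact (mul_ne_zero (pow_ne_zero _ hAc) (pow_ne_zero _ hU0)) hH.symm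
      refine nr_key hn0 hp2 hΔ hU.ode hHne ?_
      rw [← derivative_coe, hH, Derivation.leibniz, derivative_pow_p, smul_zero, add_zero,
        derivative_pow, hU.der, smul_eq_mul]
      have e2 : U ^ n = U ^ (n - 1) * U := by
        rw [← pow_succ, Nat.sub_add_cancel hn]
      rw [e2, map_natCast]
      ring

end Pool.Agent.Lib.MP_3550b5_nt.Vr
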