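import Pool.Agent.Lib.MP_3550b5_nt.TP.Ver.SigC
import Pool.Agent.Lib.MP_3550b5_nt.TP.Ver.Ety
import Pool.Agent.Lib.MP_3550b5_nt.TP.Ver.NR
import Pool.Agent.Lib.MP_3550b5_nt.TP.Log.Univ
import Pool.Agent.Lib.MP_3550b5_nt.TP.Log.Pair
import Pool.Agent.Lib.MP_3550b5_nt.HeightVal

/-! The functional equation of `U` modulo `p`. -/

namespace Pool.Agent.Lib.MP_3550b5_nt.Vr

open PowerSeries

variable {p : ℕ} [hp : Fact p.Prime]

/-- As `Lg.exists_isVU`, over a domain (`v = U' U^(-1)`, with `exists_inv`). -/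
theorem exists_isVU_dom {R : Type*} [CommRing R] [IsDomain R] {a b c : R} {U : R⟦X⟧}
    (h : IsSigmaU a b c U) : ∃ v, Lg.IsVU a b c v U := by
  obtain ⟨hU0, hode⟩ := h
  have hUne : U ≠ 0 := by
    rintro rfl
    rw [map_zero] at hU0
    exact zero_ne_one hU0
  obtain ⟨U', hinv⟩ := exists_inv hU0
  obtain ⟨v, hvdef⟩ : ∃ v, v = derivative R U * U' := ⟨_, rfl⟩
  have hvU : derivative R U = v * U := by
    rw [hvdef, mul_assoc, mul_comm U' U, hinv, mul_one]
  have hDv : derivative R (derivative R U) = derivative R v * U + v * (v * U) := by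
    have h1 : derivative R (v * U) = v • derivative R U + U • derivative R v :=
      Derivation.leibniz (derivative R) v U
    rw [hvU, h1, smul_eq_mul, smul_eq_mul, hvU]
    ring
  refine ⟨v, hU0, hvU, ?_⟩
  apply mul_right_cancel₀ (pow_ne_zero 2 hUne)
  rw [hDv, hvU] at hode
  linear_combination hode

/-- `U(h) = γ U ^ p`: reduce `U(M_p) = φ U ^ (p ^ 2)` modulo `p` (`exists_phi` over `ℤ_p`
for `exists_isMT` and `exists_isVU_dom`), where `M_p = h ^ p`, take `p`-th roots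
(`γ = U(h) / U ^ p` has `γ ^ p = φ`, so it is rational by `ratS_of_pow`). -/
theorem exists_FE (hp5 : 5 ≤ p) {a b : ℤ} (hord : GoodOrdinary p a b) {c : ℤ_[p]} {U : ℤ_[p]⟦X⟧}
    (hU : IsSigmaU (a : ℤ_[p]) (b : ℤ_[p]) c U) :
    ∃ h γ : (ZMod p)⟦X⟧, constantCoeff h = 0 ∧ coeff 1 h ≠ 0 ∧ RatS h ∧ RatS γ ∧
      constantCoeff γ = 1 ∧
      (PowerSeries.map PadicInt.toZMod U).subst h =
        γ * (PowerSeries.map PadicInt.toZMod U) ^ p := by
  obtain ⟨q, hpq⟩ : ∃ q, p = 2 * q + 1 := by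
    rcases hp.out.eq_two_or_odd' with h | h
    · omega
    · exact h
  have hq : 1 ≤ q := by omega
  obtain ⟨M, T, hMT⟩ := exists_isMT (a : ℤ_[p]) (b : ℤ_[p])
  obtain ⟨v, hv⟩ := exists_isVU_dom hU
  obtain ⟨φ, hφ, hφ1, hφU⟩ := exists_phi hMT hv p
  obtain ⟨h, hh, hh0, hh1⟩ := exists_h hpq hq hMT (hasse_of_goodOrdinary hpq hq hord)
  have hu1 : constantCoeff (PowerSeries.map (PadicInt.toZMod (p := p)) U) = 1 := by
    rw [← coeff_zero_eq_constantCoeff_apply, coeff_map, coeff_zero_eq_constantCoeff_apply, hv.one,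
      map_one]
  have hψ1 : constantCoeff (PowerSeries.map (PadicInt.toZMod (p := p)) φ) = 1 := by
    rw [← coeff_zero_eq_constantCoeff_apply, coeff_map, coeff_zero_eq_constantCoeff_apply, hφ1,
      map_one]
  have hmap : (PowerSeries.map (PadicInt.toZMod (p := p)) U).subst (h ^ p) =
      PowerSeries.map PadicInt.toZMod φ * PowerSeries.map PadicInt.toZMod U ^ p ^ 2 := by
    have hs : PowerSeries.HasSubst (M p) := PowerSeries.HasSubst.of_constantCoeff_zero'
      (hMT.M_const p)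
    have h1 : PowerSeries.map (PadicInt.toZMod (p := p)) (U.subst (M p)) =
        (PowerSeries.map (PadicInt.toZMod (p := p)) U).subst
          (PowerSeries.map (PadicInt.toZMod (p := p)) (M p)) :=
      PowerSeries.map_subst hs U
    rw [hφU, map_mul, map_pow, hh] at h1
    exact h1.symm
  rw [subst_pow_p hh0] at hmap
  obtain ⟨u', hu'⟩ := exists_inv hu1
  have hγp : ((PowerSeries.map (PadicInt.toZMod (p := p)) U).subst h * u' ^ p) ^ p =
      PowerSeries.map PadicInt.toZMod φ := by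
    rw [mul_pow, hmap, ← pow_mul, mul_assoc, pow_two, ← mul_pow, hu', one_pow, mul_one]
  refine ⟨h, (PowerSeries.map (PadicInt.toZMod (p := p)) U).subst h * u' ^ p, hh0, hh1, ?_, ?_, ?_,
    ?_⟩
  · apply ratS_of_pow
    rw [← hh]
    exact (hMT.ratM p).map _
  · apply ratS_of_pow
    rw [hγp]
    exact hφ.map _
  · have h1 := congrArg constantCoeff hγp
    rw [map_pow, ZMod.pow_card, hψ1] at h1
    exact h1
  · rw [mul_assoc, ← mul_pow, mul_comm u', hu', one_pow, mul_one]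

theorem notRat_map (hp5 : 5 ≤ p) {a b : ℤ} (hord : GoodOrdinary p a b) {c : ℤ_[p]} {U : ℤ_[p]⟦X⟧}
    (hU : IsSigmaU (a : ℤ_[p]) (b : ℤ_[p]) c U) : NotRat (PowerSeries.map PadicInt.toZMod U) := by
  obtain ⟨v, hv⟩ := exists_isVU_dom hU
  have hv' := hv.map (PadicInt.toZMod (p := p))
  refine not_rat ?_ ?_ hv'
  · intro h
    have h1 : ((2 : ℕ) : ZMod p) = 0 := by exact_mod_cast h
    have h2 := Nat.le_of_dvd (by norm_num) ((ZMod.natCast_eq_zero_iff 2 p).1 h1)
    omega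
  · intro h
    apply hord.1
    rw [← ZMod.intCast_zmod_eq_zero_iff_dvd]
    rw [map_intCast, map_intCast] at h
    push_cast
    exact h

end Pool.Agent.Lib.MP_3550b5_nt.Vr
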