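import Pool.Agent.Lib.MP_3550b5_nt.TP.Log.Defs

/-!
VERSCHIEBUNG ZERO ESTIMATE (leader helper67): the polynomial identities of the addition law in the
coordinate `r = 1 / x` of `y^2 = x^3 + a x + b`; `M = 1 / x(n P)`, `T^2 = G(r) G(M)`.
-/

namespace Pool.Agent.Lib.MP_3550b5_nt.Vr

variable {A : Type*} [CommRing A]

/-- `G(x) = x + a x^3 + b x^4`. -/
def gg (a b x : A) : A := x + a * x ^ 3 + b * x ^ 4

/-- The derivative of `G`. -/
def gd (a b x : A) : A := 1 + 3 * a * x ^ 2 + 4 * b * x ^ 3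

/-- The numerator of half the sum. -/
def EE (a b r M : A) : A := (1 + a * r * M) * (r + M) + 2 * b * r ^ 2 * M ^ 2

/-- The denominator. -/
def QQ (a b r M : A) : A := (1 - a * r * M) ^ 2 - 4 * b * r * M * (r + M)

/-- The numerator of `1 / x((n + 1) P)`. -/
def SS (a b r M T : A) : A := EE a b r M + 2 * T

/-- The first partial derivative of `QQ` in `r`. -/
def Qr (a b r M : A) : A := -2 * a * M * (1 - a * r * M) - 4 * b * M * (2 * r + M)

/-- The first partial derivative of `QQ` in `M`. -/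
def Qm (a b r M : A) : A := -2 * a * r * (1 - a * r * M) - 4 * b * r * (r + 2 * M)

/-- The numerator of the new `T`. -/
def WW (a b r M T : A) : A :=
  (gg a b r * (a * M * (r + M) + (1 + a * r * M) + 4 * b * r * M ^ 2) + gd a b r * T) *
    QQ a b r M - SS a b r M T * gg a b r * Qr a b r M

theorem alg_E (a b r M : A) : EE a b r M ^ 2 - 4 * (gg a b r * gg a b M) =
    (M - r) ^ 2 * QQ a b r M := by
  simp only [EE, gg, QQ]
  ring

/-- The new `T^2`. -/
theorem alg_W {a b r M T : A} (hT : T ^ 2 = gg a b r * gg a b M) :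
    WW a b r M T ^ 2 = gg a b r * (SS a b r M T * QQ a b r M ^ 3 +
      a * SS a b r M T ^ 3 * QQ a b r M + b * SS a b r M T ^ 4) := by
  have h : T ^ 2 - gg a b r * gg a b M = 0 := sub_eq_zero.mpr hT
  simp only [WW, SS, EE, gg, gd, QQ, Qr] at *
  linear_combination (((1 + 3 * a * r ^ 2 + 4 * b * r ^ 3) *
      ((1 - a * r * M) ^ 2 - 4 * b * r * M * (r + M)) - 2 * (r + a * r ^ 3 + b * r ^ 4) *
      (-2 * a * M * (1 - a * r * M) - 4 * b * M * (2 * r + M))) ^ 2 -
    (r + a * r ^ 3 + b * r ^ 4) * (a * ((1 - a * r * M) ^ 2 - 4 * b * r * M * (r + M)) *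
      (12 * ((1 + a * r * M) * (r + M) + 2 * b * r ^ 2 * M ^ 2) + 8 * T) +
      b * (24 * ((1 + a * r * M) * (r + M) + 2 * b * r ^ 2 * M ^ 2) ^ 2 +
        32 * ((1 + a * r * M) * (r + M) + 2 * b * r ^ 2 * M ^ 2) * T +
        16 * (T ^ 2 + (r + a * r ^ 3 + b * r ^ 4) * (M + a * M ^ 3 + b * M ^ 4))))) * h

/-- The derivative of the new `M` in the direction of `M`. -/
theorem alg_D {a b r M T : A} (hT : T ^ 2 = gg a b r * gg a b M) :
    T * ((a * r * (r + M) + (1 + a * r * M) + 4 * b * r ^ 2 * M) * QQ a b r M -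
      SS a b r M T * Qm a b r M) + gg a b r * gd a b M * QQ a b r M = WW a b r M T := by
  simp only [WW, SS, EE, gg, gd, QQ, Qr, Qm] at *
  linear_combination (-2 * (-2 * a * r * (1 - a * r * M) - 4 * b * r * (r + 2 * M))) * hT

/-- The predecessor. -/
theorem alg_P {a b r M T : A} (hT : T ^ 2 = gg a b r * gg a b M) :
    (QQ a b r M + a * r * SS a b r M T) * (r * QQ a b r M + SS a b r M T) +
      2 * b * r ^ 2 * SS a b r M T ^ 2 - 2 * WW a b r M T =
    M * ((QQ a b r M - a * r * SS a b r M T) ^ 2 -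
      4 * b * r * SS a b r M T * (r * QQ a b r M + SS a b r M T)) := by
  simp only [WW, SS, EE, gg, gd, QQ, Qr] at *
  linear_combination (4 * (a * r + 2 * b * r ^ 2 - M * (a ^ 2 * r ^ 2 - 4 * b * r))) * hT

/-- The differential equation of the logarithmic derivative of `QQ`. -/
theorem alg_Q {a b c r M T n : A} (hT : T ^ 2 = gg a b r * gg a b M) :
    2 * QQ a b r M * (gg a b r * (2 * a ^ 2 * M ^ 2 - 8 * b * M) +
        2 * (-2 * a + 4 * a ^ 2 * r * M - 8 * b * r - 8 * b * M) * (n * T) +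
        (2 * a ^ 2 * r ^ 2 - 8 * b * r) * (n ^ 2 * gg a b M)) +
      QQ a b r M * Qm a b r M * (n ^ 2 * gd a b M) + gd a b r * QQ a b r M * Qr a b r M -
      2 * (gg a b r * Qr a b r M ^ 2 + 2 * Qr a b r M * Qm a b r M * (n * T) +
        Qm a b r M ^ 2 * (n ^ 2 * gg a b M)) =
    QQ a b r M ^ 2 * (2 * n ^ 2 * (c + a * M + 2 * b * M ^ 2) + 2 * (c + a * r + 2 * b * r ^ 2)) -
      (n + 1) ^ 2 * (c * QQ a b r M ^ 2 + a * QQ a b r M * (EE a b r M + 2 * T) +
        2 * b * (EE a b r M + 2 * T) ^ 2) -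
      (n - 1) ^ 2 * (c * QQ a b r M ^ 2 + a * QQ a b r M * (EE a b r M - 2 * T) +
        2 * b * (EE a b r M - 2 * T) ^ 2) := by
  simp only [EE, gg, gd, QQ, Qr, Qm] at *
  linear_combination (16 * b * (n ^ 2 + 1)) * hT

end Pool.Agent.Lib.MP_3550b5_nt.Vr
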