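import Pool.Agent.Lib.MP_3550b5_nt.TP.Curve

/-! Elimination: the image of a plane curve under a pair of forms. -/

namespace Pool.Agent.Lib.MP_3550b5_nt.Vr

open PowerSeries

variable {p : ℕ} [hp : Fact p.Prime]

/-- The polynomial with coefficients `r` at the products `A ^ α B ^ β`. -/
noncomputable def genL (A B : MvPolynomial (Fin 2) ℤ_[p]) (d : ℕ) :
    (Mon d → ℤ_[p]) →ₗ[ℤ_[p]] MvPolynomial (Fin 2) ℤ_[p] :=
  ∑ μ, (LinearMap.toSpanSingleton ℤ_[p] _ (A ^ (μ.1 : ℕ) * B ^ (μ.2 : ℕ))) ∘ₗ (LinearMap.proj μ)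

lemma genL_apply (A B : MvPolynomial (Fin 2) ℤ_[p]) (d : ℕ) (r : Mon d → ℤ_[p]) :
    genL A B d r = ∑ μ : Mon d, r μ • (A ^ (μ.1 : ℕ) * B ^ (μ.2 : ℕ)) := by
  simp [genL]

lemma eval_genL (A B : MvPolynomial (Fin 2) ℤ_[p]) (d : ℕ) (r : Mon d → ℤ_[p]) (w : Fin 2 → ℤ_[p]) :
    MvPolynomial.eval w (genL A B d r) =
      ∑ μ : Mon d, r μ * (MvPolynomial.eval w A ^ (μ.1 : ℕ) * MvPolynomial.eval w B ^ (μ.2 : ℕ)) := by
  rw [genL_apply, map_sum]
  refine Finset.sum_congr rfl fun μ _ => ?_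
  rw [MvPolynomial.smul_eval, map_mul, map_pow, map_pow]

lemma genL_degreeOf {A B : MvPolynomial (Fin 2) ℤ_[p]} {e : ℕ} (hA : ∀ i, A.degreeOf i ≤ e)
    (hB : ∀ i, B.degreeOf i ≤ e) (d : ℕ) (r : Mon d → ℤ_[p]) (i : Fin 2) :
    (genL A B d r).degreeOf i ≤ 2 * d * e := by
  classical
  rw [genL_apply]
  refine (MvPolynomial.degreeOf_sum_le _ _ _).trans (Finset.sup_le fun μ _ => ?_)
  have h1 : (μ.1 : ℕ) ≤ d := by have := μ.1.2; omega
  have h2 : (μ.2 : ℕ) ≤ d := by have := μ.2.2; omega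
  have h0 : (r μ • (A ^ (μ.1 : ℕ) * B ^ (μ.2 : ℕ))).degreeOf i ≤
      (A ^ (μ.1 : ℕ) * B ^ (μ.2 : ℕ)).degreeOf i := by
    rw [MvPolynomial.smul_eq_C_mul]
    exact MvPolynomial.degreeOf_C_mul_le _ _ _
  refine h0.trans ((MvPolynomial.degreeOf_mul_le _ _ _).trans ?_)
  calc (A ^ (μ.1 : ℕ)).degreeOf i + (B ^ (μ.2 : ℕ)).degreeOf i ≤
        (μ.1 : ℕ) * A.degreeOf i + (μ.2 : ℕ) * B.degreeOf i :=
        add_le_add (MvPolynomial.degreeOf_pow_le _ _ _) (MvPolynomial.degreeOf_pow_le _ _ _)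
    _ ≤ d * e + d * e := add_le_add (Nat.mul_le_mul h1 (hA i)) (Nat.mul_le_mul h2 (hB i))
    _ = 2 * d * e := by ring

/-- A nonzero polynomial in `A`, `B` which vanishes on the curve `Q = 0`. -/
theorem exists_elim {d e : ℕ} (he : 1 ≤ e) {A B : MvPolynomial (Fin 2) ℤ_[p]}
    (hA : ∀ i, A.degreeOf i ≤ e) (hB : ∀ i, B.degreeOf i ≤ e)
    {Q : MvPolynomial (Fin 2) ℤ_[p]} (hQ : Q ≠ 0) (hd : Q.totalDegree ≤ d) :
    ∃ r : Mon (4 * d * e) → ℤ_[p], r ≠ 0 ∧ ∀ w : Fin 2 → ℤ_[p], MvPolynomial.eval w Q = 0 →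
      ∑ μ : Mon (4 * d * e), r μ * (MvPolynomial.eval w A ^ (μ.1 : ℕ) *
        MvPolynomial.eval w B ^ (μ.2 : ℕ)) = 0 := by
  classical
  set D := 4 * d * e with hD
  set K := 2 * D * e with hK
  have hdK : d ≤ K := by
    rw [hK, hD]
    have h1 : 1 ≤ e * e := Nat.mul_pos he he
    calc d = d * 1 := (mul_one d).symm
      _ ≤ d * (8 * (e * e)) := Nat.mul_le_mul_left _ (by omega)
      _ = 2 * (4 * d * e) * e := by ring
  obtain ⟨E, hE⟩ : ∃ E, K = E + d := ⟨K - d, by omega⟩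
  let T : ((Mon D → ℤ_[p]) × (Mon E → ℤ_[p])) →ₗ[ℤ_[p]] MvPolynomial (Fin 2) ℤ_[p] :=
    (genL A B D) ∘ₗ (LinearMap.fst ℤ_[p] _ _) -
      (LinearMap.mulLeft ℤ_[p] Q) ∘ₗ (expL p 1 E) ∘ₗ (LinearMap.snd ℤ_[p] _ _)
  let L : ((Mon D → ℤ_[p]) × (Mon E → ℤ_[p])) →ₗ[ℤ_[p]] (Mon K → ℤ_[p]) :=
    LinearMap.pi fun μ => (MvPolynomial.lcoeff ℤ_[p] (monE K μ)) ∘ₗ T
  have hninj : ¬ Function.Injective L := by
    intro hinj
    have h1 := LinearMap.finrank_le_finrank_of_injective hinj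
    rw [Module.finrank_prod, Module.finrank_pi, Module.finrank_pi, Module.finrank_pi,
      Fintype.card_prod, Fintype.card_prod, Fintype.card_prod, Fintype.card_fin, Fintype.card_fin,
      Fintype.card_fin] at h1
    have h2 : (D : ℤ) = 4 * d * e := by rw [hD]; push_cast; ring
    have h3 : (K : ℤ) = 2 * D * e := by rw [hK]; push_cast; ring
    have h4 : (E : ℤ) = K - d := by
      have : ((K : ℕ) : ℤ) = ((E + d : ℕ) : ℤ) := congrArg _ hE
      push_cast at this
      linarith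
    have h5 : ((D + 1) * (D + 1) + (E + 1) * (E + 1) : ℤ) ≤ (K + 1) * (K + 1) := by
      exact_mod_cast h1
    rw [h4] at h5
    have hd0 : (0 : ℤ) ≤ d := by positivity
    have he1 : (1 : ℤ) ≤ e := by exact_mod_cast he
    have h6 : (d : ℤ) * (2 * K) = D * D := by rw [h3, h2]; ring
    have h7 : (d : ℤ) ≤ D := by
      rw [h2]
      nlinarith
    nlinarith
  have hex : ∃ w, w ≠ 0 ∧ L w = 0 := by
    by_contra hcon
    push Not at hcon
    apply hninj
    rw [injective_iff_map_eq_zero]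
    intro w hw
    by_contra hw0
    exact hcon w hw0 hw
  obtain ⟨⟨r, q⟩, hw, hL⟩ := hex
  have hT : genL A B D r = Q * expL p 1 E q := by
    rw [← sub_eq_zero]
    ext m
    rw [MvPolynomial.coeff_zero]
    by_cases hm : m 0 ≤ K ∧ m 1 ≤ K
    · have e : m = monE K (⟨m 0, by omega⟩, ⟨m 1, by omega⟩) := by
        ext i
        fin_cases i
        · simp [monE]
        · simp [monE]
      rw [e]
      exact congrFun hL _
    · have h1 : MvPolynomial.coeff m (genL A B D r) = 0 := by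
        by_contra h
        apply hm
        have h3 : ∀ i, m i ≤ K := fun i =>
          (MvPolynomial.degreeOf_le_iff.mp le_rfl m (MvPolynomial.mem_support_iff.mpr h)).trans
            (genL_degreeOf hA hB D r i)
        exact ⟨h3 0, h3 1⟩
      have h2 : MvPolynomial.coeff m (Q * expL p 1 E q) = 0 := by
        by_contra h
        apply hm
        have h3 : ∀ i, m i ≤ K := by
          intro i
          have h4 : m i ≤ MvPolynomial.degreeOf i (Q * expL p 1 E q) :=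
            MvPolynomial.degreeOf_le_iff.mp le_rfl m (MvPolynomial.mem_support_iff.mpr h)
          have h5 := MvPolynomial.degreeOf_mul_le i Q (expL p 1 E q)
          have h6 : MvPolynomial.degreeOf i Q ≤ d :=
            (MvPolynomial.degreeOf_le_totalDegree Q i).trans hd
          have h7 : MvPolynomial.degreeOf i (expL p 1 E q) ≤ E := by
            rw [MvPolynomial.degreeOf_le_iff]
            intro m' hm'
            have h8 := expL_box 1 E q m' (MvPolynomial.mem_support_iff.mp hm')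
            rw [mul_one] at h8
            fin_cases i
            · exact h8.1
            · exact h8.2
          omega
        exact ⟨h3 0, h3 1⟩
      rw [MvPolynomial.coeff_sub, h1, h2, sub_zero]
  refine ⟨r, ?_, fun w hw0 => ?_⟩
  · rintro rfl
    apply hw
    rw [map_zero] at hT
    have h1 := (mul_eq_zero.mp hT.symm).resolve_left hQ
    rw [expL_inj le_rfl h1]
    rfl
  · rw [← eval_genL, hT, map_mul, hw0, zero_mul]

/-- The form attached to a polynomial. -/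
noncomputable def formL (p : ℕ) [Fact p.Prime] (e : ℕ) (f : Polynomial ℤ) :
    MvPolynomial (Fin 2) ℤ_[p] :=
  ∑ i ∈ Finset.range (e + 1), MvPolynomial.C ((f.coeff i : ℤ) : ℤ_[p]) *
    (MvPolynomial.X 0 ^ i * MvPolynomial.X 1 ^ (e - i))

lemma eval_formL (e : ℕ) (f : Polynomial ℤ) (m n : ℤ) :
    MvPolynomial.eval ![(m : ℤ_[p]), (n : ℤ_[p])] (formL p e f) =
      ((hform e f m n : ℤ) : ℤ_[p]) := by
  rw [formL, map_sum, hform, Int.cast_sum]
  refine Finset.sum_congr rfl fun i _ => ?_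
  simp [mul_assoc]

lemma formL_degreeOf (e : ℕ) (f : Polynomial ℤ) (i : Fin 2) : (formL p e f).degreeOf i ≤ e := by
  classical
  rw [formL]
  refine (MvPolynomial.degreeOf_sum_le _ _ _).trans (Finset.sup_le fun j hj => ?_)
  have hj' : j ≤ e := Nat.lt_succ_iff.mp (Finset.mem_range.mp hj)
  refine (MvPolynomial.degreeOf_C_mul_le _ _ _).trans ?_
  refine (MvPolynomial.degreeOf_le_totalDegree _ _).trans ?_
  refine (MvPolynomial.totalDegree_mul _ _).trans ?_
  rw [MvPolynomial.totalDegree_X_pow, MvPolynomial.totalDegree_X_pow]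
  omega

end Pool.Agent.Lib.MP_3550b5_nt.Vr
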