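import Pool.Agent.Lib.MP_3550b5_nt.TP.Ver.CountV
import Pool.Agent.Lib.MP_3550b5_nt.TP.Ver.Elim
import Pool.Agent.Lib.MP_3550b5_nt.TP.Log.Data

/-! The points on a plane curve, quadratically in its degree. -/

namespace Pool.Agent.Lib.MP_3550b5_nt.Vr

open PowerSeries

variable {p : ℕ} [hp : Fact p.Prime]

/-- The points on a curve, from the data. -/
theorem curve_data {U : ℤ_[p]⟦X⟧} {C₀ : ℕ} (hZ : ZB2 p U C₀)
    {e : ℕ} (he : 1 ≤ e) {φ ψ : Polynomial ℤ} (hφ : φ.Monic) (hφd : φ.natDegree = e)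
    (hψ : ψ ≠ 0) (hψd : ψ.natDegree < e) (G : Finset ℤ) (hG : (0 : ℤ) ∉ G)
    {V : Type*} (S : V → ℕ → Set ℚ)
    (h : ∀ v l, ∃ E : ℤ_[p], IsUnit E ∧ ∀ x ∈ S v l, ∃ g ∈ G,
      ¬ (p : ℤ) ∣ hform e φ x.num x.den ∧ (p : ℤ) ∣ hform e ψ x.num x.den ∧
      ∀ Φi : ℤ_[p], ((hform e φ x.num x.den : ℤ) : ℤ_[p]) * Φi = 1 →
        IsUnit (ev U (((hform e ψ x.num x.den : ℤ) : ℤ_[p]) * Φi) * ((g : ℤ_[p]) * Φi)) ∧
        (p : ℤ_[p]) ^ l ∣ (ev U (((hform e ψ x.num x.den : ℤ) : ℤ_[p]) * Φi) *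
          ((g : ℤ_[p]) * Φi)) ^ (p - 1) - E) :
    ∃ C : ℕ, 1 ≤ C ∧ ∀ (d : ℕ) (v : V) (N l : ℕ) (Q : MvPolynomial (Fin 2) ℚ_[p]) (T : Finset ℚ),
      1 ≤ d → 1 ≤ N → (C * N) ^ (C * d ^ 2) ≤ p ^ l → Q ≠ 0 → Q.totalDegree ≤ d →
      (∀ x ∈ T, |x.num| ≤ N ∧ x.den ≤ N ∧ x ∈ S v l ∧
        MvPolynomial.eval ![(x.num : ℚ_[p]), (x.den : ℚ_[p])] Q = 0) →
      T.card ≤ C * d ^ 2 := by
  classical
  have hp1 := hp.out.one_lt
  have hp0 := hp.out.pos
  -- the size of the elements of `G`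
  obtain ⟨κ, hκ⟩ : ∃ κ : ℕ, ∀ g ∈ G, (g : ℤ_[p]) ∣ (p : ℤ_[p]) ^ κ := by
    refine ⟨∑ g ∈ G, g.natAbs, fun g hg => int_dvd_pow (fun h0 => hG (h0 ▸ hg)) ?_⟩
    have h1 : g.natAbs ≤ ∑ g ∈ G, g.natAbs := Finset.single_le_sum (f := fun g : ℤ => g.natAbs)
      (fun _ _ => Nat.zero_le _) hg
    have h2 : g.natAbs < p ^ (∑ g ∈ G, g.natAbs) := by
      calc g.natAbs ≤ ∑ g ∈ G, g.natAbs := h1
        _ < 2 ^ (∑ g ∈ G, g.natAbs) := Nat.lt_two_pow_self
        _ ≤ p ^ (∑ g ∈ G, g.natAbs) := Nat.pow_le_pow_left hp1 _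
    rw [Int.abs_eq_natAbs]
    exact_mod_cast h2
  set C2 := (∑ i ∈ Finset.range (e + 1), (φ.coeff i).natAbs) +
    (∑ i ∈ Finset.range (e + 1), (ψ.coeff i).natAbs) + 1 with hC2
  set C1 := 8 * e * κ + 1 + 32 * C₀ * e ^ 2 with hC1
  set C := e * (G.card * p) * (16 * C₀ * e ^ 2) + p * C2 + e * C1 + 16 * e with hC
  have hC21 : 1 ≤ C2 := by omega
  refine ⟨C, by omega, fun d v N l Q T hd hN hl hQ hQd hT => ?_⟩
  -- elimination
  obtain ⟨n, Q', hQ'⟩ := exists_int_poly Q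
  have hpn : (p : ℚ_[p]) ^ n ≠ 0 := pow_ne_zero _ (by exact_mod_cast hp.out.ne_zero)
  have hinj : Function.Injective (algebraMap ℤ_[p] ℚ_[p]) := Subtype.coe_injective
  have hQ'0 : Q' ≠ 0 := by
    rintro rfl
    rw [map_zero] at hQ'
    rcases mul_eq_zero.mp hQ'.symm with h | h
    · exact hpn ((MvPolynomial.C_eq_zero).mp h)
    · exact hQ h
  have hQ'd : Q'.totalDegree ≤ d := by
    have h1 : (MvPolynomial.map (algebraMap ℤ_[p] ℚ_[p]) Q').totalDegree = Q'.totalDegree := by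
      rw [MvPolynomial.totalDegree, MvPolynomial.totalDegree,
        MvPolynomial.support_map_of_injective _ hinj]
    rw [← h1, hQ']
    refine (MvPolynomial.totalDegree_mul _ _).trans ?_
    rw [MvPolynomial.totalDegree_C, zero_add]
    exact hQd
  have helim := exists_elim he (formL_degreeOf (p := p) e φ)
    (formL_degreeOf (p := p) e ψ) hQ'0 hQ'd
  set D := 4 * d * e with hD
  obtain ⟨r0, hr0, hr00⟩ := helim
  obtain ⟨κ0, hκ0⟩ : ∃ κ0, ∃ i, ¬ (p : ℤ_[p]) ^ (κ0 + 1) ∣ r0 i := by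
    obtain ⟨i, hi⟩ : ∃ i, r0 i ≠ 0 := by
      by_contra h
      push Not at h
      exact hr0 (funext h)
    obtain ⟨e, _, -, h⟩ := exists_content (f := fun _ => r0 i) ⟨0, hi⟩
    exact ⟨e, i, h⟩
  obtain ⟨k, γ, -, hγ, hγe⟩ := exists_primitive hκ0
  obtain ⟨E, hE, hdat⟩ := h v l
  have hrel : ∀ x ∈ T, ∑ μ : Mon D, γ μ * (((hform e φ x.num x.den : ℤ) : ℤ_[p]) ^ (μ.1 : ℕ) *
      ((hform e ψ x.num x.den : ℤ) : ℤ_[p]) ^ (μ.2 : ℕ)) = 0 := by
    intro x hx
    have h1 : MvPolynomial.eval ![(x.num : ℤ_[p]), ((x.den : ℤ) : ℤ_[p])] Q' = 0 := by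
      apply hinj
      rw [map_zero, MvPolynomial.map_eval, hQ', map_mul]
      have e : (algebraMap ℤ_[p] ℚ_[p]) ∘ ![(x.num : ℤ_[p]), ((x.den : ℤ) : ℤ_[p])] =
          ![(x.num : ℚ_[p]), (x.den : ℚ_[p])] := by
        funext i
        fin_cases i <;> simp
      rw [e, (hT x hx).2.2.2, mul_zero]
    have h2 := hr00 _ h1
    rw [eval_formL, eval_formL] at h2
    have h3 : (p : ℤ_[p]) ^ k * ∑ μ : Mon D, γ μ *
        (((hform e φ x.num x.den : ℤ) : ℤ_[p]) ^ (μ.1 : ℕ) *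
          ((hform e ψ x.num x.den : ℤ) : ℤ_[p]) ^ (μ.2 : ℕ)) = 0 := by
      rw [Finset.mul_sum, ← h2]
      refine Finset.sum_congr rfl fun μ _ => ?_
      rw [hγe μ]; ring
    exact (mul_eq_zero.mp h3).resolve_left (pow_ne_zero _ p_ne)
  -- the data of the points
  have hdat2 : ∀ x : T, ∃ (g : ℤ) (Φi : ℤ_[p]), g ∈ G ∧
      (p : ℤ) ∣ hform e ψ (x : ℚ).num (x : ℚ).den ∧
      ((hform e φ (x : ℚ).num (x : ℚ).den : ℤ) : ℤ_[p]) * Φi = 1 ∧
      IsUnit (ev U (((hform e ψ (x : ℚ).num (x : ℚ).den : ℤ) : ℤ_[p]) * Φi) *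
        ((g : ℤ_[p]) * Φi)) ∧
      (p : ℤ_[p]) ^ l ∣ (ev U (((hform e ψ (x : ℚ).num (x : ℚ).den : ℤ) : ℤ_[p]) * Φi) *
          ((g : ℤ_[p]) * Φi)) ^ (p - 1) - E := by
    intro x
    obtain ⟨g, hg, h1, h2, h3⟩ := hdat x (hT x x.2).2.2.1
    obtain ⟨Φi, hΦi⟩ : ∃ Φi : ℤ_[p],
        ((hform e φ (x : ℚ).num (x : ℚ).den : ℤ) : ℤ_[p]) * Φi = 1 := by
      obtain ⟨u, hu⟩ := isUnit_intCast h1
      exact ⟨_, by rw [← hu]; exact u.mul_inv⟩
    exact ⟨g, Φi, hg, h2, hΦi, (h3 Φi hΦi).1, (h3 Φi hΦi).2⟩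
  choose g Φi hg hpψ hΦi hun hclose using hdat2
  set A : T → ℤ := fun x => hform e φ (x : ℚ).num (x : ℚ).den with hA
  set B : T → ℤ := fun x => hform e ψ (x : ℚ).num (x : ℚ).den with hB
  set r : T → ℤ_[p] := fun x => (B x : ℤ_[p]) * Φi x with hr
  set w : T → ℤ_[p] := fun x => ev U (r x) * ((g x : ℤ_[p]) * Φi x) with hw
  have hrB : ∀ x, (B x : ℤ_[p]) = r x * (A x : ℤ_[p]) := by
    intro x
    have := hΦi x
    simp only [hr]
    linear_combination (-(B x : ℤ_[p])) * this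
  have hr1 : ∀ x, ‖r x‖ < 1 := fun x => norm_mul_lt_one
    ((PadicInt.norm_int_lt_one_iff_dvd _).mpr (hpψ x))
  have hwA : ∀ x, w x * (A x : ℤ_[p]) = ev U (r x) * (g x : ℤ_[p]) := by
    intro x
    have := hΦi x
    simp only [hw]
    linear_combination (ev U (r x) * (g x : ℤ_[p])) * this
  -- sizes
  set N₁ := C2 * N ^ e with hN₁
  have hN₁1 : 1 ≤ N₁ := Nat.mul_pos hC21 (pow_pos hN _)
  have hsize : ∀ x, |A x| ≤ N₁ ∧ |B x| ≤ N₁ := by
    intro x
    obtain ⟨h1, h2, -, -⟩ := hT x x.2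
    have h2' : |((x : ℚ).den : ℤ)| ≤ N := by rw [Nat.abs_cast]; exact_mod_cast h2
    constructor
    · refine (Lg.abs_hform_le e φ h1 h2').trans ?_
      have : (∑ i ∈ Finset.range (e + 1), (φ.coeff i).natAbs) * N ^ e ≤ N₁ :=
        Nat.mul_le_mul_right _ (by omega)
      exact_mod_cast this
    · refine (Lg.abs_hform_le e ψ h1 h2').trans ?_
      have : (∑ i ∈ Finset.range (e + 1), (ψ.coeff i).natAbs) * N ^ e ≤ N₁ :=
        Nat.mul_le_mul_right _ (by omega)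
      exact_mod_cast this
  -- the map to classes and ratios
  set f : T → (ℤ × ZMod p) × ℤ_[p] := fun x => ((g x, PadicInt.toZMod (w x)), r x) with hf
  have hfib : T.card ≤ e * ((Finset.univ : Finset T).image f).card := by
    have h1 := Finset.card_le_mul_card_image (f := f) (Finset.univ : Finset T) e (by
      intro y _
      have h2 : ((Finset.univ.filter fun x : T => f x = y).image fun x : T => (x : ℚ)).card =
          (Finset.univ.filter fun x : T => f x = y).card :=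
        Finset.card_image_of_injective _ Subtype.coe_injective
      rw [← h2]
      refine Lg.card_ratio_le hφ hφd hψ hψd y.2 _ fun x hx => ?_
      obtain ⟨x', hx', rfl⟩ := Finset.mem_image.mp hx
      have h3 : r x' = y.2 := by rw [← (Finset.mem_filter.mp hx').2]
      rw [← h3]
      exact hrB x')
    rwa [Finset.card_univ, Fintype.card_coe] at h1
  set R := (Finset.univ : Finset T).image f with hRdef
  set n₀ : ℕ := C₀ * D ^ 2 with hn₀
  obtain ⟨ρ, hρ0, hρ1, hρm⟩ := exists_pow_gt (p := p) (2 * N₁ ^ 2) (by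
    have h1 : 0 < N₁ := hN₁1
    have h2 : 0 < N₁ ^ 2 := by positivity
    omega) le_rfl
  rw [mul_one] at hρ1 hρm
  have hl2 : 2 * D * κ + ρ * n₀ < l := by
    have h1 : p ^ (2 * D * κ + ρ * n₀ + 1) ≤ p ^ l := by
      calc p ^ (2 * D * κ + ρ * n₀ + 1) = p ^ (2 * D * κ + 1) * (p ^ ρ) ^ n₀ := by
            rw [← pow_mul, ← pow_add]; congr 1; ring
        _ ≤ p ^ (2 * D * κ + 1) * ((p * N₁) ^ 2) ^ n₀ := by
            refine Nat.mul_le_mul_left _ (Nat.pow_le_pow_left ?_ _)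
            calc p ^ ρ = p * p ^ (ρ - 1) := by rw [← pow_succ', Nat.sub_add_cancel hρ0]
              _ ≤ p * (2 * N₁ ^ 2) := Nat.mul_le_mul_left _ hρm
              _ ≤ p * (p * N₁ ^ 2) := by gcongr; exact hp1
              _ = (p * N₁) ^ 2 := by ring
        _ ≤ (p * N₁) ^ (2 * D * κ + 1) * ((p * N₁) ^ 2) ^ n₀ := by
            gcongr
            exact Nat.le_mul_of_pos_right _ hN₁1
        _ = (p * N₁) ^ (2 * D * κ + 1 + 2 * n₀) := by rw [← pow_mul, ← pow_add]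
        _ ≤ (p * N₁) ^ (C1 * d ^ 2) := by
            apply Nat.pow_le_pow_right (Nat.mul_pos hp0 hN₁1)
            have h2 : d ≤ d ^ 2 := Nat.le_self_pow (by norm_num) d
            have h3 : 1 ≤ d ^ 2 := Nat.one_le_pow _ _ hd
            calc 2 * D * κ + 1 + 2 * n₀ = 8 * e * κ * d + 1 + 32 * C₀ * e ^ 2 * d ^ 2 := by
                  rw [hn₀, hD]; ring
              _ ≤ 8 * e * κ * d ^ 2 + d ^ 2 + 32 * C₀ * e ^ 2 * d ^ 2 := by gcongr
              _ = C1 * d ^ 2 := by rw [hC1]; ring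
        _ ≤ ((C * N) ^ e) ^ (C1 * d ^ 2) := by
            apply Nat.pow_le_pow_left
            rw [hN₁, mul_pow, ← mul_assoc]
            apply Nat.mul_le_mul_right
            calc p * C2 ≤ C := by omega
              _ ≤ C ^ e := Nat.le_self_pow (by omega) C
        _ = (C * N) ^ (e * C1 * d ^ 2) := by rw [← pow_mul, mul_assoc]
        _ ≤ (C * N) ^ (C * d ^ 2) := by
            apply Nat.pow_le_pow_right
            · exact Nat.mul_pos (by omega) hN
            · exact Nat.mul_le_mul_right _ (by omega)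
        _ ≤ p ^ l := hl
    exact (Nat.pow_le_pow_iff_right hp1).mp h1
  have hD1 : 1 ≤ D := Nat.mul_pos (by omega) he
  have hcls : ∀ τ : ℤ × ZMod p, (R.filter fun y => y.1 = τ).card ≤ n₀ := by
    intro τ
    set Rτ := (R.filter fun y => y.1 = τ).image Prod.snd with hRτ
    have hc1 : Rτ.card = (R.filter fun y => y.1 = τ).card := by
      apply Finset.card_image_of_injOn
      intro y hy y' hy' hyy
      have e1 := (Finset.mem_filter.mp (Finset.mem_coe.mp hy)).2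
      have e2 := (Finset.mem_filter.mp (Finset.mem_coe.mp hy')).2
      exact Prod.ext (e1.trans e2.symm) hyy
    have hmem : ∀ z ∈ Rτ, ∃ x : T, g x = τ.1 ∧ PadicInt.toZMod (w x) = τ.2 ∧ r x = z := by
      intro z hz
      obtain ⟨y, hy, rfl⟩ := Finset.mem_image.mp hz
      obtain ⟨hy1, hy2⟩ := Finset.mem_filter.mp hy
      obtain ⟨x, -, rfl⟩ := Finset.mem_image.mp hy1
      exact ⟨x, by rw [← hy2], by rw [← hy2], rfl⟩
    rw [← hc1]
    rcases Rτ.eq_empty_or_nonempty with h0 | ⟨z₀, hz₀⟩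
    · rw [h0]
      simp
    · obtain ⟨x₀, hx₀g, hx₀w, -⟩ := hmem z₀ hz₀
      obtain ⟨wi, hwi⟩ : ∃ wi, w x₀ * wi = 1 := by
        obtain ⟨u, hu⟩ := hun x₀
        exact ⟨_, by simp only [hw]; rw [← hu]; exact u.mul_inv⟩
      have hwiu : IsUnit wi := IsUnit.of_mul_eq_one _ (by rw [mul_comm]; exact hwi)
      have hcκ : (g x₀ : ℤ_[p]) * wi ∣ (p : ℤ_[p]) ^ κ :=
        hwiu.mul_right_dvd.mpr (hκ _ (hg x₀))
      refine hZ D hD1 (fun μ => γ μ * ((g x₀ : ℤ_[p]) * wi) ^ ((μ.1 : ℕ) + (μ.2 : ℕ)))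
        (2 * D * κ) ρ l (coeff_not_dvd hcκ hγ) hl2 Rτ ?_ ?_
      · intro z hz
        obtain ⟨x, hxg, hxw, rfl⟩ := hmem z hz
        refine ⟨hr1 x, ?_⟩
        have hww : (p : ℤ_[p]) ∣ w x - w x₀ := by
          have h1 : PadicInt.toZMod (w x - w x₀) = 0 := by
            rw [map_sub, hxw, hx₀w, sub_self]
          have h2 : w x - w x₀ ∈ RingHom.ker (PadicInt.toZMod : ℤ_[p] →+* ZMod p) := h1
          rw [PadicInt.ker_toZMod, PadicInt.maximalIdeal_eq_span_p,
            Ideal.mem_span_singleton] at h2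
          exact h2
        have hww2 : (p : ℤ_[p]) ^ l ∣ w x - w x₀ := by
          refine Lg.unit_root_close (hun x₀) hww ?_
          have h3 := dvd_sub (hclose x) (hclose x₀)
          have h4 : w x ^ (p - 1) - w x₀ ^ (p - 1) =
            (w x ^ (p - 1) - E) - (w x₀ ^ (p - 1) - E) := by ring
          rw [h4]
          exact h3
        have hgx : g x = g x₀ := by rw [hxg, hx₀g]
        have hA1 : (A x : ℤ_[p]) - (g x₀ : ℤ_[p]) * wi * ev U (r x) =
            (w x - w x₀) * (-(wi * (A x : ℤ_[p]))) := by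
          have h5 := hwA x
          rw [hgx] at h5
          linear_combination (-(A x : ℤ_[p])) * hwi + wi * h5
        have hA2 : (p : ℤ_[p]) ^ l ∣ (A x : ℤ_[p]) - (g x₀ : ℤ_[p]) * wi * ev U (r x) := by
          rw [hA1]
          exact Dvd.dvd.mul_right hww2 _
        refine comb_approx (x := (A x : ℤ_[p])) (y := (B x : ℤ_[p])) (hr1 x) hA2 ?_ (hrel x x.2)
        have hB1 : (B x : ℤ_[p]) - (g x₀ : ℤ_[p]) * wi * ev (X * U) (r x) =
            ((A x : ℤ_[p]) - (g x₀ : ℤ_[p]) * wi * ev U (r x)) * r x := by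
          rw [ev_mul _ _ (hr1 x), ev_X, hrB x]
          ring
        rw [hB1]
        exact Dvd.dvd.mul_right hA2 _
      · intro z hz z' hz' hne
        obtain ⟨x, -, -, rfl⟩ := hmem z hz
        obtain ⟨x', -, -, rfl⟩ := hmem z' hz'
        have e1 : ((B x * A x' - B x' * A x : ℤ) : ℤ_[p]) =
            (r x - r x') * ((A x : ℤ_[p]) * (A x' : ℤ_[p])) := by
          push_cast
          rw [hrB x, hrB x']
          ring
        have hne' : B x * A x' - B x' * A x ≠ 0 := by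
          intro h0
          rw [h0, Int.cast_zero] at e1
          have hA0 : ∀ x, (A x : ℤ_[p]) ≠ 0 := by
            intro x h1
            have := hΦi x
            simp only [hA] at h1
            rw [h1, zero_mul] at this
            exact zero_ne_one this
          rcases mul_eq_zero.mp e1.symm with h2 | h2
          · exact hne (sub_eq_zero.mp h2)
          · exact (mul_ne_zero (hA0 x) (hA0 x')) h2
        have hle : |B x * A x' - B x' * A x| ≤ ((2 * N₁ ^ 2 : ℕ) : ℤ) := by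
          have h1 : |B x * A x'| ≤ (N₁ : ℤ) * N₁ := by
            rw [abs_mul]
            exact mul_le_mul (hsize x).2 (hsize x').1 (abs_nonneg _) (by positivity)
          have h2 : |B x' * A x| ≤ (N₁ : ℤ) * N₁ := by
            rw [abs_mul]
            exact mul_le_mul (hsize x').2 (hsize x).1 (abs_nonneg _) (by positivity)
          have h3 := abs_sub (B x * A x') (B x' * A x)
          push_cast
          nlinarith
        have hdv : r x - r x' ∣ ((B x * A x' - B x' * A x : ℤ) : ℤ_[p]) := by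
          rw [e1]
          exact Dvd.intro _ rfl
        refine hdv.trans (int_dvd_pow hne' (lt_of_le_of_lt hle ?_))
        exact_mod_cast hρ1
  -- the number of classes
  have hRcard : R.card ≤ (G.card * p) * n₀ := by
    have h1 : R.card = ∑ τ ∈ R.image Prod.fst, (R.filter fun y => y.1 = τ).card :=
      Finset.card_eq_sum_card_image _ _
    rw [h1]
    refine (Finset.sum_le_card_nsmul _ _ n₀ fun τ _ => hcls τ).trans ?_
    rw [smul_eq_mul]
    refine Nat.mul_le_mul_right _ ?_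
    have h3 : (R.image Prod.fst) ⊆ G ×ˢ (Finset.univ : Finset (ZMod p)) := by
      intro τ hτ
      obtain ⟨y, hy, rfl⟩ := Finset.mem_image.mp hτ
      obtain ⟨x, -, rfl⟩ := Finset.mem_image.mp hy
      exact Finset.mem_product.mpr ⟨hg x, Finset.mem_univ _⟩
    have h4 := Finset.card_le_card h3
    rwa [Finset.card_product, Finset.card_univ, ZMod.card] at h4
  calc T.card ≤ e * R.card := hfib
    _ ≤ e * ((G.card * p) * n₀) := Nat.mul_le_mul_left _ hRcard
    _ = e * (G.card * p) * (16 * C₀ * e ^ 2) * d ^ 2 := by rw [hn₀, hD]; ring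
    _ ≤ C * d ^ 2 := Nat.mul_le_mul_right _ (by omega)

end Pool.Agent.Lib.MP_3550b5_nt.Vr
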