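import Pool.Agent.Lib.MP_3550b5_nt.TP.Ver.CountV
import Pool.Agent.Lib.MP_3550b5_nt.TP.Log.Data

/-! From the arithmetic data of the multiple `k P` to the count, quadratically in the degree. -/

namespace Pool.Agent.Lib.MP_3550b5_nt.Vr

open PowerSeries

variable {p : ℕ} [hp : Fact p.Prime]

/-- The count from the data. -/
theorem count_data {U : ℤ_[p]⟦X⟧} {C₀ : ℕ} (hZ : ZB2 p U C₀)
    {e : ℕ} (he : 1 ≤ e) {φ ψ : Polynomial ℤ} (hφ : φ.Monic) (hφd : φ.natDegree = e)
    (hψ : ψ ≠ 0) (hψd : ψ.natDegree < e) (G : Finset ℤ) (hG : (0 : ℤ) ∉ G)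
    {V : Type*} (S : V → ℕ → Set ℚ)
    (h : ∀ v l, ∃ E : ℤ_[p], IsUnit E ∧ ∀ x ∈ S v l, ∃ g ∈ G,
      ¬ (p : ℤ) ∣ hform e φ x.num x.den ∧ (p : ℤ) ∣ hform e ψ x.num x.den ∧
      ∀ Φi : ℤ_[p], ((hform e φ x.num x.den : ℤ) : ℤ_[p]) * Φi = 1 →
        IsUnit (ev U (((hform e ψ x.num x.den : ℤ) : ℤ_[p]) * Φi) * ((g : ℤ_[p]) * Φi)) ∧
        (p : ℤ_[p]) ^ l ∣ (ev U (((hform e ψ x.num x.den : ℤ) : ℤ_[p]) * Φi) *
          ((g : ℤ_[p]) * Φi)) ^ (p - 1) - E) :
    ∃ C : ℕ, 1 ≤ C ∧ ∀ (d : ℕ) (v : V) (N l : ℕ) (T : Finset ℚ), 1 ≤ d → 1 ≤ N →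
      (C ^ d * N) ^ (C * d ^ 3) ≤ p ^ l →
      (∀ x ∈ T, |x.num| ≤ N ∧ x.den ≤ N ∧ x ∈ S v l) →
      (T.card : ℝ) ≤ C * (d : ℝ) ^ 2 * (N : ℝ) ^ ((C : ℝ) / d) := by
  classical
  have hp1 := hp.out.one_lt
  have hp0 := hp.out.pos
  -- the size of the elements of `G`
  obtain ⟨κ, hκ⟩ : ∃ κ : ℕ, ∀ g ∈ G, (g : ℤ_[p]) ∣ (p : ℤ_[p]) ^ κ := by
    refine ⟨∑ g ∈ G, g.natAbs, fun g hg => int_dvd_pow (fun h0 => hG (h0 ▸ hg)) ?_⟩
    have h1 : g.natAbs ≤ ∑ g ∈ G, g.natAbs := Finset.single_le_sum (f := fun g : ℤ => g.natAbs)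
      (fun _ _ => Nat.zero_le _) hg
    have h2 : g.natAbs < p ^ (∑ g ∈ G, g.natAbs) := by
      calc g.natAbs ≤ ∑ g ∈ G, g.natAbs := h1
        _ < 2 ^ (∑ g ∈ G, g.natAbs) := Nat.lt_two_pow_self
        _ ≤ p ^ (∑ g ∈ G, g.natAbs) := Nat.pow_le_pow_left hp1 _
    rw [Int.abs_eq_natAbs]
    exact_mod_cast h2
  set C2 := (∑ i ∈ Finset.range (e + 1), (φ.coeff i).natAbs) +
    (∑ i ∈ Finset.range (e + 1), (ψ.coeff i).natAbs) + 1 with hC2
  set C1 := 33 + 2 * κ + 2 * C₀ with hC1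
  set C := e * (G.card * p) * (256 * p * C₀ * C2 ^ 16) + p * C2 + e * C1 + 16 * e with hC
  have hC21 : 1 ≤ C2 := by omega
  refine ⟨C, by omega, fun d v N l T hd hN hl hT => ?_⟩
  obtain ⟨E, hE, hdat⟩ := h v l
  -- the data of the points
  have hdat2 : ∀ x : T, ∃ (g : ℤ) (Φi : ℤ_[p]), g ∈ G ∧
      (p : ℤ) ∣ hform e ψ (x : ℚ).num (x : ℚ).den ∧
      ((hform e φ (x : ℚ).num (x : ℚ).den : ℤ) : ℤ_[p]) * Φi = 1 ∧
      IsUnit (ev U (((hform e ψ (x : ℚ).num (x : ℚ).den : ℤ) : ℤ_[p]) * Φi) *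
        ((g : ℤ_[p]) * Φi)) ∧
      (p : ℤ_[p]) ^ l ∣ (ev U (((hform e ψ (x : ℚ).num (x : ℚ).den : ℤ) : ℤ_[p]) * Φi) *
          ((g : ℤ_[p]) * Φi)) ^ (p - 1) - E := by
    intro x
    obtain ⟨g, hg, h1, h2, h3⟩ := hdat x (hT x x.2).2.2
    obtain ⟨Φi, hΦi⟩ : ∃ Φi : ℤ_[p],
        ((hform e φ (x : ℚ).num (x : ℚ).den : ℤ) : ℤ_[p]) * Φi = 1 := by
      obtain ⟨u, hu⟩ := isUnit_intCast h1
      exact ⟨_, by rw [← hu]; exact u.mul_inv⟩
    exact ⟨g, Φi, hg, h2, hΦi, (h3 Φi hΦi).1, (h3 Φi hΦi).2⟩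
  choose g Φi hg hpψ hΦi hun hclose using hdat2
  set A : T → ℤ := fun x => hform e φ (x : ℚ).num (x : ℚ).den with hA
  set B : T → ℤ := fun x => hform e ψ (x : ℚ).num (x : ℚ).den with hB
  set r : T → ℤ_[p] := fun x => (B x : ℤ_[p]) * Φi x with hr
  set w : T → ℤ_[p] := fun x => ev U (r x) * ((g x : ℤ_[p]) * Φi x) with hw
  have hrB : ∀ x, (B x : ℤ_[p]) = r x * (A x : ℤ_[p]) := by
    intro x
    have := hΦi x
    simp only [hr]
    linear_combination (-(B x : ℤ_[p])) * this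
  have hr1 : ∀ x, ‖r x‖ < 1 := fun x => norm_mul_lt_one
    ((PadicInt.norm_int_lt_one_iff_dvd _).mpr (hpψ x))
  have hwA : ∀ x, w x * (A x : ℤ_[p]) = ev U (r x) * (g x : ℤ_[p]) := by
    intro x
    have := hΦi x
    simp only [hw]
    linear_combination (ev U (r x) * (g x : ℤ_[p])) * this
  -- sizes
  set N₁ := C2 * N ^ e with hN₁
  have hN₁1 : 1 ≤ N₁ := Nat.mul_pos hC21 (pow_pos hN _)
  have hsize : ∀ x, |A x| ≤ N₁ ∧ |B x| ≤ N₁ := by
    intro x
    obtain ⟨h1, h2, -⟩ := hT x x.2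
    have h2' : |((x : ℚ).den : ℤ)| ≤ N := by rw [Nat.abs_cast]; exact_mod_cast h2
    constructor
    · refine (Lg.abs_hform_le e φ h1 h2').trans ?_
      have : (∑ i ∈ Finset.range (e + 1), (φ.coeff i).natAbs) * N ^ e ≤ N₁ :=
        Nat.mul_le_mul_right _ (by omega)
      exact_mod_cast this
    · refine (Lg.abs_hform_le e ψ h1 h2').trans ?_
      have : (∑ i ∈ Finset.range (e + 1), (ψ.coeff i).natAbs) * N ^ e ≤ N₁ :=
        Nat.mul_le_mul_right _ (by omega)
      exact_mod_cast this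
  -- the map to classes and ratios
  set f : T → (ℤ × ZMod p) × ℤ_[p] := fun x => ((g x, PadicInt.toZMod (w x)), r x) with hf
  have hfib : T.card ≤ e * ((Finset.univ : Finset T).image f).card := by
    have h1 := Finset.card_le_mul_card_image (f := f) (Finset.univ : Finset T) e (by
      intro y _
      have h2 : ((Finset.univ.filter fun x : T => f x = y).image fun x : T => (x : ℚ)).card =
          (Finset.univ.filter fun x : T => f x = y).card :=
        Finset.card_image_of_injective _ Subtype.coe_injective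
      rw [← h2]
      refine Lg.card_ratio_le hφ hφd hψ hψd y.2 _ fun x hx => ?_
      obtain ⟨x', hx', rfl⟩ := Finset.mem_image.mp hx
      have h3 : r x' = y.2 := by rw [← (Finset.mem_filter.mp hx').2]
      rw [← h3]
      exact hrB x')
    rwa [Finset.card_univ, Fintype.card_coe] at h1
  set R := (Finset.univ : Finset T).image f with hRdef
  set n₀ : ℝ := 256 * p * C₀ * (d : ℝ) ^ 2 * (N₁ : ℝ) ^ ((16 : ℝ) / d) with hn₀
  have hcls : ∀ τ : ℤ × ZMod p, ((R.filter fun y => y.1 = τ).card : ℝ) ≤ n₀ := by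
    intro τ
    set Rτ := (R.filter fun y => y.1 = τ).image Prod.snd with hRτ
    have hc1 : Rτ.card = (R.filter fun y => y.1 = τ).card := by
      apply Finset.card_image_of_injOn
      intro y hy y' hy' hyy
      have e1 := (Finset.mem_filter.mp (Finset.mem_coe.mp hy)).2
      have e2 := (Finset.mem_filter.mp (Finset.mem_coe.mp hy')).2
      exact Prod.ext (e1.trans e2.symm) hyy
    have hmem : ∀ z ∈ Rτ, ∃ x : T, g x = τ.1 ∧ PadicInt.toZMod (w x) = τ.2 ∧ r x = z := by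
      intro z hz
      obtain ⟨y, hy, rfl⟩ := Finset.mem_image.mp hz
      obtain ⟨hy1, hy2⟩ := Finset.mem_filter.mp hy
      obtain ⟨x, -, rfl⟩ := Finset.mem_image.mp hy1
      exact ⟨x, by rw [← hy2], by rw [← hy2], rfl⟩
    rw [← hc1]
    rcases Rτ.eq_empty_or_nonempty with h0 | ⟨z₀, hz₀⟩
    · rw [h0]
      simp only [Finset.card_empty, Nat.cast_zero]
      positivity
    · obtain ⟨x₀, hx₀g, hx₀w, -⟩ := hmem z₀ hz₀
      obtain ⟨wi, hwi⟩ : ∃ wi, w x₀ * wi = 1 := by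
        obtain ⟨u, hu⟩ := hun x₀
        exact ⟨_, by simp only [hw]; rw [← hu]; exact u.mul_inv⟩
      have hwiu : IsUnit wi := IsUnit.of_mul_eq_one _ (by rw [mul_comm]; exact hwi)
      refine arc_count hZ κ hd (c := (g x₀ : ℤ_[p]) * wi)
        (hwiu.mul_right_dvd.mpr (hκ _ (hg x₀))) hN₁1 (l := l) ?_ Rτ ?_ ?_
      · -- the threshold
        refine le_trans ?_ hl
        have h1 : p ^ d * N₁ ≤ (C ^ d * N) ^ e := by
          have h2 : p ^ d * C2 ≤ C ^ d := by
            calc p ^ d * C2 ≤ p ^ d * C2 ^ d :=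
                  Nat.mul_le_mul_left _ (Nat.le_self_pow (by omega) C2)
              _ = (p * C2) ^ d := (mul_pow _ _ _).symm
              _ ≤ C ^ d := Nat.pow_le_pow_left (by omega) d
          calc p ^ d * N₁ = (p ^ d * C2) * N ^ e := by rw [hN₁, mul_assoc]
            _ ≤ C ^ d * N ^ e := Nat.mul_le_mul_right _ h2
            _ ≤ (C ^ d) ^ e * N ^ e :=
                Nat.mul_le_mul_right _ (Nat.le_self_pow (by omega) _)
            _ = (C ^ d * N) ^ e := (mul_pow _ _ _).symm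
        calc (p ^ d * N₁) ^ (C1 * d ^ 3) ≤ ((C ^ d * N) ^ e) ^ (C1 * d ^ 3) :=
              Nat.pow_le_pow_left h1 _
          _ = (C ^ d * N) ^ (e * C1 * d ^ 3) := by rw [← pow_mul, mul_assoc]
          _ ≤ (C ^ d * N) ^ (C * d ^ 3) := by
              apply Nat.pow_le_pow_right
              · exact Nat.mul_pos (pow_pos (by omega) _) hN
              · exact Nat.mul_le_mul_right _ (by omega)
      · intro z hz
        obtain ⟨x, hxg, hxw, rfl⟩ := hmem z hz
        refine ⟨hr1 x, A x, B x, (hsize x).1, (hsize x).2, ?_⟩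
        have hww : (p : ℤ_[p]) ∣ w x - w x₀ := by
          have h1 : PadicInt.toZMod (w x - w x₀) = 0 := by
            rw [map_sub, hxw, hx₀w, sub_self]
          have h2 : w x - w x₀ ∈ RingHom.ker (PadicInt.toZMod : ℤ_[p] →+* ZMod p) := h1
          rw [PadicInt.ker_toZMod, PadicInt.maximalIdeal_eq_span_p,
            Ideal.mem_span_singleton] at h2
          exact h2
        have hww2 : (p : ℤ_[p]) ^ l ∣ w x - w x₀ := by
          refine Lg.unit_root_close (hun x₀) hww ?_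
          have h3 := dvd_sub (hclose x) (hclose x₀)
          have h4 : w x ^ (p - 1) - w x₀ ^ (p - 1) =
            (w x ^ (p - 1) - E) - (w x₀ ^ (p - 1) - E) := by ring
          rw [h4]
          exact h3
        have hgx : g x = g x₀ := by rw [hxg, hx₀g]
        have hA1 : (A x : ℤ_[p]) - (g x₀ : ℤ_[p]) * wi * ev U (r x) =
            (w x - w x₀) * (-(wi * (A x : ℤ_[p]))) := by
          have h5 := hwA x
          rw [hgx] at h5
          linear_combination (-(A x : ℤ_[p])) * hwi + wi * h5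
        have hA2 : (p : ℤ_[p]) ^ l ∣ (A x : ℤ_[p]) - (g x₀ : ℤ_[p]) * wi * ev U (r x) := by
          rw [hA1]
          exact Dvd.dvd.mul_right hww2 _
        refine ⟨hA2, ?_⟩
        have hB1 : (B x : ℤ_[p]) - (g x₀ : ℤ_[p]) * wi * ev (X * U) (r x) =
            ((A x : ℤ_[p]) - (g x₀ : ℤ_[p]) * wi * ev U (r x)) * r x := by
          rw [ev_mul _ _ (hr1 x), ev_X, hrB x]
          ring
        rw [hB1]
        exact Dvd.dvd.mul_right hA2 _
      · intro z hz z' hz' hne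
        obtain ⟨x, -, -, rfl⟩ := hmem z hz
        obtain ⟨x', -, -, rfl⟩ := hmem z' hz'
        have e1 : ((B x * A x' - B x' * A x : ℤ) : ℤ_[p]) =
            (r x - r x') * ((A x : ℤ_[p]) * (A x' : ℤ_[p])) := by
          push_cast
          rw [hrB x, hrB x']
          ring
        refine ⟨B x * A x' - B x' * A x, ?_, ?_, ?_⟩
        · intro h0
          rw [h0, Int.cast_zero] at e1
          have hA0 : ∀ x, (A x : ℤ_[p]) ≠ 0 := by
            intro x h1
            have := hΦi x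
            simp only [hA] at h1
            rw [h1, zero_mul] at this
            exact zero_ne_one this
          rcases mul_eq_zero.mp e1.symm with h2 | h2
          · exact hne (sub_eq_zero.mp h2)
          · exact (mul_ne_zero (hA0 x) (hA0 x')) h2
        · have h1 : |B x * A x'| ≤ (N₁ : ℤ) * N₁ := by
            rw [abs_mul]
            exact mul_le_mul (hsize x).2 (hsize x').1 (abs_nonneg _) (by positivity)
          have h2 : |B x' * A x| ≤ (N₁ : ℤ) * N₁ := by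
            rw [abs_mul]
            exact mul_le_mul (hsize x').2 (hsize x).1 (abs_nonneg _) (by positivity)
          have h3 := abs_sub (B x * A x') (B x' * A x)
          nlinarith
        · rw [e1]
          exact Dvd.intro _ rfl
  -- the number of classes
  have hRcard : (R.card : ℝ) ≤ (G.card * p : ℕ) * n₀ := by
    have h1 : R.card = ∑ τ ∈ R.image Prod.fst, (R.filter fun y => y.1 = τ).card :=
      Finset.card_eq_sum_card_image _ _
    rw [h1]
    push_cast
    have h2 : (∑ τ ∈ R.image Prod.fst, ((R.filter fun y => y.1 = τ).card : ℝ)) ≤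
        (R.image Prod.fst).card • n₀ := Finset.sum_le_card_nsmul _ _ _ fun τ _ => hcls τ
    refine h2.trans ?_
    rw [nsmul_eq_mul]
    have hn₀0 : 0 ≤ n₀ := by positivity
    refine mul_le_mul_of_nonneg_right ?_ hn₀0
    have h3 : (R.image Prod.fst) ⊆ G ×ˢ (Finset.univ : Finset (ZMod p)) := by
      intro τ hτ
      obtain ⟨y, hy, rfl⟩ := Finset.mem_image.mp hτ
      obtain ⟨x, -, rfl⟩ := Finset.mem_image.mp hy
      exact Finset.mem_product.mpr ⟨hg x, Finset.mem_univ _⟩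
    have h4 := Finset.card_le_card h3
    rw [Finset.card_product, Finset.card_univ, ZMod.card] at h4
    exact_mod_cast h4
  -- the final estimate
  have hd0 : (0 : ℝ) < d := by exact_mod_cast hd
  have hd1 : (1 : ℝ) ≤ d := by exact_mod_cast hd
  have hN1 : (1 : ℝ) ≤ N := by exact_mod_cast hN
  have hC2r : (1 : ℝ) ≤ C2 := by exact_mod_cast hC21
  have hpow : (N₁ : ℝ) ^ ((16 : ℝ) / d) ≤ (C2 : ℝ) ^ 16 * (N : ℝ) ^ ((C : ℝ) / d) := by
    rw [hN₁]
    push_cast
    rw [Real.mul_rpow (by positivity) (by positivity)]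
    refine mul_le_mul ?_ ?_ (by positivity) (by positivity)
    · rw [← Real.rpow_natCast]
      apply Real.rpow_le_rpow_of_exponent_le hC2r
      rw [div_le_iff₀ hd0]
      push_cast
      nlinarith
    · rw [← Real.rpow_natCast, ← Real.rpow_mul (by positivity)]
      apply Real.rpow_le_rpow_of_exponent_le hN1
      rw [mul_div_assoc', div_le_div_iff_of_pos_right hd0]
      have : 16 * e ≤ C := by omega
      have h5 : ((16 * e : ℕ) : ℝ) ≤ C := by exact_mod_cast this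
      push_cast at h5
      linarith
  have hK : (e * (G.card * p) * (256 * p * C₀ * C2 ^ 16) : ℕ) ≤ C := by omega
  have hKr : ((e * (G.card * p) * (256 * p * C₀ * C2 ^ 16) : ℕ) : ℝ) ≤ C := by exact_mod_cast hK
  calc (T.card : ℝ) ≤ e * R.card := by exact_mod_cast hfib
    _ ≤ e * ((G.card * p : ℕ) * n₀) := by gcongr
    _ ≤ e * ((G.card * p : ℕ) * (256 * p * C₀ * (d : ℝ) ^ 2 *
          ((C2 : ℝ) ^ 16 * (N : ℝ) ^ ((C : ℝ) / d)))) := by
        rw [hn₀]
        exact mul_le_mul_of_nonneg_left (mul_le_mul_of_nonneg_left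
          (mul_le_mul_of_nonneg_left hpow (mul_nonneg (mul_nonneg (mul_nonneg (by norm_num)
            (Nat.cast_nonneg _)) (Nat.cast_nonneg _)) (pow_nonneg hd0.le _)))
            (Nat.cast_nonneg _)) (Nat.cast_nonneg _)
    _ = ((e * (G.card * p) * (256 * p * C₀ * C2 ^ 16) : ℕ) : ℝ) * (d : ℝ) ^ 2 *
          (N : ℝ) ^ ((C : ℝ) / d) := by push_cast; ring
    _ ≤ C * (d : ℝ) ^ 2 * (N : ℝ) ^ ((C : ℝ) / d) := by gcongr

end Pool.Agent.Lib.MP_3550b5_nt.Vr
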