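import Pool.Agent.Lib.MP_3550b5_nt.TP.Ver.SeqD
import Pool.Agent.Lib.MP_3550b5_nt.TP.Ver.Fro
import Pool.Agent.Lib.MP_3550b5_nt.Hasse

/-!
The multiplication by `p` modulo `p` is `h ^ p = h(X ^ p)` with `h` etale, for nonzero Hasse
invariant.
-/

namespace Pool.Agent.Lib.MP_3550b5_nt.Vr

open PowerSeries

variable {p : ℕ} [hp : Fact p.Prime]

/-- `G ^ q` has only one coefficient of index `p - 1` modulo `p`, the Hasse invariant. -/
theorem sec_G {q : ℕ} (hpq : p = 2 * q + 1) (a b : ZMod p) :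
    sec p (p - 1) (gg (C a) (C b) (X : (ZMod p)⟦X⟧) ^ q) = C ((hasseRev a b q).coeff q) := by
  have h1 : gg (C a) (C b) (X : (ZMod p)⟦X⟧) ^ q =
      X ^ q * ((hasseRev a b q : Polynomial (ZMod p)) : (ZMod p)⟦X⟧) := by
    rw [hasseRev, gg]
    push_cast
    rw [← mul_pow]
    congr 1
    ring
  ext n
  rw [sec, coeff_mk, h1]
  have h2 : p * n + (p - 1) = (p * n + q) + q := by omega
  rw [h2, coeff_X_pow_mul, Polynomial.coeff_coe, coeff_C]
  split_ifs with h3
  · rw [h3, mul_zero, zero_add]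
  · apply Polynomial.coeff_eq_zero_of_natDegree_lt
    have h4 := hasseRev_natDegree a b q
    have h5 : p * 1 ≤ p * n := Nat.mul_le_mul_left p (Nat.one_le_iff_ne_zero.2 h3)
    omega

private theorem ety_deriv_map {f : ℤ_[p]⟦X⟧} :
    derivative (ZMod p) (PowerSeries.map PadicInt.toZMod f) =
      PowerSeries.map PadicInt.toZMod (derivative ℤ_[p] f) := by
  ext n
  rw [coeff_derivative, coeff_map, coeff_map, coeff_derivative, map_mul, map_add, map_natCast,
    map_one]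

private theorem ety_p_zero : ((p : ℕ) : (ZMod p)⟦X⟧) = 0 := by
  have h : ((p : ℕ) : (ZMod p)⟦X⟧) = C ((p : ℕ) : ZMod p) :=
    (map_natCast (C : ZMod p →+* (ZMod p)⟦X⟧) p).symm
  rw [h, CharP.cast_eq_zero, map_zero]

private theorem ety_gg_pow (a b : ZMod p) (h : (ZMod p)⟦X⟧) :
    gg (C a) (C b) (h ^ p) = gg (C a) (C b) h ^ p := by
  have : CharP (ZMod p)⟦X⟧ p :=
    charP_of_injective_ringHom (f := (C : ZMod p →+* (ZMod p)⟦X⟧)) PowerSeries.C_injective p
  rw [gg, gg, add_pow_char, add_pow_char, mul_pow, mul_pow, ← map_pow, ← map_pow, ZMod.pow_card,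
    ZMod.pow_card]
  ring

/-- `M_p' = p N` with `G N = T_p`. Modulo `p`: `M_p = h ^ p`; `(T G ^ q) ^ 2 = (G G(h)) ^ p`, so
`T G ^ q = θ ^ p` with `θ ^ 2 = G G(h)`; the coefficient of index `p j - 1` of `N` is `j h_j`, and
`N G ^ p = θ ^ p G ^ q`; take the sections of residue `p - 1`. -/
theorem exists_h_theta {q : ℕ} (hpq : p = 2 * q + 1) (hq : 1 ≤ q) {a b : ℤ_[p]}
    {M T : ℕ → ℤ_[p]⟦X⟧} (hMT : IsMT a b M T) :
    ∃ h θ : (ZMod p)⟦X⟧, PowerSeries.map PadicInt.toZMod (M p) = h ^ p ∧ constantCoeff h = 0 ∧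
      θ ^ 2 = gg (C (PadicInt.toZMod a)) (C (PadicInt.toZMod b)) X *
        gg (C (PadicInt.toZMod a)) (C (PadicInt.toZMod b)) h ∧
      gg (C (PadicInt.toZMod a)) (C (PadicInt.toZMod b)) X * derivative (ZMod p) h =
        C ((hasseRev (PadicInt.toZMod a) (PadicInt.toZMod b) q).coeff q) * θ := by
  have hp0 : p ≠ 0 := hp.out.ne_zero
  -- the series `N`
  obtain ⟨N, hN1, hN2⟩ : ∃ N : ℤ_[p]⟦X⟧, derivative ℤ_[p] (M p) = (p : ℤ_[p]⟦X⟧) * N ∧
      gg (C a) (C b) X * N = T p := by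
    obtain ⟨T', hT'⟩ := PowerSeries.X_dvd_iff.2 (hMT.T_const p)
    have hu : constantCoeff (1 + C a * X ^ 2 + C b * X ^ 3 : ℤ_[p]⟦X⟧) = 1 := by simp
    obtain ⟨u', hu'⟩ := exists_inv hu
    have hG : gg (C a) (C b) (X : ℤ_[p]⟦X⟧) = X * (1 + C a * X ^ 2 + C b * X ^ 3) := by
      rw [gg]; ring
    have h1 := hMT.dM p
    rw [hG, hT'] at h1
    have h2 : (1 + C a * X ^ 2 + C b * X ^ 3) * derivative ℤ_[p] (M p) =
        (p : ℤ_[p]⟦X⟧) * T' := by
      apply mul_left_cancel₀ (PowerSeries.X_ne_zero (R := ℤ_[p]))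
      linear_combination h1
    refine ⟨u' * T', ?_, ?_⟩
    · linear_combination u' * h2 - derivative ℤ_[p] (M p) * hu'
    · rw [hG, hT']
      linear_combination X * T' * hu'
  set φ : ℤ_[p] →+* ZMod p := PadicInt.toZMod with hφ
  set G : (ZMod p)⟦X⟧ := gg (C (φ a)) (C (φ b)) X with hGdef
  have hGmap : PowerSeries.map φ (gg (C a) (C b) X) = G := by
    rw [hGdef, gg, gg]
    simp
  have hNbar : G * PowerSeries.map φ N = PowerSeries.map φ (T p) := by
    rw [← hGmap, ← map_mul, hN2]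
  have hd : derivative (ZMod p) (PowerSeries.map φ (M p)) = 0 := by
    rw [ety_deriv_map, hN1, map_mul, map_natCast, ety_p_zero, zero_mul]
  obtain ⟨h, hh⟩ := exists_pow_of_derivative hd
  have hh0 : constantCoeff h = 0 := by
    have h1 : constantCoeff (PowerSeries.map φ (M p)) = 0 := (hMT.map φ).M_const p
    rw [hh, map_pow] at h1
    exact pow_eq_zero_iff hp0 |>.1 h1
  -- the square
  have hsq : PowerSeries.map φ (T p) ^ 2 = G * gg (C (φ a)) (C (φ b)) (h ^ p) := by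
    rw [← hh]
    exact (hMT.map φ).sq p
  have hF : (PowerSeries.map φ (T p) * G ^ q) ^ 2 = (G * gg (C (φ a)) (C (φ b)) h) ^ p := by
    rw [mul_pow, hsq, ety_gg_pow, mul_pow]
    have h1 : G ^ p = G * (G ^ q) ^ 2 := by
      have h0 : G ^ p = G ^ (2 * q + 1) := congrArg (fun k : ℕ => G ^ k) hpq
      rw [h0]
      ring
    rw [h1]
    ring
  have h2ne : (2 : (ZMod p)⟦X⟧) ≠ 0 := by
    have h1 : (2 : (ZMod p)⟦X⟧) = C (2 : ZMod p) := (map_ofNat (C : ZMod p →+* (ZMod p)⟦X⟧) 2).symm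
    rw [h1, Ne, ← map_zero (C : ZMod p →+* (ZMod p)⟦X⟧), PowerSeries.C_injective.eq_iff]
    have h2 : ((2 : ℕ) : ZMod p) ≠ 0 := by
      rw [Ne, ZMod.natCast_eq_zero_iff]
      intro h3
      have h4 := Nat.le_of_dvd (by norm_num) h3
      omega
    exact_mod_cast h2
  have hFd : derivative (ZMod p) (PowerSeries.map φ (T p) * G ^ q) = 0 := by
    have h1 : derivative (ZMod p) ((PowerSeries.map φ (T p) * G ^ q) ^ 2) = 0 := by
      rw [hF]
      exact derivative_pow_p _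
    generalize PowerSeries.map φ (T p) * G ^ q = F at h1
    rw [pow_two, Derivation.leibniz, smul_eq_mul, ← two_mul] at h1
    rcases mul_eq_zero.1 h1 with h3 | h3
    · exact absurd h3 h2ne
    · rcases mul_eq_zero.1 h3 with h4 | h4
      · rw [h4, map_zero]
      · exact h4
  obtain ⟨θ, hθ⟩ := exists_pow_of_derivative hFd
  have hθ2 : θ ^ 2 = G * gg (C (φ a)) (C (φ b)) h := by
    apply pow_inj (p := p)
    rw [← hF, hθ]
    ring
  refine ⟨h, θ, hh, hh0, hθ2, ?_⟩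
  -- the sections
  have hsN : sec p (p - 1) (PowerSeries.map φ N) = derivative (ZMod p) h := by
    ext n
    rw [sec, coeff_mk, coeff_map, coeff_derivative]
    have h1 := congrArg (coeff (p * n + (p - 1))) hN1
    have h2 : p * n + (p - 1) + 1 = p * (n + 1) := by
      have := hp.out.one_lt
      rw [mul_add, mul_one]
      omega
    rw [coeff_derivative, h2] at h1
    have h3 : ((p : ℕ) : ℤ_[p]⟦X⟧) = C ((p : ℕ) : ℤ_[p]) := by simp
    rw [h3, coeff_C_mul] at h1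
    have h4 : ((p * n + (p - 1) : ℕ) : ℤ_[p]) + 1 = (p : ℤ_[p]) * ((n : ℤ_[p]) + 1) := by
      have h5 : ((p * n + (p - 1) + 1 : ℕ) : ℤ_[p]) = ((p * (n + 1) : ℕ) : ℤ_[p]) := by rw [h2]
      push_cast at h5 ⊢
      exact h5
    rw [h4] at h1
    have hpne : ((p : ℕ) : ℤ_[p]) ≠ 0 := Nat.cast_ne_zero.2 hp0
    have h6 : coeff (p * n + (p - 1)) N = coeff (p * (n + 1)) (M p) * ((n : ℤ_[p]) + 1) := by
      apply mul_left_cancel₀ hpne
      linear_combination -h1
    rw [h6, map_mul, map_add, map_natCast, map_one, ← coeff_map, hh, coeff_pow_p,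
      if_pos (dvd_mul_right p (n + 1)), Nat.mul_div_cancel_left _ hp.out.pos]
  have h1 : PowerSeries.map φ N * G ^ p = G ^ q * θ ^ p := by
    rw [← hθ, ← hNbar]
    have h2 : G ^ p = G * (G ^ q) ^ 2 := by
      have h0 : G ^ p = G ^ (2 * q + 1) := congrArg (fun k : ℕ => G ^ k) hpq
      rw [h0]
      ring
    rw [h2]
    ring
  have h2 := congrArg (sec p (p - 1)) h1
  rw [sec_mul_pow (Nat.sub_lt hp.out.pos one_pos), sec_mul_pow (Nat.sub_lt hp.out.pos one_pos), hsN,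
    sec_G hpq] at h2
  rw [← h2]
  ring

end Pool.Agent.Lib.MP_3550b5_nt.Vr
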