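import Pool.Agent.Lib.MP_3550b5_nt.TP.Ver.DataV

/-! TWIST POINTS with exponent `2`: assembly. -/

namespace Pool.Agent.Lib.MP_3550b5_nt.Vr

open PowerSeries

theorem count_levels2 {p : ℕ} [Fact p.Prime] (hp : 5 ≤ p) {a b : ℤ}
    (hord : GoodOrdinary p a b) :
    ∃ C : ℕ, 1 ≤ C ∧ ∀ (d : ℕ) (v : ℚ_[p]) (N l : ℕ) (T : Finset ℚ), 1 ≤ d → 1 ≤ N →
      (C ^ d * N) ^ (C * d ^ 3) ≤ p ^ l →
      (∀ x ∈ T, |x.num| ≤ N ∧ x.den ≤ N ∧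
        ∃ v', HeightAt p a b x v' ∧ ‖v' - v‖ ≤ (p : ℝ) ^ (-(l : ℤ))) →
      (T.card : ℝ) ≤ C * (d : ℝ) ^ 2 * (N : ℝ) ^ ((C : ℝ) / d) := by
  classical
  by_cases hex : ∃ (D : ℤ) (σ : ℤ_[p]⟦X⟧), ¬ (p : ℤ) ∣ D ∧
      IsMazurTateSigma p ((a * D ^ 2 : ℤ) : ℤ_[p]) ((b * D ^ 3 : ℤ) : ℤ_[p]) σ
  swap
  · refine ⟨1, le_rfl, fun d v N l T _ _ _ hT => ?_⟩
    have h0 : T = ∅ := by
      rw [Finset.eq_empty_iff_forall_notMem]
      intro x hx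
      obtain ⟨-, -, v', ⟨D, -, hD, P, y, h, -, -, B, hB, -⟩, -⟩ := hT x hx
      obtain ⟨σ, hσ, -⟩ := hB.formula
      exact hex ⟨D, σ, hD, hσ⟩
    rw [h0]
    simp only [Finset.card_empty, Nat.cast_zero]
    positivity
  obtain ⟨c, U, hU, hsig⟩ := sigma_twists hp hord hex
  obtain ⟨k, φ, ψ, G, hk, hφ, hφd, hψ, hψd, hG, hmul⟩ := twist_multiples hp hord
  obtain ⟨C₀, hC₀⟩ := zeros_near2 hp hord hU
  have hZ : ZB2 p U C₀ := hC₀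
  refine count_data hZ (e := k ^ 2) (Nat.one_le_pow _ _ hk) hφ hφd hψ hψd G hG
    (fun (v : ℚ_[p]) (l : ℕ) =>
      {x : ℚ | ∃ v', HeightAt p a b x v' ∧ ‖v' - v‖ ≤ (p : ℝ) ^ (-(l : ℤ))}) fun v l => ?_
  by_cases hne : ∃ x v', HeightAt p a b x v' ∧ ‖v' - v‖ ≤ (p : ℝ) ^ (-(l : ℤ))
  swap
  · refine ⟨1, isUnit_one, fun x hx => ?_⟩
    obtain ⟨v', hx⟩ := hx
    exact absurd ⟨x, v', hx⟩ hne
  obtain ⟨x₀, v₀, hx₀, hvv₀⟩ := hne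
  obtain ⟨g₀, hg₀, hφ₀, hψ₀, h₀⟩ := heightAt_data hU.1 hsig hmul hx₀
  obtain ⟨Φ₀, hΦ₀⟩ : ∃ Φi : ℤ_[p],
      ((hform (k ^ 2) φ x₀.num x₀.den : ℤ) : ℤ_[p]) * Φi = 1 := by
    obtain ⟨u, hu⟩ := isUnit_intCast hφ₀
    exact ⟨_, by rw [← hu]; exact u.mul_inv⟩
  obtain ⟨hu₀, hv₀⟩ := h₀ Φ₀ hΦ₀
  refine ⟨_, hu₀.pow (p - 1), fun x hx => ?_⟩
  obtain ⟨v', hx, hvv'⟩ := hx
  obtain ⟨g, hg, h1, h2, h3⟩ := heightAt_data hU.1 hsig hmul hx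
  refine ⟨g, hg, h1, h2, fun Φi hΦi => ?_⟩
  obtain ⟨hu, hv⟩ := h3 Φi hΦi
  refine ⟨hu, pow_dvd_of_ulog (by omega) hu hu₀ ?_⟩
  rw [← hv, ← hv₀, ← mul_sub, norm_mul]
  have e1 : ‖(2 * (k : ℚ_[p]) ^ 2)‖ ≤ 1 := by
    have := Padic.norm_int_le_one (p := p) (2 * (k : ℤ) ^ 2)
    simpa using this
  have e2 : ‖v' - v₀‖ ≤ (p : ℝ) ^ (-(l : ℤ)) := by
    have h4 : v' - v₀ = (v' - v) + -(v₀ - v) := by ring
    rw [h4]
    refine (Padic.nonarchimedean _ _).trans (max_le hvv' ?_)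
    rw [norm_neg]; exact hvv₀
  calc ‖(2 * (k : ℚ_[p]) ^ 2)‖ * ‖v' - v₀‖ ≤ 1 * ‖v' - v₀‖ := by gcongr
    _ ≤ _ := by rw [one_mul]; exact e2

/-- The count, uniformly in the degree `d` of the auxiliary polynomials. -/
theorem twist_points_deg2 {p : ℕ} [Fact p.Prime] (hp : 5 ≤ p) {a b : ℤ}
    (hord : GoodOrdinary p a b) :
    ∃ C : ℕ, 1 ≤ C ∧ ∀ (d : ℕ) (v : ℚ_[p]) (N : ℕ) (T : Finset ℚ), 1 ≤ d → 1 ≤ N →
      (∀ x ∈ T, |x.num| ≤ N ∧ x.den ≤ N ∧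
        ∃ v', HeightAt p a b x v' ∧ ‖v' - v‖ * ((C : ℝ) ^ d * N) ^ (C * d ^ 3) ≤ 1) →
      (T.card : ℝ) ≤ C * (d : ℝ) ^ 2 * (N : ℝ) ^ ((C : ℝ) / d) := by
  obtain ⟨C, hC1, hC⟩ := count_levels2 hp hord
  have hp1 : 1 < p := (Fact.out : p.Prime).one_lt
  have hp0 : 0 < p := by omega
  refine ⟨p * C, Nat.mul_pos hp0 hC1, fun d v N T hd hN hT => ?_⟩
  have hCd0 : 0 < C ^ d := pow_pos hC1 _
  have hX : 1 ≤ (C ^ d * N) ^ (C * d ^ 3) := Nat.one_le_pow _ _ (Nat.mul_pos hCd0 hN)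
  obtain ⟨l, hl0, hl1, hl2⟩ := exists_pow_gt (p := p) ((C ^ d * N) ^ (C * d ^ 3)) hX le_rfl
  rw [mul_one] at hl1 hl2
  have hd3 : 1 ≤ d ^ 3 := Nat.one_le_pow _ _ hd
  have hCd : 1 ≤ C * d ^ 3 := Nat.mul_pos hC1 hd3
  have hbig : p ^ l ≤ ((p * C) ^ d * N) ^ (p * C * d ^ 3) := by
    calc p ^ l = p * p ^ (l - 1) := by rw [← pow_succ', Nat.sub_add_cancel hl0]
      _ ≤ p ^ (C * d ^ 3) * (C ^ d * N) ^ (C * d ^ 3) :=
          Nat.mul_le_mul (Nat.le_self_pow (by omega) p) hl2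
      _ = (p * (C ^ d * N)) ^ (C * d ^ 3) := (mul_pow _ _ _).symm
      _ ≤ ((p * C) ^ d * N) ^ (C * d ^ 3) := by
          apply Nat.pow_le_pow_left
          rw [mul_pow, ← mul_assoc]
          exact Nat.mul_le_mul_right _ (Nat.mul_le_mul_right _ (Nat.le_self_pow (by omega) p))
      _ ≤ ((p * C) ^ d * N) ^ (p * C * d ^ 3) := by
          apply Nat.pow_le_pow_right
          · exact Nat.mul_pos (pow_pos (Nat.mul_pos hp0 hC1) _) hN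
          · exact Nat.mul_le_mul_right _ (Nat.le_mul_of_pos_left _ hp0)
  have h1 := hC d v N l T hd hN hl1.le fun x hx => by
    obtain ⟨h2, h3, v', h4, h5⟩ := hT x hx
    refine ⟨h2, h3, v', h4, ?_⟩
    have h6 : ((p : ℝ) ^ l) ≤ (((p * C : ℕ) : ℝ) ^ d * N) ^ (p * C * d ^ 3) := by
      exact_mod_cast hbig
    have h7 : ‖v' - v‖ * (p : ℝ) ^ l ≤ 1 :=
      (mul_le_mul_of_nonneg_left h6 (norm_nonneg _)).trans h5
    have hpr : (0 : ℝ) < p := by exact_mod_cast hp0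
    rw [zpow_neg, zpow_natCast, ← one_div, le_div_iff₀ (by positivity)]
    exact h7
  refine h1.trans ?_
  have hN1 : (1 : ℝ) ≤ N := by exact_mod_cast hN
  have hCp : (C : ℝ) ≤ ((p * C : ℕ) : ℝ) := by
    exact_mod_cast Nat.le_mul_of_pos_left _ hp0
  have hd0 : (0 : ℝ) < d := by exact_mod_cast hd
  have h2 : (N : ℝ) ^ ((C : ℝ) / d) ≤ (N : ℝ) ^ (((p * C : ℕ) : ℝ) / d) := by
    apply Real.rpow_le_rpow_of_exponent_le hN1
    gcongr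
  gcongr

/-- TWIST POINTS with exponent `2`. -/
theorem twist_points_sq {p : ℕ} [Fact p.Prime] (hp : 5 ≤ p) {a b : ℤ}
    (hord : GoodOrdinary p a b) :
    ∃ C : ℝ, 0 < C ∧ ∀ (v : ℚ_[p]) (N : ℕ) (T : Finset ℚ), 2 ≤ N →
      (∀ x ∈ T, |x.num| ≤ N ∧ x.den ≤ N ∧
        ∃ v', HeightAt p a b x v' ∧ ‖v' - v‖ ≤ Real.exp (-(C * Real.log N ^ 4))) →
      (T.card : ℝ) ≤ C * Real.log N ^ 2 := by
  obtain ⟨C, hC1, hC⟩ := twist_points_deg2 hp hord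
  have hCr : (1 : ℝ) ≤ C := by exact_mod_cast hC1
  have hC0 : (0 : ℝ) < C := by linarith
  set K : ℝ := C * 3 ^ 3 * Real.exp C + C * 3 ^ 3 * (3 * Real.log C + 1) with hK
  have hlogC : 0 ≤ Real.log C := Real.log_nonneg hCr
  have hK1 : C * 3 ^ 3 * Real.exp C ≤ K := by
    rw [hK]
    have : 0 ≤ (C : ℝ) * 3 ^ 3 * (3 * Real.log C + 1) := by positivity
    linarith
  have hK2 : C * 3 ^ 3 * (3 * Real.log C + 1) ≤ K := by
    rw [hK]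
    have : 0 ≤ (C : ℝ) * 3 ^ 3 * Real.exp C := by positivity
    linarith
  have hK0 : 0 < K := by
    have : 0 < (C : ℝ) * 3 ^ 3 * Real.exp C := by positivity
    linarith
  refine ⟨K, hK0, fun v N T hN hT => ?_⟩
  have hN2 : (2 : ℝ) ≤ N := by exact_mod_cast hN
  have hN0 : (0 : ℝ) < N := by linarith
  set y := Real.log N with hy
  have hy0 : 0.69 ≤ y := by
    have h1 : Real.log 2 ≤ Real.log N := Real.log_le_log (by norm_num) hN2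
    have h2 := Real.log_two_gt_d9
    linarith
  set d := ⌊y⌋₊ + 1 with hd
  have hdy : y ≤ d := by
    rw [hd]; push_cast; exact (Nat.lt_floor_add_one y).le
  have hdy3 : (d : ℝ) ≤ 3 * y := by
    rw [hd]; push_cast
    have := Nat.floor_le (show (0 : ℝ) ≤ y by linarith)
    linarith
  have hd0 : (0 : ℝ) < d := by linarith
  have h1 := hC d v N T (by omega) (by omega) fun x hx => by
    obtain ⟨h2, h3, v', h4, h5⟩ := hT x hx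
    refine ⟨h2, h3, v', h4, ?_⟩
    have h6 : ((C : ℝ) ^ d * N) ^ (C * d ^ 3) ≤ Real.exp (K * y ^ 4) := by
      have e1 : ((C : ℝ) ^ d * N) = Real.exp (d * Real.log C + y) := by
        rw [Real.exp_add, Real.exp_nat_mul, Real.exp_log hC0, hy, Real.exp_log hN0]
      rw [e1, ← Real.exp_nat_mul]
      apply Real.exp_le_exp.mpr
      push_cast
      have e2 : d * Real.log C + y ≤ (3 * Real.log C + 1) * y := by nlinarith
      have e3 : (d : ℝ) ^ 3 ≤ (3 * y) ^ 3 := by gcongr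
      have e4 : 0 ≤ (d : ℝ) * Real.log C + y := by positivity
      calc (C : ℝ) * (d : ℝ) ^ 3 * (d * Real.log C + y) ≤
            C * (3 * y) ^ 3 * ((3 * Real.log C + 1) * y) := by gcongr
        _ = C * 3 ^ 3 * (3 * Real.log C + 1) * y ^ 4 := by ring
        _ ≤ K * y ^ 4 := by gcongr
    calc ‖v' - v‖ * ((C : ℝ) ^ d * N) ^ (C * d ^ 3) ≤
          Real.exp (-(K * y ^ 4)) * Real.exp (K * y ^ 4) := by gcongr
      _ = 1 := by rw [← Real.exp_add]; simp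
  refine h1.trans ?_
  have h2 : (N : ℝ) ^ ((C : ℝ) / d) ≤ Real.exp C := by
    rw [Real.rpow_def_of_pos hN0, ← hy]
    apply Real.exp_le_exp.mpr
    rw [mul_div_assoc', div_le_iff₀ hd0]
    nlinarith
  calc (C : ℝ) * (d : ℝ) ^ 2 * (N : ℝ) ^ ((C : ℝ) / d) ≤ C * (3 * y) ^ 2 * Real.exp C := by
        gcongr
    _ = C * 3 ^ 2 * Real.exp C * y ^ 2 := by ring
    _ ≤ (C * 3 ^ 3 * Real.exp C) * y ^ 2 := by gcongr <;> norm_num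
    _ ≤ K * y ^ 2 := by gcongr

end Pool.Agent.Lib.MP_3550b5_nt.Vr
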