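import Pool.Agent.Lib.MP_3550b5_nt.TP.Ver.FinV
import Pool.Agent.Lib.MP_3550b5_nt.TP.Ver.CurveV

/-! TWIST POINTS with exponent `2`: one statement about the exceptional set. -/

namespace Pool.Agent.Lib.MP_3550b5_nt.Vr

open PowerSeries

theorem curve_levels {p : ℕ} [Fact p.Prime] (hp : 5 ≤ p) {a b : ℤ}
    (hord : GoodOrdinary p a b) :
    ∃ C : ℕ, 1 ≤ C ∧ ∀ (d : ℕ) (v : ℚ_[p]) (N l : ℕ) (Q : MvPolynomial (Fin 2) ℚ_[p])
      (T : Finset ℚ), 1 ≤ d → 1 ≤ N → (C * N) ^ (C * d ^ 2) ≤ p ^ l → Q ≠ 0 →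
      Q.totalDegree ≤ d →
      (∀ x ∈ T, |x.num| ≤ N ∧ x.den ≤ N ∧
        (∃ v', HeightAt p a b x v' ∧ ‖v' - v‖ ≤ (p : ℝ) ^ (-(l : ℤ))) ∧
        MvPolynomial.eval ![(x.num : ℚ_[p]), (x.den : ℚ_[p])] Q = 0) →
      T.card ≤ C * d ^ 2 := by
  classical
  by_cases hex : ∃ (D : ℤ) (σ : ℤ_[p]⟦X⟧), ¬ (p : ℤ) ∣ D ∧
      IsMazurTateSigma p ((a * D ^ 2 : ℤ) : ℤ_[p]) ((b * D ^ 3 : ℤ) : ℤ_[p]) σ
  swap
  · refine ⟨1, le_rfl, fun d v N l Q T _ _ _ _ _ hT => ?_⟩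
    have h0 : T = ∅ := by
      rw [Finset.eq_empty_iff_forall_notMem]
      intro x hx
      obtain ⟨-, -, ⟨v', ⟨D, -, hD, P, y, h, -, -, B, hB, -⟩, -⟩, -⟩ := hT x hx
      obtain ⟨σ, hσ, -⟩ := hB.formula
      exact hex ⟨D, σ, hD, hσ⟩
    rw [h0]
    simp
  obtain ⟨c, U, hU, hsig⟩ := sigma_twists hp hord hex
  obtain ⟨k, φ, ψ, G, hk, hφ, hφd, hψ, hψd, hG, hmul⟩ := twist_multiples hp hord
  obtain ⟨C₀, hC₀⟩ := zeros_near2 hp hord hU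
  have hZ : ZB2 p U C₀ := hC₀
  refine curve_data hZ (e := k ^ 2) (Nat.one_le_pow _ _ hk) hφ hφd hψ hψd G hG
    (fun (v : ℚ_[p]) (l : ℕ) =>
      {x : ℚ | ∃ v', HeightAt p a b x v' ∧ ‖v' - v‖ ≤ (p : ℝ) ^ (-(l : ℤ))}) fun v l => ?_
  by_cases hne : ∃ x v', HeightAt p a b x v' ∧ ‖v' - v‖ ≤ (p : ℝ) ^ (-(l : ℤ))
  swap
  · refine ⟨1, isUnit_one, fun x hx => ?_⟩
    obtain ⟨v', hx⟩ := hx
    exact absurd ⟨x, v', hx⟩ hne
  obtain ⟨x₀, v₀, hx₀, hvv₀⟩ := hne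
  obtain ⟨g₀, hg₀, hφ₀, hψ₀, h₀⟩ := heightAt_data hU.1 hsig hmul hx₀
  obtain ⟨Φ₀, hΦ₀⟩ : ∃ Φi : ℤ_[p],
      ((hform (k ^ 2) φ x₀.num x₀.den : ℤ) : ℤ_[p]) * Φi = 1 := by
    obtain ⟨u, hu⟩ := isUnit_intCast hφ₀
    exact ⟨_, by rw [← hu]; exact u.mul_inv⟩
  obtain ⟨hu₀, hv₀⟩ := h₀ Φ₀ hΦ₀
  refine ⟨_, hu₀.pow (p - 1), fun x hx => ?_⟩
  obtain ⟨v', hx, hvv'⟩ := hx
  obtain ⟨g, hg, h1, h2, h3⟩ := heightAt_data hU.1 hsig hmul hx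
  refine ⟨g, hg, h1, h2, fun Φi hΦi => ?_⟩
  obtain ⟨hu, hv⟩ := h3 Φi hΦi
  refine ⟨hu, pow_dvd_of_ulog (by omega) hu hu₀ ?_⟩
  rw [← hv, ← hv₀, ← mul_sub, norm_mul]
  have e1 : ‖(2 * (k : ℚ_[p]) ^ 2)‖ ≤ 1 := by
    have := Padic.norm_int_le_one (p := p) (2 * (k : ℤ) ^ 2)
    simpa using this
  have e2 : ‖v' - v₀‖ ≤ (p : ℝ) ^ (-(l : ℤ)) := by
    have h4 : v' - v₀ = (v' - v) + -(v₀ - v) := by ring
    rw [h4]
    refine (Padic.nonarchimedean _ _).trans (max_le hvv' ?_)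
    rw [norm_neg]; exact hvv₀
  calc ‖(2 * (k : ℚ_[p]) ^ 2)‖ * ‖v' - v₀‖ ≤ 1 * ‖v' - v₀‖ := by gcongr
    _ ≤ _ := by rw [one_mul]; exact e2

/-- The points on a curve of degree `d`. -/
theorem twist_curve_deg {p : ℕ} [Fact p.Prime] (hp : 5 ≤ p) {a b : ℤ}
    (hord : GoodOrdinary p a b) :
    ∃ C : ℕ, 1 ≤ C ∧ ∀ (d : ℕ) (v : ℚ_[p]) (N : ℕ) (Q : MvPolynomial (Fin 2) ℚ_[p])
      (T : Finset ℚ), 1 ≤ d → 1 ≤ N → Q ≠ 0 → Q.totalDegree ≤ d →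
      (∀ x ∈ T, |x.num| ≤ N ∧ x.den ≤ N ∧
        (∃ v', HeightAt p a b x v' ∧ ‖v' - v‖ * ((C : ℝ) * N) ^ (C * d ^ 2) ≤ 1) ∧
        MvPolynomial.eval ![(x.num : ℚ_[p]), (x.den : ℚ_[p])] Q = 0) →
      T.card ≤ C * d ^ 2 := by
  obtain ⟨C, hC1, hC⟩ := curve_levels hp hord
  have hp1 : 1 < p := (Fact.out : p.Prime).one_lt
  have hp0 : 0 < p := by omega
  refine ⟨p * C, Nat.mul_pos hp0 hC1, fun d v N Q T hd hN hQ hQd hT => ?_⟩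
  have hX : 1 ≤ (C * N) ^ (C * d ^ 2) := Nat.one_le_pow _ _ (Nat.mul_pos hC1 hN)
  obtain ⟨l, hl0, hl1, hl2⟩ := exists_pow_gt (p := p) ((C * N) ^ (C * d ^ 2)) hX le_rfl
  rw [mul_one] at hl1 hl2
  have hd2 : 1 ≤ d ^ 2 := Nat.one_le_pow _ _ hd
  have hCd : 1 ≤ C * d ^ 2 := Nat.mul_pos hC1 hd2
  have hbig : p ^ l ≤ (p * C * N) ^ (p * C * d ^ 2) := by
    calc p ^ l = p * p ^ (l - 1) := by rw [← pow_succ', Nat.sub_add_cancel hl0]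
      _ ≤ p ^ (C * d ^ 2) * (C * N) ^ (C * d ^ 2) :=
          Nat.mul_le_mul (Nat.le_self_pow (by omega) p) hl2
      _ = (p * C * N) ^ (C * d ^ 2) := by rw [← mul_pow, mul_assoc]
      _ ≤ (p * C * N) ^ (p * C * d ^ 2) := by
          apply Nat.pow_le_pow_right
          · exact Nat.mul_pos (Nat.mul_pos hp0 hC1) hN
          · exact Nat.mul_le_mul_right _ (Nat.le_mul_of_pos_left _ hp0)
  have h1 := hC d v N l Q T hd hN hl1.le hQ hQd fun x hx => by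
    obtain ⟨h2, h3, ⟨v', h4, h5⟩, h8⟩ := hT x hx
    refine ⟨h2, h3, ⟨v', h4, ?_⟩, h8⟩
    have h6 : ((p : ℝ) ^ l) ≤ (((p * C : ℕ) : ℝ) * N) ^ (p * C * d ^ 2) := by
      exact_mod_cast hbig
    have h7 : ‖v' - v‖ * (p : ℝ) ^ l ≤ 1 :=
      (mul_le_mul_of_nonneg_left h6 (norm_nonneg _)).trans h5
    have hpr : (0 : ℝ) < p := by exact_mod_cast hp0
    rw [zpow_neg, zpow_natCast, ← one_div, le_div_iff₀ (by positivity)]
    exact h7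
  exact h1.trans (Nat.mul_le_mul_right _ (Nat.le_mul_of_pos_left _ hp0))

/-- TWIST POINTS, quadratic bounds. -/
theorem twist_points_two {p : ℕ} [Fact p.Prime] (hp : 5 ≤ p) {a b : ℤ}
    (hord : GoodOrdinary p a b) :
    ∃ C : ℝ, 0 < C ∧ ∀ (v : ℚ_[p]) (N : ℕ) (T : Finset ℚ), 2 ≤ N →
      (∀ x ∈ T, |x.num| ≤ N ∧ x.den ≤ N ∧
        ∃ v', HeightAt p a b x v' ∧ ‖v' - v‖ ≤ Real.exp (-(C * Real.log N ^ 4))) →
      (T.card : ℝ) ≤ C * Real.log N ^ 2 ∧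
      ∀ (d : ℕ) (Q : MvPolynomial (Fin 2) ℚ_[p]), Q ≠ 0 → Q.totalDegree ≤ d →
        ∀ S ⊆ T, (∀ x ∈ S, MvPolynomial.eval ![(x.num : ℚ_[p]), (x.den : ℚ_[p])] Q = 0) →
          (S.card : ℝ) ≤ C * (d : ℝ) ^ 2 := by
  obtain ⟨K₁, hK₁, hcount⟩ := twist_points_sq hp hord
  obtain ⟨C₂, hC₂, hcurve⟩ := twist_curve_deg hp hord
  have hCr : (1 : ℝ) ≤ C₂ := by exact_mod_cast hC₂
  have hC0 : (0 : ℝ) < C₂ := by linarith
  have hlogC : 0 ≤ Real.log C₂ := Real.log_nonneg hCr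
  set K₂ : ℝ := C₂ * (3 * Real.log C₂ + 2) with hK₂
  have hK₂0 : 0 < K₂ := by positivity
  refine ⟨K₁ + K₂, by positivity, fun v N T hN hT => ?_⟩
  have hN2 : (2 : ℝ) ≤ N := by exact_mod_cast hN
  have hN0 : (0 : ℝ) < N := by linarith
  set y := Real.log N with hy
  have hy0 : 0.69 ≤ y := by
    have h1 : Real.log 2 ≤ Real.log N := Real.log_le_log (by norm_num) hN2
    have h2 := Real.log_two_gt_d9
    linarith
  have hyp : 0 < y := by linarith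
  have hnear : ∀ K : ℝ, K ≤ K₁ + K₂ → ∀ x ∈ T, |x.num| ≤ N ∧ x.den ≤ N ∧
      ∃ v', HeightAt p a b x v' ∧ ‖v' - v‖ ≤ Real.exp (-(K * y ^ 4)) := by
    intro K hK x hx
    obtain ⟨h3, h4, v', h5, h6⟩ := hT x hx
    refine ⟨h3, h4, v', h5, h6.trans (Real.exp_le_exp.mpr ?_)⟩
    have := mul_le_mul_of_nonneg_right hK (by positivity : 0 ≤ y ^ 4)
    linarith
  have h1 : (T.card : ℝ) ≤ K₁ * y ^ 2 := hcount v N T hN (hnear K₁ (by linarith))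
  refine ⟨h1.trans (by gcongr; linarith), fun d Q hQ hQd S hS hS0 => ?_⟩
  have h3 : (S.card : ℝ) ≤ T.card := by exact_mod_cast Finset.card_le_card hS
  rcases Nat.eq_zero_or_pos d with h0 | h0
  · -- a nonzero constant
    rw [h0] at hQd
    obtain ⟨c, rfl⟩ : ∃ c, Q = MvPolynomial.C c :=
      ⟨_, MvPolynomial.totalDegree_eq_zero_iff_eq_C.mp (Nat.le_zero.mp hQd)⟩
    have h4 : S = ∅ := by
      rw [Finset.eq_empty_iff_forall_notMem]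
      intro x hx
      have h5 := hS0 x hx
      rw [MvPolynomial.eval_C] at h5
      exact hQ (by rw [h5, map_zero])
    rw [h4, h0]
    simp
  rcases le_or_gt (d : ℝ) y with h2 | h2
  · have h4 := hcurve d v N Q S h0 (by omega) hQ hQd fun x hx => by
      obtain ⟨h5, h6, v', h7, h8⟩ := hnear K₂ (by linarith) x (hS hx)
      refine ⟨h5, h6, ⟨v', h7, ?_⟩, hS0 x hx⟩
      have h9 : ((C₂ : ℝ) * N) ^ (C₂ * d ^ 2) ≤ Real.exp (K₂ * y ^ 4) := by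
        have e1 : ((C₂ : ℝ) * N) = Real.exp (Real.log C₂ + y) := by
          rw [Real.exp_add, Real.exp_log hC0, hy, Real.exp_log hN0]
        rw [e1, ← Real.exp_nat_mul]
        apply Real.exp_le_exp.mpr
        push_cast
        have hd0 : (0 : ℝ) ≤ d := Nat.cast_nonneg _
        have e2 : (d : ℝ) ^ 2 ≤ y ^ 2 := by gcongr
        have e3 : y ^ 2 * Real.log C₂ ≤ 3 * Real.log C₂ * y ^ 4 := by
          have h10 : 1 ≤ 3 * y ^ 2 := by nlinarith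
          have h11 : 3 * Real.log C₂ * y ^ 4 = (y ^ 2 * Real.log C₂) * (3 * y ^ 2) := by ring
          rw [h11]
          exact le_mul_of_one_le_right (by positivity) h10
        have e4 : y ^ 2 * y ≤ 2 * y ^ 4 := by
          have h10 : 1 ≤ 2 * y := by linarith
          have h11 : 2 * y ^ 4 = (y ^ 2 * y) * (2 * y) := by ring
          rw [h11]
          exact le_mul_of_one_le_right (by positivity) h10
        calc (C₂ : ℝ) * (d : ℝ) ^ 2 * (Real.log C₂ + y) ≤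
              C₂ * y ^ 2 * (Real.log C₂ + y) := by gcongr
          _ = C₂ * (y ^ 2 * Real.log C₂ + y ^ 2 * y) := by ring
          _ ≤ C₂ * (3 * Real.log C₂ * y ^ 4 + 2 * y ^ 4) := by gcongr
          _ = K₂ * y ^ 4 := by rw [hK₂]; ring
      calc ‖v' - v‖ * ((C₂ : ℝ) * N) ^ (C₂ * d ^ 2) ≤
            Real.exp (-(K₂ * y ^ 4)) * Real.exp (K₂ * y ^ 4) := by gcongr
        _ = 1 := by rw [← Real.exp_add]; simp
    have h5 : (S.card : ℝ) ≤ C₂ * (d : ℝ) ^ 2 := by exact_mod_cast h4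
    refine h5.trans ?_
    have h6 : (C₂ : ℝ) ≤ K₁ + K₂ := by
      have : (C₂ : ℝ) * 1 ≤ C₂ * (3 * Real.log C₂ + 2) := by
        gcongr
        linarith
      linarith
    gcongr
  · have h4 : K₁ * y ^ 2 ≤ (K₁ + K₂) * (d : ℝ) ^ 2 := by
      gcongr
      linarith
    linarith

end Pool.Agent.Lib.MP_3550b5_nt.Vr
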