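import Pool.Agent.Lib.MP_3550b5_nt.TP.Ver.Defs

/-! Rational power series. -/

namespace Pool.Agent.Lib.MP_3550b5_nt.Vr

open PowerSeries

variable {R : Type*} [CommRing R]

theorem RatS.coe (P : Polynomial R) : RatS (P : R⟦X⟧) :=
  ⟨P, 1, by simp, by simp⟩

theorem RatS.const (a : R) : RatS (C a : R⟦X⟧) := by
  have h := RatS.coe (Polynomial.C a)
  rwa [Polynomial.coe_C] at h

theorem RatS.var : RatS (X : R⟦X⟧) := by
  have h := RatS.coe (Polynomial.X : Polynomial R)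
  rwa [Polynomial.coe_X] at h

theorem RatS.zero : RatS (0 : R⟦X⟧) := by
  have h := RatS.coe (0 : Polynomial R)
  rwa [Polynomial.coe_zero] at h

theorem RatS.one : RatS (1 : R⟦X⟧) := by
  have h := RatS.coe (1 : Polynomial R)
  rwa [Polynomial.coe_one] at h

theorem RatS.add {f g : R⟦X⟧} (hf : RatS f) (hg : RatS g) : RatS (f + g) := by
  obtain ⟨A, B, hB, h⟩ := hf
  obtain ⟨A', B', hB', h'⟩ := hg
  refine ⟨A * B' + A' * B, B * B', by rw [Polynomial.mul_coeff_zero, hB, hB', one_mul], ?_⟩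
  rw [Polynomial.coe_add, Polynomial.coe_mul, Polynomial.coe_mul, Polynomial.coe_mul]
  linear_combination (B' : R⟦X⟧) * h + (B : R⟦X⟧) * h'

theorem RatS.mul {f g : R⟦X⟧} (hf : RatS f) (hg : RatS g) : RatS (f * g) := by
  obtain ⟨A, B, hB, h⟩ := hf
  obtain ⟨A', B', hB', h'⟩ := hg
  refine ⟨A * A', B * B', by rw [Polynomial.mul_coeff_zero, hB, hB', one_mul], ?_⟩
  rw [Polynomial.coe_mul, Polynomial.coe_mul]
  linear_combination (B' * g : R⟦X⟧) * h + (A : R⟦X⟧) * h'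

theorem RatS.neg {f : R⟦X⟧} (hf : RatS f) : RatS (-f) := by
  obtain ⟨A, B, hB, h⟩ := hf
  refine ⟨-A, B, hB, ?_⟩
  rw [Polynomial.coe_neg, mul_neg, h]

theorem RatS.sub {f g : R⟦X⟧} (hf : RatS f) (hg : RatS g) : RatS (f - g) := by
  rw [sub_eq_add_neg]
  exact hf.add hg.neg

theorem RatS.pow {f : R⟦X⟧} (hf : RatS f) (n : ℕ) : RatS (f ^ n) := by
  induction n with
  | zero => rw [pow_zero]; exact RatS.one
  | succ n ih => rw [pow_succ]; exact ih.mul hf

theorem RatS.natCast (n : ℕ) : RatS (n : R⟦X⟧) := by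
  induction n with
  | zero => rw [Nat.cast_zero]; exact RatS.zero
  | succ n ih => rw [Nat.cast_succ]; exact ih.add RatS.one

theorem RatS.div {q s f : R⟦X⟧} (hq : RatS q) (hs : RatS s) (h1 : constantCoeff q = 1)
    (h : q * f = s) : RatS f := by
  obtain ⟨A, B, hB, hq⟩ := hq
  obtain ⟨A', B', hB', hs⟩ := hs
  have hA : A.coeff 0 = 1 := by
    have h2 := congrArg constantCoeff hq
    rw [map_mul, h1, mul_one, Polynomial.constantCoeff_coe, Polynomial.constantCoeff_coe,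
      hB] at h2
    exact h2.symm
  refine ⟨A' * B, A * B', by rw [Polynomial.mul_coeff_zero, hA, hB', one_mul], ?_⟩
  rw [Polynomial.coe_mul, Polynomial.coe_mul]
  linear_combination (-(B' * f) : R⟦X⟧) * hq + (B : R⟦X⟧) * hs + (B * B' : R⟦X⟧) * h

theorem RatS.map {S : Type*} [CommRing S] (φ : R →+* S) {f : R⟦X⟧} (hf : RatS f) :
    RatS (PowerSeries.map φ f) := by
  obtain ⟨A, B, hB, h⟩ := hf
  refine ⟨A.map φ, B.map φ, by rw [Polynomial.coeff_map, hB, map_one], ?_⟩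
  rw [Polynomial.polynomial_map_coe, Polynomial.polynomial_map_coe, ← map_mul, h]

/-- Inverses of the series of constant coefficient `1`. -/
theorem exists_inv {q : R⟦X⟧} (h : constantCoeff q = 1) : ∃ q' : R⟦X⟧, q * q' = 1 := by
  have hu : IsUnit q := PowerSeries.isUnit_iff_constantCoeff.mpr (by rw [h]; exact isUnit_one)
  exact ⟨_, hu.mul_val_inv⟩

private theorem RatS.ofNat (n : ℕ) [n.AtLeastTwo] :
    RatS (OfNat.ofNat n : R⟦X⟧) := RatS.natCast n

theorem RatS.gg {a b : R} {f : R⟦X⟧} (hf : RatS f) : RatS (gg (C a) (C b) f) := by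
  unfold Vr.gg
  exact (hf.add ((RatS.const a).mul (hf.pow 3))).add ((RatS.const b).mul (hf.pow 4))

private theorem ratS_gd {a b : R} {f : R⟦X⟧} (hf : RatS f) : RatS (gd (C a) (C b) f) := by
  unfold Vr.gd
  exact (RatS.one.add (((RatS.ofNat 3).mul (RatS.const a)).mul (hf.pow 2))).add
    (((RatS.ofNat 4).mul (RatS.const b)).mul (hf.pow 3))

theorem RatS.QQ {a b : R} {f : R⟦X⟧} (hf : RatS f) : RatS (QQ (C a) (C b) X f) := by
  unfold Vr.QQ
  exact ((RatS.one.sub (((RatS.const a).mul RatS.var).mul hf)).pow 2).sub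
    (((((RatS.ofNat 4).mul (RatS.const b)).mul RatS.var).mul hf).mul (RatS.var.add hf))

private theorem ratS_EE {a b : R} {f : R⟦X⟧} (hf : RatS f) : RatS (EE (C a) (C b) X f) := by
  unfold Vr.EE
  exact ((RatS.one.add (((RatS.const a).mul RatS.var).mul hf)).mul (RatS.var.add hf)).add
    ((((RatS.ofNat 2).mul (RatS.const b)).mul (RatS.var.pow 2)).mul (hf.pow 2))

private theorem ratS_Qr {a b : R} {f : R⟦X⟧} (hf : RatS f) : RatS (Qr (C a) (C b) X f) := by
  unfold Vr.Qr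
  exact ((((RatS.ofNat 2).neg.mul (RatS.const a)).mul hf).mul
    (RatS.one.sub (((RatS.const a).mul RatS.var).mul hf))).sub
    ((((RatS.ofNat 4).mul (RatS.const b)).mul hf).mul
      (((RatS.ofNat 2).mul RatS.var).add hf))

theorem RatS.SS {a b : R} {f g : R⟦X⟧} (hf : RatS f) (hg : RatS g) :
    RatS (SS (C a) (C b) X f g) := by
  unfold Vr.SS
  exact (ratS_EE hf).add ((RatS.ofNat 2).mul hg)

theorem RatS.WW {a b : R} {f g : R⟦X⟧} (hf : RatS f) (hg : RatS g) :
    RatS (WW (C a) (C b) X f g) := by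
  unfold Vr.WW
  have ha : RatS (C a : R⟦X⟧) := RatS.const a
  have hb : RatS (C b : R⟦X⟧) := RatS.const b
  have hX : RatS (X : R⟦X⟧) := RatS.var
  have h1 : RatS (C a * f * (X + f) + (1 + C a * X * f) + 4 * C b * X * f ^ 2 : R⟦X⟧) :=
    (((ha.mul hf).mul (hX.add hf)).add (RatS.one.add ((ha.mul hX).mul hf))).add
      ((((RatS.ofNat 4).mul hb).mul hX).mul (hf.pow 2))
  exact (((hX.gg.mul h1).add ((ratS_gd hX).mul hg)).mul hf.QQ).sub
    (((RatS.SS hf hg).mul hX.gg).mul (ratS_Qr hf))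

end Pool.Agent.Lib.MP_3550b5_nt.Vr
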