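import Pool.Agent.Lib.MP_3550b5_nt.TP.Ver.Rat

/-! The sequences `M n` and `T n`. -/

namespace Pool.Agent.Lib.MP_3550b5_nt.Vr

open PowerSeries

variable {R : Type*} [CommRing R]

private theorem QQ_constX (a b : R) (f : R⟦X⟧) :
    constantCoeff (QQ (C a) (C b) X f) = 1 := by
  simp [QQ]

/-- Existence, by recursion with the inverse of `QQ`, whose constant coefficient is `1`. -/
theorem exists_isMT (a b : R) : ∃ M T : ℕ → R⟦X⟧, IsMT a b M T := by
  have hex : ∀ f : R⟦X⟧, ∃ q' : R⟦X⟧, QQ (C a) (C b) X f * q' = 1 :=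
    fun f => exists_inv (QQ_constX a b f)
  choose iv hiv using hex
  let st : R⟦X⟧ × R⟦X⟧ → R⟦X⟧ × R⟦X⟧ := fun p =>
    (SS (C a) (C b) X p.1 p.2 * iv p.1, WW (C a) (C b) X p.1 p.2 * iv p.1 ^ 2)
  let sq : ℕ → R⟦X⟧ × R⟦X⟧ := fun n => Nat.rec (0, 0) (fun _ p => st p) n
  refine ⟨fun n => (sq n).1, fun n => (sq n).2, rfl, rfl, ?_, ?_⟩
  · intro n
    have h1 : (sq (n + 1)).1 = SS (C a) (C b) X (sq n).1 (sq n).2 * iv (sq n).1 := rfl
    show QQ (C a) (C b) X (sq n).1 * (sq (n + 1)).1 = SS (C a) (C b) X (sq n).1 (sq n).2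
    rw [h1]
    linear_combination (SS (C a) (C b) X (sq n).1 (sq n).2) * hiv (sq n).1
  · intro n
    have h1 : (sq (n + 1)).2 = WW (C a) (C b) X (sq n).1 (sq n).2 * iv (sq n).1 ^ 2 := rfl
    show QQ (C a) (C b) X (sq n).1 ^ 2 * (sq (n + 1)).2 = WW (C a) (C b) X (sq n).1 (sq n).2
    rw [h1]
    linear_combination (WW (C a) (C b) X (sq n).1 (sq n).2) *
      (QQ (C a) (C b) X (sq n).1 * iv (sq n).1 + 1) * hiv (sq n).1

private theorem hom_QQ {A B : Type*} [CommRing A] [CommRing B] (f : A →+* B) (a b r M : A) :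
    f (QQ a b r M) = QQ (f a) (f b) (f r) (f M) := by
  simp only [QQ, map_sub, map_mul, map_add, map_pow, map_one, map_ofNat]

private theorem hom_EE {A B : Type*} [CommRing A] [CommRing B] (f : A →+* B) (a b r M : A) :
    f (EE a b r M) = EE (f a) (f b) (f r) (f M) := by
  simp only [EE, map_mul, map_add, map_pow, map_one, map_ofNat]

private theorem hom_SS {A B : Type*} [CommRing A] [CommRing B] (f : A →+* B) (a b r M T : A) :
    f (SS a b r M T) = SS (f a) (f b) (f r) (f M) (f T) := by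
  simp only [SS, hom_EE, map_mul, map_add, map_ofNat]

private theorem hom_WW {A B : Type*} [CommRing A] [CommRing B] (f : A →+* B) (a b r M T : A) :
    f (WW a b r M T) = WW (f a) (f b) (f r) (f M) (f T) := by
  simp only [WW, hom_SS, hom_QQ, gg, gd, Qr, map_sub, map_mul, map_add, map_pow, map_one,
    map_ofNat, map_neg]

namespace IsMT

theorem map {a b : R} {M T : ℕ → R⟦X⟧} (h : IsMT a b M T) {S : Type*} [CommRing S] (φ : R →+* S) :
    IsMT (φ a) (φ b) (fun n => PowerSeries.map φ (M n)) (fun n => PowerSeries.map φ (T n)) := by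
  refine ⟨?_, ?_, ?_, ?_⟩
  · show PowerSeries.map φ (M 0) = 0
    rw [h.M0, map_zero]
  · show PowerSeries.map φ (T 0) = 0
    rw [h.T0, map_zero]
  · intro n
    have h1 := congrArg (PowerSeries.map φ) (h.hM n)
    rw [map_mul, hom_QQ, hom_SS, map_C, map_C, map_X] at h1
    exact h1
  · intro n
    have h1 := congrArg (PowerSeries.map φ) (h.hT n)
    rw [map_mul, map_pow, hom_QQ, hom_WW, map_C, map_C, map_X] at h1
    exact h1

private theorem consts {a b : R} {M T : ℕ → R⟦X⟧} (h : IsMT a b M T) (n : ℕ) :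
    constantCoeff (M n) = 0 ∧ constantCoeff (T n) = 0 := by
  induction n with
  | zero => simp [h.M0, h.T0]
  | succ n ih =>
    obtain ⟨h1, h2⟩ := ih
    have h3 := congrArg constantCoeff (h.hM n)
    have h4 := congrArg constantCoeff (h.hT n)
    rw [map_mul, QQ_constX, one_mul] at h3
    rw [map_mul, map_pow, QQ_constX, one_pow, one_mul] at h4
    constructor
    · rw [h3]
      simp [SS, EE, h1, h2]
    · rw [h4]
      simp [WW, gg, gd, h1, h2]

theorem M_const {a b : R} {M T : ℕ → R⟦X⟧} (h : IsMT a b M T) (n : ℕ) :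
    constantCoeff (M n) = 0 := (h.consts n).1

theorem T_const {a b : R} {M T : ℕ → R⟦X⟧} (h : IsMT a b M T) (n : ℕ) :
    constantCoeff (T n) = 0 := (h.consts n).2

theorem Q_const {a b : R} {M T : ℕ → R⟦X⟧} (_ : IsMT a b M T) (n : ℕ) :
    constantCoeff (QQ (C a) (C b) X (M n)) = 1 := QQ_constX a b (M n)

private theorem rats {a b : R} {M T : ℕ → R⟦X⟧} (h : IsMT a b M T) (n : ℕ) :
    RatS (M n) ∧ RatS (T n) := by
  induction n with
  | zero =>
    rw [h.M0, h.T0]
    exact ⟨RatS.zero, RatS.zero⟩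
  | succ n ih =>
    obtain ⟨h1, h2⟩ := ih
    refine ⟨RatS.div (RatS.QQ h1) (RatS.SS h1 h2) (QQ_constX a b (M n)) (h.hM n),
      RatS.div ((RatS.QQ h1).pow 2) (RatS.WW h1 h2) ?_ (h.hT n)⟩
    rw [map_pow, QQ_constX, one_pow]

theorem ratM {a b : R} {M T : ℕ → R⟦X⟧} (h : IsMT a b M T) (n : ℕ) : RatS (M n) := (h.rats n).1

theorem ratT {a b : R} {M T : ℕ → R⟦X⟧} (h : IsMT a b M T) (n : ℕ) : RatS (T n) := (h.rats n).2

private theorem c1mul (f g : R⟦X⟧) : coeff 1 (f * g) =
    coeff 1 f * constantCoeff g + constantCoeff f * coeff 1 g := by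
  rw [coeff_mul, Finset.Nat.antidiagonal_succ]
  simp [add_comm]

private theorem ones {a b : R} {M T : ℕ → R⟦X⟧} (h : IsMT a b M T) (n : ℕ) :
    coeff 1 (M n) = (n : R) ^ 2 ∧ coeff 1 (T n) = (n : R) := by
  induction n with
  | zero => simp [h.M0, h.T0]
  | succ n ih =>
    obtain ⟨h1, h2⟩ := ih
    have h3 := congrArg (coeff 1) (h.hM n)
    have h4 := congrArg (coeff 1) (h.hT n)
    have m0 := h.M_const n
    have t0 := h.T_const n
    rw [c1mul, QQ_constX, h.M_const (n + 1), mul_zero, zero_add, one_mul] at h3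
    rw [c1mul, map_pow constantCoeff, QQ_constX, h.T_const (n + 1), mul_zero, zero_add, one_pow,
      one_mul] at h4
    constructor
    · rw [h3]
      have e1 : coeff 1 (2 * T n) = 2 * coeff 1 (T n) := by
        rw [two_mul, map_add, two_mul]
      simp only [SS, EE, map_add, e1, h2]
      simp [c1mul, pow_two, m0, h1]
      ring
    · rw [h4]
      simp only [WW]
      rw [map_sub, c1mul, c1mul (SS _ _ _ _ _ * gg _ _ _), c1mul (SS _ _ _ _ _) (gg _ _ _)]
      have e1 : constantCoeff (gg (C a) (C b) (X : R⟦X⟧)) = 0 := by simp [gg]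
      have e2 : constantCoeff (gd (C a) (C b) (X : R⟦X⟧)) = 1 := by simp [gd]
      have e3 : constantCoeff (SS (C a) (C b) X (M n) (T n)) = 0 := by simp [SS, EE, m0, t0]
      have e4 : coeff 1 (gg (C a) (C b) (X : R⟦X⟧)) = 1 := by
        simp [gg, pow_succ]
      have e5 : coeff 1 (gg (C a) (C b) (X : R⟦X⟧) * (C a * M n * (X + M n) +
          (1 + C a * X * M n) + 4 * C b * X * M n ^ 2)) = 1 := by
        rw [c1mul, e1, e4]
        simp [m0]
      have e6 : coeff 1 (gd (C a) (C b) (X : R⟦X⟧) * T n) = n := by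
        rw [c1mul, e2, t0, h2]
        ring
      have e7 : constantCoeff (gg (C a) (C b) (X : R⟦X⟧) * (C a * M n * (X + M n) +
          (1 + C a * X * M n) + 4 * C b * X * M n ^ 2) + gd (C a) (C b) (X : R⟦X⟧) * T n) = 0 := by
        rw [map_add constantCoeff, map_mul constantCoeff, map_mul constantCoeff (gd _ _ _), e1, t0]
        ring
      have e8 : constantCoeff (SS (C a) (C b) X (M n) (T n) * gg (C a) (C b) X) = 0 := by
        rw [map_mul constantCoeff, e1, mul_zero]
      rw [e7, e8, QQ_constX, e3, e1, map_add, e5, e6]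
      push_cast
      ring

theorem M_one {a b : R} {M T : ℕ → R⟦X⟧} (h : IsMT a b M T) (n : ℕ) :
    coeff 1 (M n) = (n : R) ^ 2 := (h.ones n).1

theorem T_one {a b : R} {M T : ℕ → R⟦X⟧} (h : IsMT a b M T) (n : ℕ) :
    coeff 1 (T n) = (n : R) := (h.ones n).2

private theorem cancelQ (a b : R) (f : R⟦X⟧) (k : ℕ) {u v : R⟦X⟧}
    (h : QQ (C a) (C b) X f ^ k * u = QQ (C a) (C b) X f ^ k * v) : u = v := by
  obtain ⟨q', hq⟩ := exists_inv (QQ_constX a b f)
  have hk : QQ (C a) (C b) X f ^ k * q' ^ k = 1 := by rw [← mul_pow, hq, one_pow]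
  linear_combination q' ^ k * h - (u - v) * hk

/-- Induction with `alg_W`. -/
theorem sq {a b : R} {M T : ℕ → R⟦X⟧} (h : IsMT a b M T) (n : ℕ) :
    T n ^ 2 = gg (C a) (C b) X * gg (C a) (C b) (M n) := by
  induction n with
  | zero =>
    rw [h.M0, h.T0]
    simp [gg]
  | succ n ih =>
    have h1 := alg_W ih
    rw [← h.hM n, ← h.hT n] at h1
    apply cancelQ a b (M n) 4
    simp only [gg] at h1 ⊢
    linear_combination h1

/-- From `alg_P`, after cancelling `QQ ^ 2`. -/
theorem pred {a b : R} {M T : ℕ → R⟦X⟧} (h : IsMT a b M T) (n : ℕ) :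
    QQ (C a) (C b) X (M (n + 1)) * M n = EE (C a) (C b) X (M (n + 1)) - 2 * T (n + 1) := by
  have h1 := alg_P (h.sq n)
  rw [← h.hM n, ← h.hT n] at h1
  apply cancelQ a b (M n) 2
  have e1 : QQ (C a) (C b) X (M (n + 1)) = (1 - C a * X * M (n + 1)) ^ 2 -
    4 * C b * X * M (n + 1) * (X + M (n + 1)) := rfl
  have e2 : EE (C a) (C b) X (M (n + 1)) = (1 + C a * X * M (n + 1)) * (X + M (n + 1)) +
    2 * C b * X ^ 2 * M (n + 1) ^ 2 := rfl
  rw [e1, e2]
  linear_combination -h1

end IsMT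

end Pool.Agent.Lib.MP_3550b5_nt.Vr
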