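import Pool.Agent.Lib.MP_3550b5_nt.TP.Ver.Seq

/-! The derivatives of the sequence `M n`, in characteristic `0`. -/

namespace Pool.Agent.Lib.MP_3550b5_nt.Vr

open PowerSeries

variable {R : Type*} [CommRing R]

section der

variable {A : Type*} [CommRing A] [Algebra R A] (D : Derivation R A A) {a b : A}

private theorem sqd_two : D (2 : A) = 0 := by simpa using D.map_natCast 2

private theorem sqd_four : D (4 : A) = 0 := by simpa using D.map_natCast 4

private theorem sqd_gg (ha : D a = 0) (hb : D b = 0) (x : A) :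
    D (gg a b x) = gd a b x * D x := by
  simp only [gg, gd, map_add, Derivation.leibniz, Derivation.leibniz_pow, ha, hb, smul_eq_mul,
    nsmul_eq_mul, Nat.cast_ofNat]
  norm_num
  ring

private theorem sqd_EE (ha : D a = 0) (hb : D b = 0) (r M : A) :
    D (EE a b r M) = (a * M * (r + M) + (1 + a * r * M) + 4 * b * r * M ^ 2) * D r +
      (a * r * (r + M) + (1 + a * r * M) + 4 * b * r ^ 2 * M) * D M := by
  simp only [EE, map_add, Derivation.leibniz, Derivation.leibniz_pow, ha, hb, smul_eq_mul,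
    nsmul_eq_mul, Nat.cast_ofNat, sqd_two D, Derivation.map_one_eq_zero]
  norm_num
  ring

private theorem sqd_QQ (ha : D a = 0) (hb : D b = 0) (r M : A) :
    D (QQ a b r M) = Qr a b r M * D r + Qm a b r M * D M := by
  simp only [QQ, Qr, Qm, map_add, map_sub, Derivation.leibniz, Derivation.leibniz_pow, ha, hb,
    smul_eq_mul, nsmul_eq_mul, Nat.cast_ofNat, sqd_four D, Derivation.map_one_eq_zero]
  norm_num
  ring

end der

private theorem sqd_C (c : R) : derivative R (C c : R⟦X⟧) = 0 := by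
  simp

private theorem sqd_X : derivative R (X : R⟦X⟧) = 1 := by
  simp

namespace IsMT

private theorem sqd_G_ne [Nontrivial R] (a b : R) : gg (C a) (C b) (X : R⟦X⟧) ≠ 0 := by
  intro h
  have h1 := congrArg (coeff 1) h
  rw [gg, show (X : R⟦X⟧) + C a * X ^ 3 + C b * X ^ 4 = (1 + C a * X ^ 2 + C b * X ^ 3) * X by ring,
    show (1 : ℕ) = 0 + 1 from rfl, coeff_succ_mul_X] at h1
  simp at h1

private theorem sqd_Q_ne [Nontrivial R] {a b : R} {M T : ℕ → R⟦X⟧} (h : IsMT a b M T) (n : ℕ) :
    QQ (C a) (C b) X (M n) ≠ 0 := by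
  intro h0
  have h1 := h.Q_const n
  rw [h0, map_zero] at h1
  exact zero_ne_one h1

private theorem sqd_T_ne [Nontrivial R] [CharZero R] {a b : R} {M T : ℕ → R⟦X⟧}
    (h : IsMT a b M T) {n : ℕ} (hn : n ≠ 0) : T n ≠ 0 := by
  intro h0
  have h1 := h.T_one n
  rw [h0, map_zero] at h1
  exact hn (Nat.cast_eq_zero.1 h1.symm)

private theorem sqd_dT [IsDomain R] [CharZero R] {a b : R} {M T : ℕ → R⟦X⟧} (h : IsMT a b M T)
    (n : ℕ) (hn : gg (C a) (C b) X * derivative R (M n) = (n : R⟦X⟧) * T n) :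
    2 * gg (C a) (C b) X * derivative R (T n) =
      gd (C a) (C b) X * T n + (n : R⟦X⟧) * (gg (C a) (C b) X * gd (C a) (C b) (M n)) := by
  rcases Nat.eq_zero_or_pos n with rfl | h0
  · rw [h.T0, map_zero, mul_zero, mul_zero, Nat.cast_zero, zero_mul, zero_add]
  · have hsq := h.sq n
    have h1 := congrArg (derivative R) hsq
    rw [Derivation.leibniz, Derivation.leibniz_pow, sqd_gg _ (sqd_C a) (sqd_C b),
      sqd_gg _ (sqd_C a) (sqd_C b), sqd_X] at h1
    simp only [smul_eq_mul, nsmul_eq_mul, Nat.cast_ofNat] at h1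
    norm_num at h1
    apply mul_left_cancel₀ (sqd_T_ne h h0.ne')
    linear_combination gg (C a) (C b) X * h1 - gd (C a) (C b) X * hsq +
      gg (C a) (C b) X * gd (C a) (C b) (M n) * hn

/-- Induction with `alg_D`; the derivative of `T n` comes from `sq` (cancel `T n`, which is not `0`
for `n ≥ 1` by `T_one`): `2 G T' = G' T + n G G'(M)`. -/
theorem dM [IsDomain R] [CharZero R] {a b : R} {M T : ℕ → R⟦X⟧} (h : IsMT a b M T) (n : ℕ) :
    gg (C a) (C b) X * derivative R (M n) = (n : R⟦X⟧) * T n := by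
  induction n with
  | zero => rw [h.M0, h.T0, map_zero, mul_zero, mul_zero]
  | succ n ih =>
    have hdT := sqd_dT h n ih
    have hsq := h.sq n
    have hD := alg_D hsq
    have h1 := congrArg (derivative R) (h.hM n)
    rw [SS, Derivation.leibniz, map_add, Derivation.leibniz, sqd_QQ _ (sqd_C a) (sqd_C b),
      sqd_EE _ (sqd_C a) (sqd_C b), sqd_X, sqd_two] at h1
    simp only [smul_eq_mul, mul_zero, add_zero, mul_one] at h1
    have hM := h.hM n
    have hT := h.hT n
    apply mul_left_cancel₀ (pow_ne_zero 2 (sqd_Q_ne h n))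
    push_cast
    rw [WW, SS] at hT hD
    rw [SS] at hM
    linear_combination gg (C a) (C b) X * QQ (C a) (C b) X (M n) * h1 - ((n : R⟦X⟧) + 1) * hT +
      (n : R⟦X⟧) * hD + QQ (C a) (C b) X (M n) * hdT +
      ((C a * X * (X + M n) + (1 + C a * X * M n) + 4 * C b * X ^ 2 * M n) *
        QQ (C a) (C b) X (M n) - Qm (C a) (C b) X (M n) * QQ (C a) (C b) X (M n) * M (n + 1)) * ih -
      (gg (C a) (C b) X * Qr (C a) (C b) X (M n) + Qm (C a) (C b) X (M n) * (n : R⟦X⟧) * T n) * hM

theorem dM_sq [IsDomain R] [CharZero R] {a b : R} {M T : ℕ → R⟦X⟧} (h : IsMT a b M T) (n : ℕ) :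
    gg (C a) (C b) X * derivative R (M n) ^ 2 = (n : R⟦X⟧) ^ 2 * gg (C a) (C b) (M n) := by
  have h1 := h.dM n
  have hsq := h.sq n
  apply mul_left_cancel₀ (sqd_G_ne a b)
  linear_combination (gg (C a) (C b) X * derivative R (M n) + (n : R⟦X⟧) * T n) * h1 +
    (n : R⟦X⟧) ^ 2 * hsq

theorem ddM [IsDomain R] [CharZero R] {a b : R} {M T : ℕ → R⟦X⟧} (h : IsMT a b M T) (n : ℕ) :
    2 * gg (C a) (C b) X * derivative R (derivative R (M n)) +
      gd (C a) (C b) X * derivative R (M n) = (n : R⟦X⟧) ^ 2 * gd (C a) (C b) (M n) := by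
  rcases Nat.eq_zero_or_pos n with rfl | h0
  · rw [h.M0, map_zero, map_zero, mul_zero, mul_zero, Nat.cast_zero]
    ring
  · have h1 := congrArg (derivative R) (h.dM_sq n)
    have hn2 : derivative R ((n : R⟦X⟧) ^ 2) = 0 := by
      have := (derivative R).map_natCast (n ^ 2)
      rwa [Nat.cast_pow] at this
    rw [Derivation.leibniz, Derivation.leibniz, Derivation.leibniz_pow,
      sqd_gg _ (sqd_C a) (sqd_C b), sqd_gg _ (sqd_C a) (sqd_C b), sqd_X, hn2] at h1
    simp only [smul_eq_mul, nsmul_eq_mul, Nat.cast_ofNat] at h1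
    norm_num at h1
    have hne : derivative R (M n) ≠ 0 := by
      intro h2
      have h3 := congrArg constantCoeff h2
      rw [← coeff_zero_eq_constantCoeff_apply, coeff_derivative, zero_add, h.M_one, map_zero] at h3
      simp [h0.ne'] at h3
    apply mul_left_cancel₀ hne
    linear_combination h1

end IsMT

end Pool.Agent.Lib.MP_3550b5_nt.Vr
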