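import Pool.Agent.Lib.MP_3550b5_nt.TP.Ver.SeqD

/-!
The sigma relation `U(M n) = φ_n U ^ (n ^ 2)` with `φ_n` rational.

Plan. `φ_0 = φ_1 = 1`, `φ_(n+2) φ_n = φ_(n+1) ^ 2 QQ(X, M (n+1))`. With `u_n = U(M n)` one shows
`u_(n+1) u_(n-1) = u_n ^ 2 U ^ 2 QQ(X, M n)` for `n ≥ 1`: both sides have constant coefficient `1`
and are of the form `R' = w R` (chain rule `PowerSeries.derivative_subst`), where the difference `w`
of the logarithmic derivatives satisfies `2 G w' + G' w = 0`, so `w = 0` in characteristic `0`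
(`uniq_w`). For `w_n = v(M n) (M n)'` one has `2 G w_n' + G' w_n = - n ^ 2 L(M n)` (`dM_sq`, `ddM`
and the equation of `v`), where `L(x) = c + a x + 2 b x ^ 2`, and for `q = QQ' / QQ` the equation of
`q` is `alg_Q` (with `M_(n+1) = (E + 2 T) / Q` and `M_(n-1) = (E - 2 T) / Q`, which is `pred`).
-/

namespace Pool.Agent.Lib.MP_3550b5_nt.Vr

open PowerSeries

variable {R : Type*} [CommRing R]

private theorem coeff_XD (w : R⟦X⟧) (k : ℕ) :
    coeff k (X * derivative R w) = (k : R) * coeff k w := by
  cases k with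
  | zero => simp
  | succ k =>
    rw [coeff_succ_X_mul, coeff_derivative]
    push_cast
    ring

/-- Coefficient comparison: `(2 k + 1) w_k = 0` for the first nonzero coefficient. -/
theorem uniq_w [IsDomain R] [CharZero R] {a b : R} {w : R⟦X⟧}
    (h : 2 * gg (C a) (C b) X * derivative R w + gd (C a) (C b) X * w = 0) : w = 0 := by
  have key : ∀ k, coeff k w = 0 := by
    intro k
    induction k using Nat.strong_induction_on with
    | _ k ih =>
    have hF : ∀ (c₁ c₂ : ℕ) (j : ℕ), j < k →
        coeff j ((c₁ : R⟦X⟧) * (X * derivative R w) + (c₂ : R⟦X⟧) * w) = 0 := by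
      intro c₁ c₂ j hj
      rw [map_add, ← nsmul_eq_mul, ← nsmul_eq_mul, map_nsmul, map_nsmul, coeff_XD, ih j hj]
      simp
    have h1 : (2 : ℕ) • (X * derivative R w) + w + C a * (X ^ 2 * (((2 : ℕ) : R⟦X⟧) *
        (X * derivative R w) + ((3 : ℕ) : R⟦X⟧) * w)) + C b * (X ^ 3 * (((2 : ℕ) : R⟦X⟧) *
        (X * derivative R w) + ((4 : ℕ) : R⟦X⟧) * w)) = 0 := by
      rw [← h, nsmul_eq_mul]
      simp only [gg, gd]
      push_cast
      ring
    have h2 := congrArg (coeff k) h1
    rw [map_add, map_add, map_add, map_nsmul, coeff_C_mul, coeff_C_mul, coeff_X_pow_mul',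
      coeff_X_pow_mul', coeff_XD, map_zero] at h2
    have h3 : (if 2 ≤ k then coeff (k - 2) (((2 : ℕ) : R⟦X⟧) *
        (X * derivative R w) + ((3 : ℕ) : R⟦X⟧) * w) else 0) = 0 := by
      split_ifs with h4
      · exact hF 2 3 (k - 2) (by omega)
      · rfl
    have h4 : (if 3 ≤ k then coeff (k - 3) (((2 : ℕ) : R⟦X⟧) *
        (X * derivative R w) + ((4 : ℕ) : R⟦X⟧) * w) else 0) = 0 := by
      split_ifs with h4
      · exact hF 2 4 (k - 3) (by omega)
      · rfl
    rw [h3, h4, nsmul_eq_mul] at h2
    have h5 : ((2 * k + 1 : ℕ) : R) * coeff k w = 0 := by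
      push_cast at h2 ⊢
      linear_combination h2
    rcases mul_eq_zero.1 h5 with h6 | h6
    · exact absurd (Nat.cast_eq_zero.1 h6) (by omega)
    · exact h6
  ext k
  rw [key k, map_zero]

theorem uniq_u [IsDomain R] [CharZero R] {w f g : R⟦X⟧} (hf : derivative R f = w * f)
    (hg : derivative R g = w * g) (hf1 : constantCoeff f = 1) (hg1 : constantCoeff g = 1) :
    f = g := by
  have hd : derivative R (f - g) = w * (f - g) := by
    rw [map_sub, hf, hg, mul_sub]
  have key : ∀ k, coeff k (f - g) = 0 := by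
    intro k
    induction k using Nat.strong_induction_on with
    | _ k ih =>
    cases k with
    | zero =>
      rw [coeff_zero_eq_constantCoeff_apply, map_sub, hf1, hg1, sub_self]
    | succ k =>
      have h1 := congrArg (coeff k) hd
      rw [coeff_derivative, coeff_mul, Finset.sum_eq_zero] at h1
      · rcases mul_eq_zero.1 h1 with h2 | h2
        · exact h2
        · have h3 : ((k + 1 : ℕ) : R) = 0 := by
            push_cast
            exact h2
          exact absurd (Nat.cast_eq_zero.1 h3) (by omega)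
      · rintro ⟨i, j⟩ hij
        have h3 : i + j = k := Finset.HasAntidiagonal.mem_antidiagonal.1 hij
        have h4 : coeff j (f - g) = 0 := ih j (by omega)
        show coeff i w * coeff j (f - g) = 0
        rw [h4, mul_zero]
  have h0 : f - g = 0 := by
    ext k
    rw [key k, map_zero]
  exact sub_eq_zero.1 h0

theorem const_subst {f g : R⟦X⟧} (hg : constantCoeff g = 0) :
    constantCoeff (f.subst g) = constantCoeff f := by
  rw [← coeff_zero_eq_constantCoeff_apply, coeff_subst' (HasSubst.of_constantCoeff_zero' hg),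
    finsum_eq_single _ 0]
  · simp
  · intro d hd
    rw [coeff_zero_eq_constantCoeff_apply, map_pow, hg, zero_pow hd, smul_zero]

private theorem sub_C {f : R⟦X⟧} (hf : HasSubst f) (c : R) : (substAlgHom hf) (C c : R⟦X⟧) = C c :=
  AlgHom.commutes (substAlgHom hf) c

/-- The equation of `w_n = v(M n) (M n)'`. -/
theorem ode_w [IsDomain R] [CharZero R] {a b c : R} {M T : ℕ → R⟦X⟧} (h : IsMT a b M T)
    {v U : R⟦X⟧} (hU : Lg.IsVU a b c v U) (n : ℕ) :
    2 * gg (C a) (C b) X * derivative R (v.subst (M n) * derivative R (M n)) +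
      gd (C a) (C b) X * (v.subst (M n) * derivative R (M n)) =
      -((n : R⟦X⟧) ^ 2 * (C c + C a * M n + 2 * C b * M n ^ 2)) := by
  have hs : HasSubst (M n) := HasSubst.of_constantCoeff_zero' (h.M_const n)
  have h1 := congrArg (substAlgHom hs) hU.ode
  simp only [map_add, map_mul, map_pow, map_one, map_ofNat, sub_C hs, substAlgHom_X hs, map_zero]
    at h1
  rw [coe_substAlgHom hs] at h1
  have h2 := h.dM_sq n
  have h3 := h.ddM n
  have h4 : derivative R (v.subst (M n) * derivative R (M n)) =
      v.subst (M n) * derivative R (derivative R (M n)) +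
        derivative R (M n) * ((derivative R v).subst (M n) * derivative R (M n)) := by
    rw [Derivation.leibniz, derivative_subst hs, smul_eq_mul, smul_eq_mul]
  rw [h4]
  simp only [gg, gd] at h2 h3 ⊢
  linear_combination (n : R⟦X⟧) ^ 2 * h1 + 2 * (derivative R v).subst (M n) * h2 +
    v.subst (M n) * h3

theorem der_u {a b c : R} {M T : ℕ → R⟦X⟧} (h : IsMT a b M T)
    {v U : R⟦X⟧} (hU : Lg.IsVU a b c v U) (n : ℕ) :
    derivative R (U.subst (M n)) = (v.subst (M n) * derivative R (M n)) * U.subst (M n) := by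
  have hs : HasSubst (M n) := HasSubst.of_constantCoeff_zero' (h.M_const n)
  rw [derivative_subst hs, hU.der, subst_mul hs]
  ring

end Pool.Agent.Lib.MP_3550b5_nt.Vr
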