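import Pool.Agent.Lib.MP_3550b5_nt.TP.Ver.SeqD

/-!
The sigma relation `U(M n) = φ_n U ^ (n ^ 2)` with `φ_n` rational.

Plan. `φ_0 = φ_1 = 1`, `φ_(n+2) φ_n = φ_(n+1) ^ 2 QQ(X, M (n+1))`. With `u_n = U(M n)` one shows
`u_(n+1) u_(n-1) = u_n ^ 2 U ^ 2 QQ(X, M n)` for `n ≥ 1`: both sides have constant coefficient `1`
and are of the form `R' = w R` (chain rule `PowerSeries.derivative_subst`), where the difference `w`
of the logarithmic derivatives satisfies `2 G w' + G' w = 0`, so `w = 0` in characteristic `0`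
(`uniq_w`). For `w_n = v(M n) (M n)'` one has `2 G w_n' + G' w_n = - n ^ 2 L(M n)` (`dM_sq`, `ddM`
and the equation of `v`), where `L(x) = c + a x + 2 b x ^ 2`, and for `q = QQ' / QQ` the equation of
`q` is `alg_Q` (with `M_(n+1) = (E + 2 T) / Q` and `M_(n-1) = (E - 2 T) / Q`, which is `pred`).
-/

namespace Pool.Agent.Lib.MP_3550b5_nt.Vr

open PowerSeries

variable {R : Type*} [CommRing R]

private theorem der_nat (k : ℕ) : derivative R (k : R⟦X⟧) = 0 :=
  Derivation.map_natCast (derivative R) k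

private theorem der_Q (a b : R) (f : R⟦X⟧) : derivative R (QQ (C a) (C b) X f) =
    Qr (C a) (C b) X f + Qm (C a) (C b) X f * derivative R f := by
  have h4 : derivative R (4 : R⟦X⟧) = 0 := by exact_mod_cast der_nat (R := R) 4
  simp only [QQ, Qr, Qm, map_sub, map_add, Derivation.leibniz, Derivation.leibniz_pow,
    derivative_X, derivative_C, smul_eq_mul, Derivation.map_one_eq_zero, h4, nsmul_eq_mul]
  push_cast
  ring

private theorem der_Q2 (a b : R) (f : R⟦X⟧) :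
    derivative R (derivative R (QQ (C a) (C b) X f)) =
    (2 * C a ^ 2 * f ^ 2 - 8 * C b * f) +
      2 * ((-2 * C a + 4 * C a ^ 2 * X * f - 8 * C b * X - 8 * C b * f) * derivative R f) +
      (2 * C a ^ 2 * X ^ 2 - 8 * C b * X) * derivative R f ^ 2 +
      Qm (C a) (C b) X f * derivative R (derivative R f) := by
  have h4 : derivative R (4 : R⟦X⟧) = 0 := by exact_mod_cast der_nat (R := R) 4
  have h2 : derivative R (2 : R⟦X⟧) = 0 := by exact_mod_cast der_nat (R := R) 2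
  rw [der_Q]
  simp only [Qr, Qm, map_sub, map_add, map_neg, Derivation.leibniz, derivative_X, derivative_C,
    smul_eq_mul, Derivation.map_one_eq_zero, h4, h2]
  ring

/-- The equation of `q = QQ' / QQ`, from `alg_Q`. -/
theorem ode_q [IsDomain R] [CharZero R] {a b c : R} {M T : ℕ → R⟦X⟧} (h : IsMT a b M T)
    {n : ℕ} {q : R⟦X⟧} (hq : derivative R (QQ (C a) (C b) X (M (n + 1))) =
      q * QQ (C a) (C b) X (M (n + 1))) :
    2 * gg (C a) (C b) X * derivative R q + gd (C a) (C b) X * q =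
      2 * ((n + 1 : ℕ) : R⟦X⟧) ^ 2 * (C c + C a * M (n + 1) + 2 * C b * M (n + 1) ^ 2) +
      2 * (C c + C a * X + 2 * C b * X ^ 2) -
      ((n + 2 : ℕ) : R⟦X⟧) ^ 2 * (C c + C a * M (n + 2) + 2 * C b * M (n + 2) ^ 2) -
      (n : R⟦X⟧) ^ 2 * (C c + C a * M n + 2 * C b * M n ^ 2) := by
  obtain ⟨Q', hQ'⟩ := exists_inv (h.Q_const (n + 1))
  have hq2 := congrArg (derivative R) hq
  rw [der_Q2, Derivation.leibniz, smul_eq_mul, smul_eq_mul, der_Q] at hq2
  rw [der_Q] at hq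
  have e1 := h.dM (n + 1)
  have e2 := h.dM_sq (n + 1)
  have e3 := h.ddM (n + 1)
  have e4 := h.hM (n + 1)
  have e5 := h.pred n
  have e6 := alg_Q (c := C c) (n := ((n + 1 : ℕ) : R⟦X⟧)) (h.sq (n + 1))
  rw [show n + 1 + 1 = n + 2 from rfl] at e4
  have e4' : EE (C a) (C b) X (M (n + 1)) + 2 * T (n + 1) =
      QQ (C a) (C b) X (M (n + 1)) * M (n + 2) := by
    rw [e4, SS]
  rw [← e5, e4', ← e2, ← e1, ← e3] at e6
  have hn1 : ((n + 1 : ℕ) : R⟦X⟧) + 1 = ((n + 2 : ℕ) : R⟦X⟧) := by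
    push_cast
    ring
  have hn2 : ((n + 1 : ℕ) : R⟦X⟧) - 1 = (n : R⟦X⟧) := by
    push_cast
    ring
  rw [hn1, hn2] at e6
  generalize QQ (C a) (C b) X (M (n + 1)) = Q at *
  generalize Qr (C a) (C b) X (M (n + 1)) = Qr at *
  generalize Qm (C a) (C b) X (M (n + 1)) = Qm at *
  generalize derivative R (derivative R (M (n + 1))) = M'' at *
  generalize derivative R (M (n + 1)) = M' at *
  generalize derivative R q = q' at *
  generalize gg (C a) (C b) X = G at *
  generalize gd (C a) (C b) X = G' at *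
  have key : Q ^ 2 * (2 * G * q' + G' * q) = Q ^ 2 *
      (2 * ((n + 1 : ℕ) : R⟦X⟧) ^ 2 * (C c + C a * M (n + 1) + 2 * C b * M (n + 1) ^ 2) +
      2 * (C c + C a * X + 2 * C b * X ^ 2) -
      ((n + 2 : ℕ) : R⟦X⟧) ^ 2 * (C c + C a * M (n + 2) + 2 * C b * M (n + 2) ^ 2) -
      (n : R⟦X⟧) ^ 2 * (C c + C a * M n + 2 * C b * M n ^ 2)) := by
    linear_combination e6 - 2 * G * Q * hq2 + (2 * G * (Qr + Qm * M') - G' * Q) * hq
  have hQ2 : Q ^ 2 * Q' ^ 2 = 1 := by rw [← mul_pow, hQ', one_pow]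
  have k1 := congrArg (fun x => Q' ^ 2 * x) key
  simp only [← mul_assoc] at k1
  rw [mul_comm (Q' ^ 2) (Q ^ 2), hQ2] at k1
  simpa only [one_mul, ← mul_assoc] using k1

end Pool.Agent.Lib.MP_3550b5_nt.Vr
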