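import Pool.Agent.Lib.MP_3550b5_nt.TP.Ver.SigA
import Pool.Agent.Lib.MP_3550b5_nt.TP.Ver.SigB

/-!
The sigma relation `U(M n) = φ_n U ^ (n ^ 2)` with `φ_n` rational.

Plan. `φ_0 = φ_1 = 1`, `φ_(n+2) φ_n = φ_(n+1) ^ 2 QQ(X, M (n+1))`. With `u_n = U(M n)` one shows
`u_(n+1) u_(n-1) = u_n ^ 2 U ^ 2 QQ(X, M n)` for `n ≥ 1`: both sides have constant coefficient `1`
and are of the form `R' = w R` (chain rule `PowerSeries.derivative_subst`), where the difference `w`
of the logarithmic derivatives satisfies `2 G w' + G' w = 0`, so `w = 0` in characteristic `0`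
(`uniq_w`). For `w_n = v(M n) (M n)'` one has `2 G w_n' + G' w_n = - n ^ 2 L(M n)` (`dM_sq`, `ddM`
and the equation of `v`), where `L(x) = c + a x + 2 b x ^ 2`, and for `q = QQ' / QQ` the equation of
`q` is `alg_Q` (with `M_(n+1) = (E + 2 T) / Q` and `M_(n-1) = (E - 2 T) / Q`, which is `pred`).
-/

namespace Pool.Agent.Lib.MP_3550b5_nt.Vr

open PowerSeries

variable {R : Type*} [CommRing R]

/-- The three term relation. -/
theorem three_term [IsDomain R] [CharZero R] {a b c : R} {M T : ℕ → R⟦X⟧} (h : IsMT a b M T)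
    {v U : R⟦X⟧} (hU : Lg.IsVU a b c v U) (n : ℕ) :
    U.subst (M (n + 2)) * U.subst (M n) =
      U.subst (M (n + 1)) ^ 2 * U ^ 2 * QQ (C a) (C b) X (M (n + 1)) := by
  obtain ⟨Q', hQ'⟩ := exists_inv (h.Q_const (n + 1))
  obtain ⟨q, hqd⟩ : ∃ q : R⟦X⟧, q = derivative R (QQ (C a) (C b) X (M (n + 1))) * Q' := ⟨_, rfl⟩
  have hq : derivative R (QQ (C a) (C b) X (M (n + 1))) = q * QQ (C a) (C b) X (M (n + 1)) := by
    rw [hqd, mul_assoc, mul_comm Q', hQ', mul_one]
  obtain ⟨w0, hw0⟩ : ∃ w : R⟦X⟧, w = v.subst (M n) * derivative R (M n) := ⟨_, rfl⟩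
  obtain ⟨w1, hw1⟩ : ∃ w : R⟦X⟧, w = v.subst (M (n + 1)) * derivative R (M (n + 1)) := ⟨_, rfl⟩
  obtain ⟨w2, hw2⟩ : ∃ w : R⟦X⟧, w = v.subst (M (n + 2)) * derivative R (M (n + 2)) := ⟨_, rfl⟩
  have e0 := ode_w h hU n
  have e1 := ode_w h hU (n + 1)
  have e2 := ode_w h hU (n + 2)
  rw [← hw0] at e0
  rw [← hw1] at e1
  rw [← hw2] at e2
  have eq := ode_q (c := c) h hq
  have ev := hU.ode
  have hw : w2 + w0 - 2 * w1 - 2 * v - q = 0 := by
    refine uniq_w (a := a) (b := b) ?_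
    have h2 : derivative R (2 : R⟦X⟧) = 0 := by
      have h3 := (derivative R).map_natCast 2
      simpa using h3
    have hd : derivative R (w2 + w0 - 2 * w1 - 2 * v - q) = derivative R w2 + derivative R w0 -
        2 * derivative R w1 - 2 * derivative R v - derivative R q := by
      simp only [map_sub, map_add, Derivation.leibniz, smul_eq_mul, h2, mul_zero, add_zero]
    rw [hd]
    have hg : gg (C a) (C b) (X : R⟦X⟧) = X * (1 + C a * X ^ 2 + C b * X ^ 3) := by
      unfold gg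
      ring
    have hg' : gd (C a) (C b) (X : R⟦X⟧) = 1 + 3 * C a * X ^ 2 + 4 * C b * X ^ 3 := rfl
    rw [← hg, ← hg'] at ev
    push_cast at e0 e1 e2 eq ⊢
    linear_combination e2 + e0 - 2 * e1 - 2 * ev - eq
  have d0 := der_u h hU n
  have d1 := der_u h hU (n + 1)
  have d2 := der_u h hU (n + 2)
  rw [← hw0] at d0
  rw [← hw1] at d1
  rw [← hw2] at d2
  refine uniq_u (w := w2 + w0) ?_ ?_ ?_ ?_
  · rw [Derivation.leibniz, smul_eq_mul, smul_eq_mul, d0, d2]
    ring
  · have hw' : w2 + w0 = 2 * w1 + 2 * v + q := by linear_combination hw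
    rw [hw', Derivation.leibniz, Derivation.leibniz, Derivation.leibniz_pow,
      Derivation.leibniz_pow, hq, d1, hU.der]
    simp only [smul_eq_mul, nsmul_eq_mul]
    push_cast
    ring
  · rw [map_mul, const_subst (h.M_const _), const_subst (h.M_const _), hU.one, mul_one]
  · rw [map_mul, map_mul, map_pow, map_pow, const_subst (h.M_const _), hU.one, h.Q_const,
      one_pow, mul_one, mul_one]

theorem exists_phi [IsDomain R] [CharZero R] {a b c : R} {M T : ℕ → R⟦X⟧} (h : IsMT a b M T)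
    {v U : R⟦X⟧} (hU : Lg.IsVU a b c v U) (n : ℕ) :
    ∃ φ : R⟦X⟧, RatS φ ∧ constantCoeff φ = 1 ∧ U.subst (M n) = φ * U ^ n ^ 2 := by
  have hU0 : U ≠ 0 := by
    intro h0
    have h1 := hU.one
    rw [h0, map_zero] at h1
    exact zero_ne_one h1
  have hM1 : M 1 = X := by
    have h1 := h.hM 0
    rw [h.M0, h.T0] at h1
    simp only [QQ, SS, EE] at h1
    simpa using h1
  have key : ∀ n : ℕ, (∃ φ : R⟦X⟧, RatS φ ∧ constantCoeff φ = 1 ∧
      U.subst (M n) = φ * U ^ n ^ 2) ∧ (∃ φ : R⟦X⟧, RatS φ ∧ constantCoeff φ = 1 ∧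
      U.subst (M (n + 1)) = φ * U ^ (n + 1) ^ 2) := by
    intro n
    induction n with
    | zero =>
      constructor
      · refine ⟨1, RatS.one, by simp, ?_⟩
        rw [h.M0, zero_pow two_ne_zero, pow_zero, mul_one]
        have h1 := subst_zero_eq_C_constantCoeff (f := U) (τ := Unit) (S := R)
        rw [hU.one] at h1
        simpa using h1
      · refine ⟨1, RatS.one, by simp, ?_⟩
        rw [zero_add, hM1, one_pow, pow_one, one_mul]
        exact X_subst U
    | succ n ih =>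
      refine ⟨ih.2, ?_⟩
      obtain ⟨⟨φ0, r0, c0, h0⟩, ⟨φ1, r1, c1, h1⟩⟩ := ih
      obtain ⟨ψ, hψ⟩ := exists_inv c0
      have hc := congrArg (constantCoeff (R := R)) hψ
      rw [map_mul, c0, one_mul, map_one] at hc
      have h3 := three_term h hU n
      rw [h0, h1] at h3
      have e : φ0 * (φ1 ^ 2 * QQ (C a) (C b) X (M (n + 1)) * ψ) =
          φ1 ^ 2 * QQ (C a) (C b) X (M (n + 1)) := by
        linear_combination (φ1 ^ 2 * QQ (C a) (C b) X (M (n + 1))) * hψ
      refine ⟨φ1 ^ 2 * QQ (C a) (C b) X (M (n + 1)) * ψ,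
        RatS.div r0 ((r1.pow 2).mul (RatS.QQ (h.ratM (n + 1)))) c0 e, ?_, ?_⟩
      · rw [map_mul, map_mul, map_pow, c1, h.Q_const, hc, one_pow, mul_one, mul_one]
      · have h4 : U ^ n ^ 2 * (φ0 * U.subst (M (n + 2))) = U ^ n ^ 2 *
            (φ1 ^ 2 * QQ (C a) (C b) X (M (n + 1)) * U ^ (n + 2) ^ 2) := by
          have h5 : U ^ n ^ 2 * U ^ (n + 2) ^ 2 = U ^ (2 * (n + 1) ^ 2 + 2) := by
            rw [← pow_add]
            congr 1
            ring
          have h6 : (U ^ (n + 1) ^ 2) ^ 2 * U ^ 2 = U ^ (2 * (n + 1) ^ 2 + 2) := by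
            rw [← pow_mul, ← pow_add]
            congr 1
            ring
          linear_combination h3 + (φ1 ^ 2 * QQ (C a) (C b) X (M (n + 1))) * (h6 - h5)
        have h5 := mul_left_cancel₀ (pow_ne_zero _ hU0) h4
        show U.subst (M (n + 2)) = _ * U ^ (n + 2) ^ 2
        linear_combination ψ * h5 - U.subst (M (n + 2)) * hψ
  exact (key n).1

end Pool.Agent.Lib.MP_3550b5_nt.Vr
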