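import Pool.Agent.Lib.MP_3550b5_nt.TP.Ver.Fro

/-!
The sections of `P(h, U(h))`.

Plan. `h = h₁ / g` and `γ = γ₁ / γ₂` with polynomials of degree at most `D`. For `P = Σ_j p_j Y^j`
of bidegree at most `(I, J)` put `q_j = hform I p_j h₁ g * γ₁ ^ j * γ₂ ^ (J - j)`, a polynomial
of degree at most `D (I + J)`; then `g ^ I γ₂ ^ J (evY f P)(h) = Σ_j q_j (f ^ p) ^ j`. With
`Q t = Σ_j (sec t q_j) Y ^ j` one has `evY f (Q t) = sec t (g ^ I γ₂ ^ J (evY f P)(h))`.
If `Q t = s_t P` for all `t < p`, then `q_j = s p_j ^ p` for all `j`, where `s = Σ_t X^t s_t ^ p`.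
-/

namespace Pool.Agent.Lib.MP_3550b5_nt.Vr

open PowerSeries

variable {p : ℕ} [hp : Fact p.Prime]

/-- the polynomial `q_j` -/
private noncomputable def qq {k : Type*} [Field k] (h₁ g γ₁ γ₂ : Polynomial k) (I J j : ℕ)
    (P : Polynomial k) : Polynomial k :=
  (∑ i ∈ Finset.range (I + 1), Polynomial.C (P.coeff i) * h₁ ^ i * g ^ (I - i)) *
    (γ₁ ^ j * γ₂ ^ (J - j))

private theorem qq_deg {k : Type*} [Field k] {h₁ g γ₁ γ₂ : Polynomial k} {D : ℕ}
    (h1 : h₁.natDegree ≤ D) (h2 : g.natDegree ≤ D) (h3 : γ₁.natDegree ≤ D)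
    (h4 : γ₂.natDegree ≤ D) {I J j : ℕ} (hj : j ≤ J) (P : Polynomial k) :
    (qq h₁ g γ₁ γ₂ I J j P).natDegree ≤ D * (I + J) := by
  unfold qq
  have e1 : (∑ i ∈ Finset.range (I + 1),
      Polynomial.C (P.coeff i) * h₁ ^ i * g ^ (I - i)).natDegree ≤ D * I := by
    refine Polynomial.natDegree_sum_le_of_forall_le _ _ (fun i hi => ?_)
    have hi' : i ≤ I := by
      have := Finset.mem_range.1 hi
      omega
    calc (Polynomial.C (P.coeff i) * h₁ ^ i * g ^ (I - i)).natDegree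
        ≤ (Polynomial.C (P.coeff i) * h₁ ^ i).natDegree + (g ^ (I - i)).natDegree :=
          Polynomial.natDegree_mul_le
      _ ≤ (0 + i * D) + (I - i) * D := by
          refine Nat.add_le_add ?_ ?_
          · refine Polynomial.natDegree_mul_le.trans (Nat.add_le_add ?_ ?_)
            · simp
            · exact Polynomial.natDegree_pow_le.trans (Nat.mul_le_mul_left _ h1)
          · exact Polynomial.natDegree_pow_le.trans (Nat.mul_le_mul_left _ h2)
      _ = D * I := by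
          have : I = i + (I - i) := by omega
          rw [zero_add, ← Nat.add_mul, ← this, Nat.mul_comm]
  have e2 : (γ₁ ^ j * γ₂ ^ (J - j)).natDegree ≤ D * J := by
    calc (γ₁ ^ j * γ₂ ^ (J - j)).natDegree
        ≤ (γ₁ ^ j).natDegree + (γ₂ ^ (J - j)).natDegree := Polynomial.natDegree_mul_le
      _ ≤ j * D + (J - j) * D := by
          refine Nat.add_le_add ?_ ?_
          · exact Polynomial.natDegree_pow_le.trans (Nat.mul_le_mul_left _ h3)
          · exact Polynomial.natDegree_pow_le.trans (Nat.mul_le_mul_left _ h4)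
      _ = D * J := by
          have : J = j + (J - j) := by omega
          rw [← Nat.add_mul, ← this, Nat.mul_comm]
  calc _ ≤ _ + _ := Polynomial.natDegree_mul_le
    _ ≤ D * I + D * J := Nat.add_le_add e1 e2
    _ = D * (I + J) := by ring

private theorem qq_val {k : Type*} [Field k] {h₁ g γ₁ γ₂ : Polynomial k} {h γ : k⟦X⟧}
    (hh : (g : k⟦X⟧) * h = h₁) (hγ : (γ₂ : k⟦X⟧) * γ = γ₁) {I J j : ℕ} (hj : j ≤ J)
    {P : Polynomial k} (hP : P.natDegree ≤ I) :
    (qq h₁ g γ₁ γ₂ I J j P : k⟦X⟧) =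
      (g : k⟦X⟧) ^ I * (γ₂ : k⟦X⟧) ^ J * (Polynomial.aeval h P * γ ^ j) := by
  unfold qq
  have e1 : ((∑ i ∈ Finset.range (I + 1),
      Polynomial.C (P.coeff i) * h₁ ^ i * g ^ (I - i) : Polynomial k) : k⟦X⟧) =
      (g : k⟦X⟧) ^ I * Polynomial.aeval h P := by
    rw [Polynomial.aeval_eq_sum_range' (n := I + 1) (by omega), Finset.mul_sum,
      ← Polynomial.coeToPowerSeries.ringHom_apply, map_sum]
    refine Finset.sum_congr rfl (fun i hi => ?_)
    have hi' : i ≤ I := by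
      have := Finset.mem_range.1 hi
      omega
    rw [map_mul, map_mul, map_pow, map_pow, Polynomial.coeToPowerSeries.ringHom_apply,
      Polynomial.coeToPowerSeries.ringHom_apply, Polynomial.coeToPowerSeries.ringHom_apply,
      Polynomial.coe_C, ← hh, PowerSeries.smul_eq_C_mul]
    have : (g : k⟦X⟧) ^ I = (g : k⟦X⟧) ^ i * (g : k⟦X⟧) ^ (I - i) := by
      rw [← pow_add]; congr 1; omega
    rw [this]
    ring
  have e2 : ((γ₁ ^ j * γ₂ ^ (J - j) : Polynomial k) : k⟦X⟧) = (γ₂ : k⟦X⟧) ^ J * γ ^ j := by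
    rw [← Polynomial.coeToPowerSeries.ringHom_apply, map_mul, map_pow, map_pow,
      Polynomial.coeToPowerSeries.ringHom_apply, Polynomial.coeToPowerSeries.ringHom_apply, ← hγ]
    have : (γ₂ : k⟦X⟧) ^ J = (γ₂ : k⟦X⟧) ^ j * (γ₂ : k⟦X⟧) ^ (J - j) := by
      rw [← pow_add]; congr 1; omega
    rw [this]
    ring
  rw [Polynomial.coe_mul, e1, e2]
  ring

private theorem evY_sum {k : Type*} [Field k] (f : k⟦X⟧) {J : ℕ}
    {P : Polynomial (Polynomial k)} (hP : P.natDegree ≤ J) :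
    evY f P = ∑ j ∈ Finset.range (J + 1), (P.coeff j : k⟦X⟧) * f ^ j := by
  unfold evY
  rw [Polynomial.eval₂_eq_sum_range' _ (n := J + 1) (by omega)]
  rfl

private theorem evY_subst {f h γ : (ZMod p)⟦X⟧} (h0 : constantCoeff h = 0)
    (FE : f.subst h = γ * f ^ p) {J : ℕ} {P : Polynomial (Polynomial (ZMod p))}
    (hP : P.natDegree ≤ J) :
    (evY f P).subst h = ∑ j ∈ Finset.range (J + 1),
      Polynomial.aeval h (P.coeff j) * γ ^ j * (f ^ j) ^ p := by
  have hs : HasSubst h := HasSubst.of_constantCoeff_zero' h0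
  rw [evY_sum f hP, ← coe_substAlgHom hs, map_sum]
  refine Finset.sum_congr rfl (fun j _ => ?_)
  rw [map_mul, map_pow, substAlgHom_coe, coe_substAlgHom, FE, mul_pow, ← pow_mul, ← pow_mul,
    Nat.mul_comm p j, mul_assoc]

theorem exists_sections {f h γ : (ZMod p)⟦X⟧} (h0 : constantCoeff h = 0) (hh : RatS h)
    (hγ : RatS γ) (FE : f.subst h = γ * f ^ p) :
    ∃ D : ℕ, ∀ (I J : ℕ) (P : Polynomial (Polynomial (ZMod p))), P.natDegree ≤ J →
      (∀ j, (P.coeff j).natDegree ≤ I) → ∃ Q : ℕ → Polynomial (Polynomial (ZMod p)),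
        (∀ t, (Q t).natDegree ≤ J ∧ ∀ j, ((Q t).coeff j).natDegree ≤ D * (I + J)) ∧
        (∀ m, X ^ (p * m) ∣ evY f P → ∀ t < p, X ^ m ∣ evY f (Q t)) ∧
        ((∀ t < p, ∃ s : Polynomial (ZMod p), Q t = Polynomial.C s * P) → ∀ i j,
          Polynomial.aeval h (P.coeff i) * γ ^ i * (P.coeff j : (ZMod p)⟦X⟧) ^ p =
            Polynomial.aeval h (P.coeff j) * γ ^ j * (P.coeff i : (ZMod p)⟦X⟧) ^ p) := by
  obtain ⟨h₁, g, hg0, hgh⟩ := hh
  obtain ⟨γ₁, γ₂, hγ0, hγγ⟩ := hγ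
  refine ⟨h₁.natDegree + g.natDegree + γ₁.natDegree + γ₂.natDegree, ?_⟩
  intro I J P hPJ hPI
  set D := h₁.natDegree + g.natDegree + γ₁.natDegree + γ₂.natDegree with hD
  set q : ℕ → Polynomial (ZMod p) := fun j => qq h₁ g γ₁ γ₂ I J j (P.coeff j) with hq
  choose B hB1 hB2 using fun (t j : ℕ) => exists_poly_sec (p := p) t (q j)
  set Q : ℕ → Polynomial (Polynomial (ZMod p)) := fun t =>
    ∑ j ∈ Finset.range (J + 1), Polynomial.monomial j (B t j) with hQ
  have hQc : ∀ t j, (Q t).coeff j = if j ≤ J then B t j else 0 := by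
    intro t j
    simp only [hQ, Polynomial.finsetSum_coeff, Polynomial.coeff_monomial]
    by_cases hj : j ≤ J
    · rw [if_pos hj, Finset.sum_eq_single j]
      · simp
      · intro b _ hb
        simp [hb]
      · intro hb
        exact absurd (Finset.mem_range.2 (by omega)) hb
    · rw [if_neg hj]
      refine Finset.sum_eq_zero (fun b hb => ?_)
      have := Finset.mem_range.1 hb
      rw [if_neg (by omega)]
  have hQd : ∀ t, (Q t).natDegree ≤ J := by
    intro t
    rw [Polynomial.natDegree_le_iff_coeff_eq_zero]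
    intro j hj
    rw [hQc, if_neg (by omega)]
  have hgne : (g : (ZMod p)⟦X⟧) ≠ 0 := by
    intro hcon
    have := congrArg (coeff 0) hcon
    rw [Polynomial.coeff_coe, hg0] at this
    simp at this
  have hγne : (γ₂ : (ZMod p)⟦X⟧) ≠ 0 := by
    intro hcon
    have := congrArg (coeff 0) hcon
    rw [Polynomial.coeff_coe, hγ0] at this
    simp at this
  have hqv : ∀ j, j ≤ J → (q j : (ZMod p)⟦X⟧) =
      (g : (ZMod p)⟦X⟧) ^ I * (γ₂ : (ZMod p)⟦X⟧) ^ J *
        (Polynomial.aeval h (P.coeff j) * γ ^ j) := fun j hj =>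
    qq_val hgh hγγ hj (hPI j)
  refine ⟨Q, fun t => ⟨hQd t, fun j => ?_⟩, ?_, ?_⟩
  · rw [hQc]
    split_ifs with hj
    · exact (hB2 t j).trans (qq_deg (by omega) (by omega) (by omega) (by omega) hj _)
    · simp
  · intro m hm t ht
    obtain ⟨r, hr⟩ := hm
    have hs : HasSubst h := HasSubst.of_constantCoeff_zero' h0
    have hX : X ∣ h := X_dvd_iff.2 h0
    have hdvd : X ^ (p * m) ∣ (evY f P).subst h := by
      rw [hr, subst_mul hs, subst_pow hs, subst_X hs]
      exact Dvd.dvd.mul_right (pow_dvd_pow_of_dvd hX _) _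
    have hdvd2 : X ^ (p * m) ∣ ∑ j ∈ Finset.range (J + 1), (q j : (ZMod p)⟦X⟧) * (f ^ j) ^ p := by
      have : ∑ j ∈ Finset.range (J + 1), (q j : (ZMod p)⟦X⟧) * (f ^ j) ^ p =
          (g : (ZMod p)⟦X⟧) ^ I * (γ₂ : (ZMod p)⟦X⟧) ^ J * (evY f P).subst h := by
        rw [evY_subst h0 FE hPJ, Finset.mul_sum]
        refine Finset.sum_congr rfl (fun j hj => ?_)
        rw [hqv j (by have := Finset.mem_range.1 hj; omega)]
        ring
      rw [this]
      exact Dvd.dvd.mul_left hdvd _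
    have h3 := X_pow_dvd_sec (t := t) ht hdvd2
    rw [sec_sum] at h3
    have h4 : evY f (Q t) = ∑ j ∈ Finset.range (J + 1),
        sec p t ((q j : (ZMod p)⟦X⟧) * (f ^ j) ^ p) := by
      rw [evY_sum f (hQd t)]
      refine Finset.sum_congr rfl (fun j hj => ?_)
      rw [sec_mul_pow ht, hQc, if_pos (by have := Finset.mem_range.1 hj; omega), hB1]
    rw [h4]
    exact h3
  · intro hall i j
    choose! s hs using hall
    have hp0 : p ≠ 0 := hp.out.ne_zero
    have hzero : ∀ j, ¬ j ≤ J → P.coeff j = 0 := fun j hj =>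
      Polynomial.coeff_eq_zero_of_natDegree_lt (by omega)
    have hqs : ∀ j, j ≤ J → (q j : (ZMod p)⟦X⟧) =
        (∑ t ∈ Finset.range p, X ^ t * (s t : (ZMod p)⟦X⟧) ^ p) *
          (P.coeff j : (ZMod p)⟦X⟧) ^ p := by
      intro j hj
      rw [sum_sec (p := p) (q j : (ZMod p)⟦X⟧), Finset.sum_mul]
      refine Finset.sum_congr rfl (fun t ht => ?_)
      have h1 := congrArg (fun F => F.coeff j) (hs t (Finset.mem_range.1 ht))
      simp only [Polynomial.coeff_C_mul] at h1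
      rw [hQc, if_pos hj] at h1
      rw [← hB1, h1, Polynomial.coe_mul, mul_pow]
      ring
    by_cases hi : i ≤ J
    · by_cases hj : j ≤ J
      · have hne : (g : (ZMod p)⟦X⟧) ^ I * (γ₂ : (ZMod p)⟦X⟧) ^ J ≠ 0 :=
          mul_ne_zero (pow_ne_zero _ hgne) (pow_ne_zero _ hγne)
        apply mul_left_cancel₀ hne
        have e1 := hqv i hi
        have e2 := hqv j hj
        rw [hqs i hi] at e1
        rw [hqs j hj] at e2
        calc (g : (ZMod p)⟦X⟧) ^ I * (γ₂ : (ZMod p)⟦X⟧) ^ J *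
              (Polynomial.aeval h (P.coeff i) * γ ^ i * (P.coeff j : (ZMod p)⟦X⟧) ^ p)
            = (g : (ZMod p)⟦X⟧) ^ I * (γ₂ : (ZMod p)⟦X⟧) ^ J *
              (Polynomial.aeval h (P.coeff i) * γ ^ i) * (P.coeff j : (ZMod p)⟦X⟧) ^ p := by ring
          _ = (g : (ZMod p)⟦X⟧) ^ I * (γ₂ : (ZMod p)⟦X⟧) ^ J *
              (Polynomial.aeval h (P.coeff j) * γ ^ j) * (P.coeff i : (ZMod p)⟦X⟧) ^ p := by
              rw [← e1, ← e2]
              ring
          _ = _ := by ring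
      · rw [hzero j hj]
        simp [hp0]
    · rw [hzero i hi]
      simp [hp0]

end Pool.Agent.Lib.MP_3550b5_nt.Vr
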